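import Pool.Agent.TH6.PF.KSt
import Pool.Agent.H26R2.Bass.Main

set_option autoImplicit false
set_option linter.unusedSectionVars false
set_option linter.style.haveILetI false

/-! The Hattori–Stallings rank of projective modules with a thin presentation. -/

namespace TH6.PF

open Matrix TH57.Thr TH6.LF
open Pool.Agent.H23R2.Cyc (ell ell_single ell_mul_comm ell_eq_sum tf tf_apply)
open Pool.Agent.H26R2.Bass (tf_zero_of_prime tf_zero_of_finite almostDiv_of_tf ell_class tau
  tau_eq ind_comm)

section trace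

variable {R : Type} [CommRing R] {Γ : Type} [Group Γ]

theorem tf_mul_rect {d e : Type} [Fintype d] [DecidableEq d] [Fintype e] [DecidableEq e]
    (f : Γ → R) (hf : ∀ x y, f (x * y) = f (y * x))
    (X : Matrix d e (MonoidAlgebra R Γ)) (Y : Matrix e d (MonoidAlgebra R Γ)) :
    tf f (X * Y) = tf f (Y * X) := by
  rw [tf_apply, tf_apply]
  simp only [Matrix.mul_apply, map_sum]
  rw [Finset.sum_comm]
  exact Finset.sum_congr rfl fun i _ => Finset.sum_congr rfl fun j _ => ell_mul_comm f hf _ _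

theorem tf_reindex {d e : Type} [Fintype d] [DecidableEq d] [Fintype e] [DecidableEq e]
    (f : Γ → R) (a : e ≃ d) (X : Matrix d d (MonoidAlgebra R Γ)) :
    tf f (X.submatrix a a) = tf f X := by
  rw [tf_apply, tf_apply]
  exact Equiv.sum_comp a fun i => ell f (X i i)

end trace

section vc

theorem vc_pow {V : Type} [Group V] (hV : ∃ s : V, (Subgroup.zpowers s).FiniteIndex) (g c : V)
    (hg : orderOf g = 0) (k : ℕ) (h : c * g * c⁻¹ = g ^ k) : k = 1 := by
  obtain ⟨s, hs⟩ := hV
  have hcomm : ∀ x ∈ Subgroup.zpowers s, ∀ y ∈ Subgroup.zpowers s, x * y = y * x := by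
    rintro _ ⟨a, rfl⟩ _ ⟨b, rfl⟩
    exact (zpow_mul_comm s a b)
  obtain ⟨M, hM, -, hgM⟩ := Subgroup.exists_pow_mem_of_index_ne_zero hs.index_ne_zero g
  obtain ⟨N, hN, -, hcN⟩ := Subgroup.exists_pow_mem_of_index_ne_zero hs.index_ne_zero c
  have h1 : ∀ n : ℕ, c ^ n * g * (c ^ n)⁻¹ = g ^ k ^ n := by
    intro n
    induction n with
    | zero => simp
    | succ n ih =>
      calc c ^ (n + 1) * g * (c ^ (n + 1))⁻¹ = c * (c ^ n * g * (c ^ n)⁻¹) * c⁻¹ := by
            rw [pow_succ']; group
        _ = (c * g * c⁻¹) ^ k ^ n := by rw [ih, conj_pow]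
        _ = _ := by rw [h, ← pow_mul, pow_succ']
  have h2 : g ^ (k ^ N * M) = g ^ M := by
    rw [pow_mul, ← h1, conj_pow, hcomm _ hcN _ hgM, mul_assoc, mul_inv_cancel, mul_one]
  have h3 : k ^ N * M = M := by
    by_contra hne
    exact hne (by
      have := (pow_inj_iff_of_orderOf_eq_zero hg).1 h2
      exact this)
  have h4 : k ^ N = 1 := by
    have : k ^ N * M = 1 * M := by rw [h3, one_mul]
    exact Nat.eq_of_mul_eq_mul_right hM this
  exact (Nat.pow_eq_one.1 h4).resolve_right (by omega)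

theorem tf_zero_vc {R : Type} [CommRing R] [IsDomain R] {V : Type} [Group V]
    (hV : ∃ s : V, (Subgroup.zpowers s).FiniteIndex) {d : Type} [Fintype d] [DecidableEq d]
    (F : Matrix d d (MonoidAlgebra R V)) (hF : F * F = F) (h : V) (hh : orderOf h = 0) :
    tf (Pool.Agent.H26R2.Bass.ind R h) F = 0 := by
  classical
  let a : Fin (Fintype.card d) ≃ d := (Fintype.equivFin d).symm
  rw [← tf_reindex _ a F]
  have hF' : F.submatrix a a * F.submatrix a a = F.submatrix a a := by
    rw [Matrix.submatrix_mul_equiv, hF]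
  by_cases h0 : CharZero R
  · by_contra hne
    obtain ⟨m, J, hm, hJ, hmJ⟩ := almostDiv_of_tf _ hF' h hne
    have h1 := hmJ (m + 1) (by simp)
    obtain ⟨c, hc⟩ := isConj_iff.1 h1
    have h2 := vc_pow hV h c hh _ hc
    have h3 := (Nat.pow_eq_one.1 h2).resolve_right (by omega)
    omega
  · obtain ⟨p, hp⟩ := CharP.exists R
    have hp0 : p ≠ 0 := by
      rintro rfl
      exact h0 (CharP.charP_to_charZero R)
    have hpp : p.Prime := (CharP.char_is_prime_or_zero R p).resolve_right hp0
    refine tf_zero_of_prime hpp (by rw [CharP.cast_eq_zero]; exact not_isUnit_zero) _ hF' h ?_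
    intro j hj hconj
    obtain ⟨c, hc⟩ := isConj_iff.1 hconj
    have h2 := vc_pow hV h c hh _ hc
    have h3 := (Nat.pow_eq_one.1 h2).resolve_right (by omega)
    exact hpp.one_lt.ne' h3

end vc

section pattern

variable {R : Type} [CommRing R] {G : Type} [Group G]
  {ι κ β : Type} [Fintype ι] [Fintype κ] [Fintype β] [DecidableEq ι] [DecidableEq κ]
  [DecidableEq β]

theorem scl_mul {μ : Type} (A : Matrix ι κ (MonoidAlgebra R G)) (B : Matrix κ μ (MonoidAlgebra R G))
    (u : ι → G) (w : κ → G) (v : μ → G) : scl A u w * scl B w v = scl (A * B) u v := by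
  have huu : ∀ g : G, (MonoidAlgebra.single g⁻¹ 1 : MonoidAlgebra R G) *
      MonoidAlgebra.single g 1 = 1 := by
    intro g
    rw [MonoidAlgebra.single_mul_single, inv_mul_cancel, mul_one, MonoidAlgebra.one_def]
  ext1 i l
  rw [Matrix.mul_apply]
  simp only [scl]
  rw [Matrix.mul_apply, Finset.mul_sum, Finset.sum_mul]
  refine Finset.sum_congr rfl fun j _ => ?_
  calc _ = MonoidAlgebra.single (u i) 1 * A i j * (MonoidAlgebra.single (w j)⁻¹ 1 *
        MonoidAlgebra.single (w j) 1) * B j l * MonoidAlgebra.single (v l)⁻¹ 1 := by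
        simp only [mul_assoc]
    _ = _ := by rw [huu, mul_one, mul_assoc (MonoidAlgebra.single (u i) 1)]

theorem tf_scl (f : G → R) (hf : ∀ x y, f (x * y) = f (y * x)) (E : Matrix κ κ (MonoidAlgebra R G))
    (w : κ → G) : tf f (scl E w w) = tf f E := by
  rw [tf_apply, tf_apply]
  refine Finset.sum_congr rfl fun j _ => ?_
  rw [scl, ell_mul_comm f hf, ← mul_assoc, MonoidAlgebra.single_mul_single, inv_mul_cancel,
    mul_one, ← MonoidAlgebra.one_def, one_mul]

theorem tf_blockSum (f : G → R) (s : κ → β) (C : β → Subgroup G)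
    (θ : ∀ a, Matrix {i // s i = a} {j // s j = a} (MonoidAlgebra R (C a)))
    (h : ∀ a, tf (fun x : C a => f x) (θ a) = 0) : tf f (blockSum s s C θ) = 0 := by
  have hell : ∀ (a : β) (x : MonoidAlgebra R (C a)),
      ell f (MonoidAlgebra.mapDomain (C a).subtype x) = ell (fun x : C a => f x) x := by
    intro a x
    induction x using MonoidAlgebra.induction_linear with
    | zero => simp
    | add x y hx hy => rw [MonoidAlgebra.mapDomain_add, map_add, map_add, hx, hy]
    | single h r => rw [MonoidAlgebra.mapDomain_single, ell_single, ell_single]; rfl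
  rw [tf_apply, ← Fintype.sum_fiberwise s]
  refine Finset.sum_eq_zero fun a _ => ?_
  have h1 := h a
  rw [tf_apply] at h1
  rw [← h1]
  refine Finset.sum_congr rfl fun j _ => ?_
  obtain ⟨j, rfl⟩ := j
  rw [← hell]
  congr 1
  exact dif_pos rfl

/-- **The rank of a projective module with a presentation of a virtually cyclic pattern.** -/
theorem bass_pattern [IsDomain R] (M : Matrix ι κ (MonoidAlgebra R G)) (r : ι → β) (s : κ → β)
    (C : β → Subgroup G) (u : ι → G) (w : κ → G)
    (h : ∀ i j g, (M i j).coeff g ≠ 0 → r i = s j ∧ u i * g * (w j)⁻¹ ∈ C (r i))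
    (hC : ∀ b, ∃ t : C b, (Subgroup.zpowers t).FiniteIndex)
    (X : Matrix κ ι (MonoidAlgebra R G)) (hX : M * X * M = M) (g : G) (hg : orderOf g = 0) :
    tf (Pool.Agent.H26R2.Bass.ind R g) (X * M) = 0 := by
  classical
  choose Z hZ using fun b => regular_blocks M r s C u w h X hX b
  set f := Pool.Agent.H26R2.Bass.ind R g with hf
  have hfc : ∀ x y, f (x * y) = f (y * x) := ind_comm g
  set N := scl M u w with hN
  have hNb : blockSum r s C (fun b => blkm M r s C u w b) = N :=
    blockSum_blk r s C N (scl_supp M r s C u w h)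
  set X₁ := scl X w u with hX₁
  set X' := blockSum s r C Z with hX'
  have e1 : N * X₁ * N = N := by rw [hN, hX₁, scl_mul, scl_mul, hX]
  have e2 : N * X' * N = N := by
    rw [← hNb, hX', blockSum_mul, blockSum_mul]
    congr 1
    funext b
    exact hZ b
  have e3 : tf f (X * M) = tf f (X' * N) := by
    calc tf f (X * M) = tf f (X₁ * N) := by rw [← tf_scl f hfc (X * M) w, ← scl_mul X M w u w]
      _ = tf f ((X₁ * N) * (X' * N)) := by
          rw [Matrix.mul_assoc X₁, ← Matrix.mul_assoc N X', e2]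
      _ = tf f ((X' * N) * (X₁ * N)) := tf_mul_rect f hfc _ _
      _ = tf f (X' * N) := by rw [Matrix.mul_assoc X', ← Matrix.mul_assoc N X₁, e1]
  rw [e3, ← hNb, hX', blockSum_mul]
  apply tf_blockSum
  intro b
  have hidem : (Z b * blkm M r s C u w b) * (Z b * blkm M r s C u w b)
      = Z b * blkm M r s C u w b := by
    rw [Matrix.mul_assoc, ← Matrix.mul_assoc (blkm M r s C u w b), hZ b]
  rw [tf_apply, ← map_sum]
  apply ell_class
  · intro x y hxy
    have hxy' : IsConj (x : G) (y : G) := MonoidHom.map_isConj (C b).subtype hxy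
    change Pool.Agent.H26R2.Bass.ind R g (x : G) = Pool.Agent.H26R2.Bass.ind R g (y : G)
    unfold Pool.Agent.H26R2.Bass.ind
    by_cases h1 : IsConj (x : G) g
    · rw [if_pos h1, if_pos (hxy'.symm.trans h1)]
    · rw [if_neg h1, if_neg (fun h' => h1 (hxy'.trans h'))]
  · intro x hx
    have hc : IsConj (x : G) g := by
      by_contra hcon
      apply hx
      change Pool.Agent.H26R2.Bass.ind R g (x : G) = 0
      unfold Pool.Agent.H26R2.Bass.ind
      rw [if_neg hcon]
    have ho : orderOf x = 0 := by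
      obtain ⟨c, hc⟩ := isConj_iff.1 hc
      rw [← Subgroup.orderOf_coe, ← hg, ← hc]
      exact (orderOf_injective (MulAut.conj c).toMonoidHom (MulAut.conj c).injective (x : G)).symm
    have h2 := tf_zero_vc (hC b) _ hidem x ho
    rw [tf_apply, ← map_sum] at h2
    exact h2

end pattern

/-- **The Bass trace conjecture for projective modules with a thin presentation.** -/
theorem bass_thin {R : Type} [CommRing R] [IsDomain R] {G : Type} [Group G] (c : ℝ) (hc0 : 0 < c)
    (hc : c ^ 2 < 9 / 2) {m n : ℕ} (M : Matrix (Fin m) (Fin n) (MonoidAlgebra R G))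
    (hM : ThinLE M c) (X : Matrix (Fin n) (Fin m) (MonoidAlgebra R G)) (hX : M * X * M = M)
    (g : G) (hg : ¬ IsUnit ((orderOf g : ℕ) : R)) : tau (1 - X * M) g = 0 := by
  classical
  have hidem : (1 - X * M) * (1 - X * M) = 1 - X * M := by
    have h2 : X * M * (X * M) = X * M := by rw [Matrix.mul_assoc, ← Matrix.mul_assoc M, hX]
    rw [Matrix.mul_sub, Matrix.sub_mul, Matrix.sub_mul, h2, Matrix.mul_one, Matrix.one_mul,
      sub_self, sub_zero, Matrix.mul_one]
  rw [tau_eq]
  by_cases hfin : orderOf g = 0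
  · rw [map_sub]
    obtain ⟨ρ, u, C, hC, hst⟩ := structure_vc (pat M) c hc0 hc hM
    have h1 : tf (Pool.Agent.H26R2.Bass.ind R g) (X * M) = 0 :=
      bass_pattern M (fun i => ρ (Sum.inl i)) (fun j => ρ (Sum.inr j)) C
        (fun i => u (Sum.inl i)) (fun j => u (Sum.inr j))
        (fun i j h hh => hst i j h ((pat_ne _ _ _ _).2 hh)) hC X hX g hfin
    have h2 : tf (Pool.Agent.H26R2.Bass.ind R g)
        (1 : Matrix (Fin n) (Fin n) (MonoidAlgebra R G)) = 0 := by
      rw [tf_apply]
      refine Finset.sum_eq_zero fun i _ => ?_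
      rw [Matrix.one_apply_eq, MonoidAlgebra.one_def, ell_single, one_mul]
      unfold Pool.Agent.H26R2.Bass.ind
      rw [if_neg]
      intro h3
      have h4 : g = 1 := isConj_one_right.1 h3
      rw [h4, orderOf_one] at hfin
      exact one_ne_zero hfin
    rw [h1, h2, sub_zero]
  · exact tf_zero_of_finite _ hidem g hfin hg

section iso

variable {S : Type} [Ring S] {κ ι μ : Type} [Fintype κ] [DecidableEq κ] [Fintype ι] [DecidableEq ι]
  [Fintype μ] [DecidableEq μ]

/-- an idempotent matrix whose row space is isomorphic to the cokernel of a regular matrix -/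
theorem idem_iso (A : Matrix μ μ S) (hA : A * A = A) (M : Matrix ι κ S) (X : Matrix κ ι S)
    (hX : M * X * M = M)
    (φ : LinearMap.range A.vecMulLinear ≃ₗ[S] ((κ → S) ⧸ LinearMap.range M.vecMulLinear)) :
    ∃ (U : Matrix μ κ S) (V : Matrix κ μ S), U * V = A ∧ V * U = 1 - X * M := by
  set T := LinearMap.range M.vecMulLinear with hT
  let f : (κ → S) →ₗ[S] (κ → S) := LinearMap.id - (X * M).vecMulLinear
  have hf : ∀ x, f x = x - x ᵥ* (X * M) := fun x => rfl
  have hker : T ≤ LinearMap.ker f := by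
    rintro _ ⟨y, rfl⟩
    rw [LinearMap.mem_ker, hf, Matrix.vecMulLinear_apply, Matrix.vecMul_vecMul,
      ← Matrix.mul_assoc, hX, sub_self]
  let t : ((κ → S) ⧸ T) →ₗ[S] (κ → S) := T.liftQ f hker
  have ht : ∀ x, t (T.mkQ x) = x - x ᵥ* (X * M) := fun x => rfl
  have hπt : ∀ y, T.mkQ (t y) = y := by
    intro y
    obtain ⟨x, rfl⟩ := Submodule.mkQ_surjective _ y
    rw [ht, map_sub, sub_eq_self, ← LinearMap.mem_ker, Submodule.ker_mkQ]
    exact ⟨x ᵥ* X, by rw [Matrix.vecMulLinear_apply, Matrix.vecMul_vecMul]⟩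
  let a : (μ → S) →ₗ[S] ((κ → S) ⧸ T) := φ.toLinearMap ∘ₗ A.vecMulLinear.rangeRestrict
  let b : ((κ → S) ⧸ T) →ₗ[S] (μ → S) := (LinearMap.range A.vecMulLinear).subtype ∘ₗ
    φ.symm.toLinearMap
  have hba : ∀ x, b (a x) = x ᵥ* A := by
    intro x
    change ((φ.symm (φ (A.vecMulLinear.rangeRestrict x)) : LinearMap.range A.vecMulLinear) :
      μ → S) = _
    rw [LinearEquiv.symm_apply_apply]
    rfl
  have hab : ∀ y, a (b y) = y := by
    intro y
    obtain ⟨z, rfl⟩ := φ.surjective y
    change φ (A.vecMulLinear.rangeRestrict ((φ.symm (φ z) : LinearMap.range A.vecMulLinear) :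
      μ → S)) = _
    rw [LinearEquiv.symm_apply_apply]
    congr 1
    obtain ⟨_, ⟨x, rfl⟩⟩ := z
    apply Subtype.ext
    change (x ᵥ* A) ᵥ* A = x ᵥ* A
    rw [Matrix.vecMul_vecMul, hA]
  let U : Matrix μ κ S := LinearMap.toMatrixRight' (t ∘ₗ a)
  let V : Matrix κ μ S := LinearMap.toMatrixRight' (b ∘ₗ T.mkQ)
  have hU : ∀ x, x ᵥ* U = t (a x) := fun x =>
    congrArg (fun F : (μ → S) →ₗ[S] (κ → S) => F x)
      (LinearMap.toMatrixRight'.symm_apply_apply (t ∘ₗ a))
  have hV : ∀ x, x ᵥ* V = b (T.mkQ x) := fun x =>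
    congrArg (fun F : (κ → S) →ₗ[S] (μ → S) => F x)
      (LinearMap.toMatrixRight'.symm_apply_apply (b ∘ₗ T.mkQ))
  refine ⟨U, V, ?_, ?_⟩
  · ext1 i
    have h1 := (Matrix.single_one_vecMul i (U * V)).symm
    have h2 := (Matrix.single_one_vecMul i A).symm
    rw [← Matrix.vecMul_vecMul, hU, hV, hπt, hba] at h1
    exact congrFun (h1.trans h2.symm)
  · ext1 i
    have h1 := (Matrix.single_one_vecMul i (V * U)).symm
    have h2 := (Matrix.single_one_vecMul i (1 - X * M)).symm
    rw [← Matrix.vecMul_vecMul, hV, hU, hab, ht] at h1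
    rw [Matrix.vecMul_sub, Matrix.vecMul_one] at h2
    exact congrFun (h1.trans h2.symm)

end iso

/-- **The Bass trace conjecture for projective modules with a thin presentation**, for the
idempotent matrices representing them. -/
theorem bass_thin_module {R : Type} [CommRing R] [IsDomain R] {G : Type} [Group G] (c : ℝ)
    (hc0 : 0 < c) (hc : c ^ 2 < 9 / 2) {k m n : ℕ}
    (A : Matrix (Fin k) (Fin k) (MonoidAlgebra R G)) (hA : A * A = A)
    (M : Matrix (Fin m) (Fin n) (MonoidAlgebra R G)) (hM : ThinLE M c)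
    (φ : LinearMap.range A.vecMulLinear ≃ₗ[MonoidAlgebra R G] Coker M)
    (g : G) (hg : ¬ IsUnit ((orderOf g : ℕ) : R)) : tau A g = 0 := by
  have hP : Module.Projective (MonoidAlgebra R G) (LinearMap.range A.vecMulLinear) := by
    refine Module.Projective.of_split (LinearMap.range A.vecMulLinear).subtype
      A.vecMulLinear.rangeRestrict ?_
    refine LinearMap.ext fun z => ?_
    obtain ⟨_, ⟨x, rfl⟩⟩ := z
    apply Subtype.ext
    change (x ᵥ* A) ᵥ* A = x ᵥ* A
    rw [Matrix.vecMul_vecMul, hA]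
  obtain ⟨X, hX⟩ := regular_of_projective M _ hP φ
  obtain ⟨U, V, h1, h2⟩ := idem_iso A hA M X hX φ
  have h3 := bass_thin c hc0 hc M hM X hX g hg
  rw [tau_eq] at h3 ⊢
  rw [← h1, tf_mul_rect _ (ind_comm g), h2, h3]

end TH6.PF
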