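import Pool.Agent.TH6.PF.PBelow

set_option autoImplicit false
set_option linter.style.haveILetI false
set_option linter.unusedSectionVars false

/-! Invertible matrices over the group ring of any ring whose support pattern has operator norm
less than `3 / √2` are products of matrices over the group rings of virtually cyclic subgroups. -/

namespace TH6.PF

open Matrix TH57.Thr TH6.LF

variable {R : Type} [Ring R] {G : Type} [Group G] {κ β : Type} [Fintype κ] [DecidableEq κ]

/-- The group `C` is virtually cyclic: it contains a cyclic subgroup of finite index. -/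
def IsVC (C : Subgroup G) : Prop := ∃ s : C, (Subgroup.zpowers s).FiniteIndex

theorem isVC_zpowers (g : G) : IsVC (Subgroup.zpowers g) := by
  refine ⟨⟨g, Subgroup.mem_zpowers g⟩, ?_⟩
  have h1 : Subgroup.zpowers (⟨g, Subgroup.mem_zpowers g⟩ : Subgroup.zpowers g) = ⊤ := by
    rw [eq_top_iff]
    rintro ⟨x, hx⟩ -
    obtain ⟨k, rfl⟩ := Subgroup.mem_zpowers_iff.1 hx
    exact Subgroup.mem_zpowers_iff.2 ⟨k, rfl⟩
  rw [h1]
  infer_instance

theorem isVC_bot : IsVC (⊥ : Subgroup G) := by
  refine ⟨1, ?_⟩
  have : Finite (⊥ : Subgroup G) := inferInstance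
  infer_instance

variable (R G κ)

/-- The subgroup of the general linear group over the group ring `RG` which is generated by the
general linear groups over the group rings of the virtually cyclic subgroups of `G`. -/
noncomputable def VCGen : Subgroup (Matrix κ κ (MonoidAlgebra R G))ˣ :=
  Subgroup.closure {x | ∃ (C : Subgroup G) (y : (Matrix κ κ (MonoidAlgebra R C))ˣ), IsVC C ∧
    x.val = y.val.map (MonoidAlgebra.mapDomain C.subtype)}

variable {R G κ}

theorem gen_of_supp (x : (Matrix κ κ (MonoidAlgebra R G))ˣ) (C : Subgroup G) (hC : IsVC C)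
    (h : ∀ i j g, (x.val i j).coeff g ≠ 0 → g ∈ C) : x ∈ VCGen R G κ := by
  let f := C.subtype
  have hf : Function.Injective f := C.subtype_injective
  let P : Matrix κ κ (MonoidAlgebra R C) := x.val.map (MonoidAlgebra.comapDomain f hf)
  let Q : Matrix κ κ (MonoidAlgebra R C) := x⁻¹.val.map (MonoidAlgebra.comapDomain f hf)
  have hr : ∀ i j g, (x.val i j).coeff g ≠ 0 → g ∈ f.range := fun i j g hg => by
    have := h i j g hg
    simpa [f] using this
  have hone : (1 : Matrix κ κ (MonoidAlgebra R G)).map (MonoidAlgebra.comapDomain f hf) = 1 := by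
    ext1 i j
    rw [Matrix.map_apply, Matrix.one_apply, Matrix.one_apply]
    split_ifs
    · exact comap_one' _ _
    · exact MonoidAlgebra.comapDomain_zero _ _
  have hPQ : P * Q = 1 := by
    rw [← hone, ← x.mul_inv]
    ext1 i j
    rw [Matrix.map_apply, Matrix.mul_apply, Matrix.mul_apply, comap_sum']
    exact Finset.sum_congr rfl fun k _ => (comap_mul_left f hf _ _ (hr i k)).symm
  have hQP : Q * P = 1 := by
    rw [← hone, ← x.inv_mul]
    ext1 i j
    rw [Matrix.map_apply, Matrix.mul_apply, Matrix.mul_apply, comap_sum']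
    exact Finset.sum_congr rfl fun k _ => (comap_mul_right f hf _ _ (hr k j)).symm
  refine Subgroup.subset_closure ⟨C, ⟨P, Q, hPQ, hQP⟩, hC, ?_⟩
  ext1 i j
  symm
  change MonoidAlgebra.mapDomain f (MonoidAlgebra.comapDomain f hf (x.val i j)) = x.val i j
  apply MonoidAlgebra.mapDomain_comapDomain
  intro g hg
  exact hr i j g (Finsupp.mem_support_iff.1 hg)

/-- The invertible diagonal matrix with the group elements `u i` on the diagonal. -/
noncomputable def dmU (R : Type) [Ring R] (u : κ → G) : (Matrix κ κ (MonoidAlgebra R G))ˣ where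
  val := Matrix.diagonal fun i => MonoidAlgebra.single (u i) 1
  inv := Matrix.diagonal fun i => MonoidAlgebra.single (u i)⁻¹ 1
  val_inv := by
    rw [Matrix.diagonal_mul_diagonal]
    ext1 i j
    rw [Matrix.diagonal_apply, Matrix.one_apply]
    split_ifs <;> simp [MonoidAlgebra.single_mul_single, MonoidAlgebra.one_def]
  inv_val := by
    rw [Matrix.diagonal_mul_diagonal]
    ext1 i j
    rw [Matrix.diagonal_apply, Matrix.one_apply]
    split_ifs <;> simp [MonoidAlgebra.single_mul_single, MonoidAlgebra.one_def]

theorem dmU_mul (u v : κ → G) : dmU R (u * v) = dmU R u * dmU R v := by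
  ext1
  rw [Units.val_mul]
  change Matrix.diagonal _ = Matrix.diagonal _ * Matrix.diagonal _
  rw [Matrix.diagonal_mul_diagonal]
  congr 1
  funext i
  rw [MonoidAlgebra.single_mul_single, one_mul]
  rfl

theorem dmU_one : dmU R (1 : κ → G) = 1 := by
  ext1
  change Matrix.diagonal _ = 1
  rw [← Matrix.diagonal_one]
  rfl

theorem dmU_mem (u : κ → G) : dmU R u ∈ VCGen R G κ := by
  classical
  have key : ∀ s : Finset κ, dmU R (fun i => if i ∈ s then u i else 1) ∈ VCGen R G κ := by
    intro s
    induction s using Finset.induction_on with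
    | empty =>
      have : (fun i => if i ∈ (∅ : Finset κ) then u i else 1) = 1 := by
        funext i; simp
      rw [this, dmU_one]
      exact one_mem _
    | insert a s ha ih =>
      have : (fun i => if i ∈ insert a s then u i else 1)
          = (fun i => if i = a then u a else 1) * (fun i => if i ∈ s then u i else 1) := by
        funext i
        rw [Pi.mul_apply]
        by_cases h : i = a
        · subst h; simp [ha]
        · simp [h]
      rw [this, dmU_mul]
      refine mul_mem (gen_of_supp _ (Subgroup.zpowers (u a)) (isVC_zpowers _) ?_) ih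
      intro i j g hg
      change ((Matrix.diagonal fun i => MonoidAlgebra.single (if i = a then u a else 1) (1 : R)) i
        j).coeff g ≠ 0 at hg
      rw [Matrix.diagonal_apply] at hg
      split_ifs at hg with h1 h2
      · rw [MonoidAlgebra.coeff_single, Finsupp.single_apply] at hg
        split_ifs at hg with h3
        · rw [← h3]; exact Subgroup.mem_zpowers _
        · exact absurd rfl hg
      · rw [MonoidAlgebra.coeff_single, Finsupp.single_apply] at hg
        split_ifs at hg with h3
        · rw [← h3]; exact one_mem _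
        · exact absurd rfl hg
      · exact absurd rfl hg
  have := key Finset.univ
  simpa using this

theorem coeff_dmU (u v : κ → G) (M : Matrix κ κ (MonoidAlgebra R G)) (i j : κ) (g : G) :
    (((dmU R u).val * M * (dmU R v)⁻¹.val) i j).coeff g
      = (M i j).coeff ((u i)⁻¹ * g * v j) := by
  change ((Matrix.diagonal (fun i => MonoidAlgebra.single (u i) (1 : R)) * M
    * Matrix.diagonal (fun i => MonoidAlgebra.single (v i)⁻¹ (1 : R)) :
      Matrix κ κ (MonoidAlgebra R G)) i j).coeff g = _
  rw [Matrix.mul_diagonal, Matrix.diagonal_mul, MonoidAlgebra.coeff_mul_single_apply,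
    MonoidAlgebra.coeff_single_mul_apply]
  simp [mul_assoc]

section blocks

variable [DecidableEq β] [Fintype β] (C : β → Subgroup G) (hC : ∀ a, IsVC (C a))

/-- the inverse of a block matrix is a block matrix -/
theorem inv_supp (ρ σ : κ → β) (B B' : Matrix κ κ (MonoidAlgebra R G)) (h : B * B' = 1)
    (h' : B' * B = 1)
    (hB : ∀ i j g, (B i j).coeff g ≠ 0 → ρ i = σ j ∧ g ∈ C (ρ i)) :
    B' = blockSum σ ρ C (blk σ ρ C B') := by
  have h1 : B * blockSum σ ρ C (blk σ ρ C B') = 1 := by
    nth_rewrite 1 [← blockSum_blk ρ σ C B hB]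
    rw [blockSum_mul, ← blockSum_one ρ C]
    congr 1
    funext a
    exact blk_mul ρ σ C B B' h hB a
  calc B' = B' * (B * blockSum σ ρ C (blk σ ρ C B')) := by rw [h1, mul_one]
    _ = _ := by rw [← mul_assoc, h', one_mul]

include hC in
theorem diag_mem (ρ : κ → β) (x : (Matrix κ κ (MonoidAlgebra R G))ˣ)
    (hx : ∀ i j g, (x.val i j).coeff g ≠ 0 → ρ i = ρ j ∧ g ∈ C (ρ i)) : x ∈ VCGen R G κ := by
  classical
  let θ := blk ρ ρ C x.val
  let η := blk ρ ρ C x⁻¹.val
  have h1 : ∀ a, θ a * η a = 1 := fun a => blk_mul ρ ρ C _ _ x.mul_inv hx a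
  have h2 : ∀ a, η a * θ a = 1 := fun a => blk_mul' ρ ρ C _ _ x.inv_mul hx a
  let U : Finset β → (Matrix κ κ (MonoidAlgebra R G))ˣ := fun s =>
    { val := blockSum ρ ρ C fun a => if a ∈ s then θ a else 1
      inv := blockSum ρ ρ C fun a => if a ∈ s then η a else 1
      val_inv := by
        rw [blockSum_mul, ← blockSum_one ρ C]
        congr 1
        funext a
        split_ifs
        · exact h1 a
        · exact mul_one _
      inv_val := by
        rw [blockSum_mul, ← blockSum_one ρ C]
        congr 1
        funext a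
        split_ifs
        · exact h2 a
        · exact mul_one _ }
  have key : ∀ s, U s ∈ VCGen R G κ := by
    intro s
    induction s using Finset.induction_on with
    | empty =>
      have : U ∅ = 1 := by
        ext1
        change (blockSum ρ ρ C fun a => if a ∈ (∅ : Finset β) then θ a else 1) = 1
        rw [← blockSum_one ρ C]
        congr 1
      rw [this]
      exact one_mem _
    | insert b s hb ih =>
      have : U (insert b s) = U {b} * U s := by
        ext1
        change (blockSum ρ ρ C fun a => if a ∈ insert b s then θ a else 1)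
          = (blockSum ρ ρ C fun a => if a ∈ ({b} : Finset β) then θ a else 1)
            * (blockSum ρ ρ C fun a => if a ∈ s then θ a else 1)
        rw [blockSum_mul]
        congr 1
        funext a
        by_cases h : a = b
        · subst h
          rw [if_pos (Finset.mem_insert_self _ _), if_pos (Finset.mem_singleton_self _),
            if_neg hb, mul_one]
        · have e1 : a ∈ insert b s ↔ a ∈ s := by simp [h]
          have e2 : ¬ a ∈ ({b} : Finset β) := by simpa using h
          rw [if_neg e2, one_mul]
          exact if_congr e1 rfl rfl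
      rw [this]
      refine mul_mem (gen_of_supp _ (C b) (hC b) fun i j g hg => ?_) ih
      change ((blockSum ρ ρ C fun a => if a ∈ ({b} : Finset β) then θ a else 1) i j).coeff g ≠ 0
        at hg
      by_cases h : ρ i = b
      · have := (blockSum_supp ρ ρ C _ i j g hg).2
        rwa [h] at this
      · -- the block is the identity
        unfold blockSum at hg
        split_ifs at hg with h3
        · have h9 : (if ρ i ∈ ({b} : Finset β) then θ (ρ i) else 1) = 1 :=
            if_neg (by simpa using h)
          change (MonoidAlgebra.mapDomain (C (ρ i)).subtype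
            ((if ρ i ∈ ({b} : Finset β) then θ (ρ i) else 1) ⟨i, rfl⟩ ⟨j, h3⟩)).coeff g ≠ 0 at hg
          rw [h9, Matrix.one_apply] at hg
          split_ifs at hg with h4
          · have h5 : (MonoidAlgebra.mapDomain (C (ρ i)).subtype
                (1 : MonoidAlgebra R (C (ρ i)))) = 1 :=
              map_one (MonoidAlgebra.mapDomainRingHom R (C (ρ i)).subtype)
            rw [h5, MonoidAlgebra.one_def, MonoidAlgebra.coeff_single, Finsupp.single_apply] at hg
            split_ifs at hg with h6
            · rw [← h6]; exact one_mem _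
            · exact absurd rfl hg
          · rw [MonoidAlgebra.mapDomain_zero] at hg
            exact absurd rfl hg
        · exact absurd rfl hg
  have h3 : x = U Finset.univ := by
    ext1
    change x.val = blockSum ρ ρ C fun a => if a ∈ Finset.univ then θ a else 1
    simp only [Finset.mem_univ, if_true]
    exact (blockSum_blk ρ ρ C x.val hx).symm
  rw [h3]
  exact key _

include hC in
theorem block_mem (ρ σ : κ → β) (B : (Matrix κ κ (MonoidAlgebra R G))ˣ)
    (hB : ∀ i j g, (B.val i j).coeff g ≠ 0 → ρ i = σ j ∧ g ∈ C (ρ i)) : B ∈ VCGen R G κ := by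
  classical
  let φ : MonoidAlgebra R G →+* MonoidAlgebra R G :=
    MonoidAlgebra.mapDomainRingHom R (1 : G →* G)
  have hφ : ∀ x g, (φ x).coeff g ≠ 0 → g = 1 := by
    intro x g hg
    by_contra h
    apply hg
    change (MonoidAlgebra.mapDomain (1 : G →* G) x).coeff g = 0
    rw [MonoidAlgebra.coeff_mapDomain]
    apply Finsupp.mapDomain_of_notMem_range
    rintro ⟨y, hy⟩
    exact h hy.symm
  let T : (Matrix κ κ (MonoidAlgebra R G))ˣ := Units.map (mpm φ) B⁻¹
  have hT : T ∈ VCGen R G κ := gen_of_supp _ ⊥ isVC_bot fun i j g hg => by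
    have := hφ (B⁻¹.val i j) g hg
    rw [this]
    exact one_mem _
  have hB' := inv_supp C ρ σ B.val B⁻¹.val B.mul_inv B.inv_mul hB
  have hBT : B * T ∈ VCGen R G κ := by
    refine diag_mem C hC ρ _ fun i k g hg => ?_
    rw [Units.val_mul, Matrix.mul_apply] at hg
    obtain ⟨j, hj⟩ : ∃ j, (B.val i j * T.val j k).coeff g ≠ 0 := by
      by_contra hcon
      push Not at hcon
      apply hg
      have h1 : (∑ j, B.val i j * T.val j k).coeff g = ∑ j, (B.val i j * T.val j k).coeff g := by
        rw [MonoidAlgebra.coeff_sum, Finsupp.finsetSum_apply]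
      rw [h1]
      exact Finset.sum_eq_zero fun j _ => hcon j
    have h2 : (B⁻¹.val j k) ≠ 0 := by
      intro h0
      apply hj
      change (B.val i j * φ (B⁻¹.val j k)).coeff g = 0
      rw [h0, map_zero, mul_zero]
      rfl
    have h3 : ρ k = σ j := by
      by_contra h4
      apply h2
      rw [hB']
      exact dif_neg h4
    have h5 : T.val j k = MonoidAlgebra.single 1 ((T.val j k).coeff 1) := by
      ext g'
      rw [MonoidAlgebra.coeff_single, Finsupp.single_apply]
      split_ifs with h6
      · rw [h6]
      · by_contra h7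
        exact h6 (hφ _ g' h7).symm
    rw [h5, MonoidAlgebra.coeff_mul_single_apply, inv_one, mul_one] at hj
    have h6 := hB i j g (left_ne_zero_of_mul hj)
    exact ⟨h6.1.trans h3.symm, h6.2⟩
  have : B = B * T * T⁻¹ := by group
  rw [this]
  exact mul_mem hBT (inv_mem hT)

end blocks

/-- **Invertible matrices with thin support pattern.** -/
theorem thin_below (A : (Matrix κ κ (MonoidAlgebra R G))ˣ) (c : ℝ) (hc0 : 0 < c)
    (hc : c ^ 2 < 9 / 2) (hA : ThinLE A.val c) :
    A ∈ VCGen R G κ ∧
    ∃ (ρ σ : κ → κ ⊕ κ) (u v : κ → G) (C : κ ⊕ κ → Subgroup G)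
      (θ : ∀ a, Matrix {i // ρ i = a} {j // σ j = a} (MonoidAlgebra R (C a)))
      (η : ∀ a, Matrix {j // σ j = a} {i // ρ i = a} (MonoidAlgebra R (C a))),
      (∀ a, IsVC (C a)) ∧ (∀ a, θ a * η a = 1 ∧ η a * θ a = 1) ∧
      (dmU R u).val * A.val * (dmU R v)⁻¹.val = blockSum ρ σ C θ := by
  obtain ⟨r, w, C, hC, hst⟩ := structure_vc (pat A.val) c hc0 hc hA
  set ρ : κ → κ ⊕ κ := fun i => r (Sum.inl i) with hρ
  set σ : κ → κ ⊕ κ := fun j => r (Sum.inr j) with hσ
  set u : κ → G := fun i => w (Sum.inl i) with hu
  set v : κ → G := fun j => w (Sum.inr j) with hv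
  set B : (Matrix κ κ (MonoidAlgebra R G))ˣ := dmU R u * A * (dmU R v)⁻¹ with hBd
  have hBs : ∀ i j g, (B.val i j).coeff g ≠ 0 → ρ i = σ j ∧ g ∈ C (ρ i) := by
    intro i j g hg
    rw [hBd, Units.val_mul, Units.val_mul, coeff_dmU] at hg
    have h1 := hst i j _ ((pat_ne _ _ _ _).2 hg)
    refine ⟨h1.1, ?_⟩
    have h2 := h1.2
    have h3 : w (Sum.inl i) * ((u i)⁻¹ * g * v j) * (w (Sum.inr j))⁻¹ = g := by
      rw [hu, hv]; group
    rwa [h3] at h2
  refine ⟨?_, ρ, σ, u, v, C, blk ρ σ C B.val, blk σ ρ C B⁻¹.val, hC, fun a =>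
    ⟨blk_mul ρ σ C _ _ B.mul_inv hBs a, blk_mul' ρ σ C _ _ B.inv_mul hBs a⟩, ?_⟩
  · have h1 := block_mem C hC ρ σ B hBs
    have h2 : A = (dmU R u)⁻¹ * B * dmU R v := by rw [hBd]; group
    rw [h2]
    exact mul_mem (mul_mem (inv_mem (dmU_mem u)) h1) (dmU_mem v)
  · rw [← Units.val_mul, ← Units.val_mul, ← hBd]
    exact (blockSum_blk ρ σ C B.val hBs).symm

end TH6.PF
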