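import Pool.Agent.TH6.PF.Pat
import Pool.Agent.TH6.LF.Blk
import Pool.Agent.TH57.Thr.Struct2

set_option autoImplicit false
set_option linter.style.haveILetI false
set_option linter.unusedSectionVars false

/-! Invertible matrices over the group ring of any ring whose support pattern has operator norm
less than `3 / √2` come from virtually cyclic subgroups. -/

namespace TH6.PF

open Matrix TH57.Thr TH6.LF

section comap

variable {R : Type} [Ring R] {K Γ : Type} [Group K] [Group Γ] (f : K →* Γ)
  (hf : Function.Injective f)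

theorem comap_mulR (x : MonoidAlgebra R K) (y : MonoidAlgebra R Γ) :
    MonoidAlgebra.comapDomain f hf (MonoidAlgebra.mapDomainRingHom R f x * y)
      = x * MonoidAlgebra.comapDomain f hf y := by
  induction x using MonoidAlgebra.induction_linear with
  | zero => simp
  | add x1 x2 h1 h2 => rw [map_add, add_mul, MonoidAlgebra.comapDomain_add, h1, h2, add_mul]
  | single k z =>
    ext k'
    simp only [MonoidAlgebra.mapDomainRingHom_apply, MonoidAlgebra.mapDomain_single,
      MonoidAlgebra.coeff_comapDomain, Finsupp.comapDomain_apply,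
      MonoidAlgebra.coeff_single_mul_apply]
    rw [← map_inv, ← map_mul]

theorem comap_mulR' (y : MonoidAlgebra R Γ) (x : MonoidAlgebra R K) :
    MonoidAlgebra.comapDomain f hf (y * MonoidAlgebra.mapDomainRingHom R f x)
      = MonoidAlgebra.comapDomain f hf y * x := by
  induction x using MonoidAlgebra.induction_linear with
  | zero => simp
  | add x1 x2 h1 h2 => rw [map_add, mul_add, MonoidAlgebra.comapDomain_add, h1, h2, mul_add]
  | single k z =>
    ext k'
    simp only [MonoidAlgebra.mapDomainRingHom_apply, MonoidAlgebra.mapDomain_single,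
      MonoidAlgebra.coeff_comapDomain, Finsupp.comapDomain_apply,
      MonoidAlgebra.coeff_mul_single_apply]
    rw [← map_inv, ← map_mul]

theorem comap_one' : MonoidAlgebra.comapDomain f hf (1 : MonoidAlgebra R Γ) = 1 := by
  have := comap_mulR f hf (1 : MonoidAlgebra R K) (1 : MonoidAlgebra R Γ)
  rw [MonoidAlgebra.one_def, MonoidAlgebra.one_def, ← map_one f,
    MonoidAlgebra.comapDomain_single_map]

/-- pullback of a product whose first factor is supported on the range -/
theorem comap_mul_left (x y : MonoidAlgebra R Γ) (hx : ∀ g, x.coeff g ≠ 0 → g ∈ f.range) :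
    MonoidAlgebra.comapDomain f hf (x * y)
      = MonoidAlgebra.comapDomain f hf x * MonoidAlgebra.comapDomain f hf y := by
  rw [← comap_mulR]
  congr 2
  symm
  change MonoidAlgebra.mapDomain f (MonoidAlgebra.comapDomain f hf x) = x
  apply MonoidAlgebra.mapDomain_comapDomain
  intro g hg
  exact hx g (Finsupp.mem_support_iff.1 hg)

theorem comap_mul_right (x y : MonoidAlgebra R Γ) (hy : ∀ g, y.coeff g ≠ 0 → g ∈ f.range) :
    MonoidAlgebra.comapDomain f hf (x * y)
      = MonoidAlgebra.comapDomain f hf x * MonoidAlgebra.comapDomain f hf y := by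
  rw [← comap_mulR']
  congr 2
  symm
  change MonoidAlgebra.mapDomain f (MonoidAlgebra.comapDomain f hf y) = y
  apply MonoidAlgebra.mapDomain_comapDomain
  intro g hg
  exact hy g (Finsupp.mem_support_iff.1 hg)

theorem comap_sum' {α : Type} (s : Finset α) (F : α → MonoidAlgebra R Γ) :
    MonoidAlgebra.comapDomain f hf (∑ k ∈ s, F k)
      = ∑ k ∈ s, MonoidAlgebra.comapDomain f hf (F k) :=
  map_sum (MonoidAlgebra.comapDomainAddMonoidHom (R := R) f hf) F s

end comap

section blk

variable {R : Type} [Ring R] {G : Type} [Group G] {ι κ μ β : Type}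

/-- The block sum of the matrices `θ a` over the group rings of the subgroups `C a`, induced up to
the group ring of `G`; the block with label `a` has the rows `i` with `ρ i = a` and the columns
`j` with `σ j = a`. -/
noncomputable def blockSum [DecidableEq β] (ρ : ι → β) (σ : κ → β) (C : β → Subgroup G)
    (θ : ∀ a, Matrix {i // ρ i = a} {j // σ j = a} (MonoidAlgebra R (C a))) :
    Matrix ι κ (MonoidAlgebra R G) := fun i j =>
  if h : σ j = ρ i then MonoidAlgebra.mapDomain (C (ρ i)).subtype (θ (ρ i) ⟨i, rfl⟩ ⟨j, h⟩) else 0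

/-- the block of a matrix -/
noncomputable def blk (ρ : ι → β) (σ : κ → β) (C : β → Subgroup G)
    (B : Matrix ι κ (MonoidAlgebra R G)) (a : β) :
    Matrix {i // ρ i = a} {j // σ j = a} (MonoidAlgebra R (C a)) := fun i j =>
  MonoidAlgebra.comapDomain (C a).subtype (C a).subtype_injective (B i.1 j.1)

variable [DecidableEq β] (ρ : ι → β) (σ : κ → β) (C : β → Subgroup G)

theorem blockSum_blk (B : Matrix ι κ (MonoidAlgebra R G))
    (hB : ∀ i j g, (B i j).coeff g ≠ 0 → ρ i = σ j ∧ g ∈ C (ρ i)) :
    blockSum ρ σ C (blk ρ σ C B) = B := by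
  ext1 i j
  unfold blockSum
  split_ifs with h
  · change MonoidAlgebra.mapDomain (C (ρ i)).subtype (MonoidAlgebra.comapDomain
      (C (ρ i)).subtype (C (ρ i)).subtype_injective (B i j)) = B i j
    apply MonoidAlgebra.mapDomain_comapDomain
    intro g hg
    have := (hB i j g (Finsupp.mem_support_iff.1 hg)).2
    simpa using this
  · ext g
    by_contra h0
    exact h (hB i j g (fun h' => h0 h'.symm)).1.symm

theorem blk_mul [Fintype ι] [Fintype κ] [DecidableEq ι] (B : Matrix ι κ (MonoidAlgebra R G))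
    (B' : Matrix κ ι (MonoidAlgebra R G)) (h : B * B' = 1)
    (hB : ∀ i j g, (B i j).coeff g ≠ 0 → ρ i = σ j ∧ g ∈ C (ρ i)) (a : β) :
    blk ρ σ C B a * blk σ ρ C B' a = 1 := by
  ext1 i k
  rw [Matrix.mul_apply]
  have h1 : ∀ j : {j // σ j = a}, blk ρ σ C B a i j * blk σ ρ C B' a j k
      = MonoidAlgebra.comapDomain (C a).subtype (C a).subtype_injective (B i.1 j.1 * B' j.1 k.1) := by
    intro j
    refine (comap_mul_left _ _ _ _ fun g hg => ?_).symm
    have := (hB i.1 j.1 g hg).2
    rw [i.2] at this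
    simpa using this
  rw [Finset.sum_congr rfl fun j _ => h1 j, ← comap_sum']
  have h2 := congrFun (congrFun h i.1) k.1
  rw [Matrix.mul_apply, ← Fintype.sum_subtype_add_sum_subtype (fun j => σ j = a)] at h2
  have h3 : ∑ j : {j // ¬ σ j = a}, B i.1 j.1 * B' j.1 k.1 = 0 := by
    refine Finset.sum_eq_zero fun j _ => ?_
    have h4 : B i.1 j.1 = 0 := by
      ext g
      by_contra h0
      exact j.2 ((hB i.1 j.1 g h0).1.symm.trans i.2)
    rw [h4, zero_mul]
  rw [h3, add_zero] at h2
  rw [h2, Matrix.one_apply, Matrix.one_apply]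
  simp only [Subtype.ext_iff]
  split_ifs
  · exact comap_one' _ _
  · exact MonoidAlgebra.comapDomain_zero _ _

theorem blk_mul' [Fintype ι] [Fintype κ] [DecidableEq κ] (B : Matrix ι κ (MonoidAlgebra R G))
    (B' : Matrix κ ι (MonoidAlgebra R G)) (h : B' * B = 1)
    (hB : ∀ i j g, (B i j).coeff g ≠ 0 → ρ i = σ j ∧ g ∈ C (ρ i)) (a : β) :
    blk σ ρ C B' a * blk ρ σ C B a = 1 := by
  ext1 i k
  rw [Matrix.mul_apply]
  have h1 : ∀ j : {j // ρ j = a}, blk σ ρ C B' a i j * blk ρ σ C B a j k
      = MonoidAlgebra.comapDomain (C a).subtype (C a).subtype_injective (B' i.1 j.1 * B j.1 k.1) := by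
    intro j
    refine (comap_mul_right _ _ _ _ fun g hg => ?_).symm
    have := (hB j.1 k.1 g hg).2
    rw [j.2] at this
    simpa using this
  rw [Finset.sum_congr rfl fun j _ => h1 j, ← comap_sum']
  have h2 := congrFun (congrFun h i.1) k.1
  rw [Matrix.mul_apply, ← Fintype.sum_subtype_add_sum_subtype (fun j => ρ j = a)] at h2
  have h3 : ∑ j : {j // ¬ ρ j = a}, B' i.1 j.1 * B j.1 k.1 = 0 := by
    refine Finset.sum_eq_zero fun j _ => ?_
    have h4 : B j.1 k.1 = 0 := by
      ext g
      by_contra h0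
      exact j.2 ((hB j.1 k.1 g h0).1.trans k.2)
    rw [h4, mul_zero]
  rw [h3, add_zero] at h2
  rw [h2, Matrix.one_apply, Matrix.one_apply]
  simp only [Subtype.ext_iff]
  split_ifs
  · exact comap_one' _ _
  · exact MonoidAlgebra.comapDomain_zero _ _

theorem blockSum_mul [Fintype κ] (τ : μ → β)
    (θ : ∀ a, Matrix {i // ρ i = a} {j // σ j = a} (MonoidAlgebra R (C a)))
    (η : ∀ a, Matrix {j // σ j = a} {k // τ k = a} (MonoidAlgebra R (C a))) :
    blockSum ρ σ C θ * blockSum σ τ C η = blockSum ρ τ C fun a => θ a * η a := by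
  ext1 i k
  rw [Matrix.mul_apply, ← Fintype.sum_subtype_add_sum_subtype (fun j => σ j = ρ i)]
  have h3 : ∑ j : {j // ¬ σ j = ρ i}, blockSum ρ σ C θ i j.1 * blockSum σ τ C η j.1 k = 0 := by
    refine Finset.sum_eq_zero fun j _ => ?_
    rw [show blockSum ρ σ C θ i j.1 = 0 from dif_neg j.2, zero_mul]
  rw [h3, add_zero]
  have key : ∀ (a : β) (h1 : ρ i = a) (j : {j // σ j = a}),
      blockSum ρ σ C θ i j.1 = MonoidAlgebra.mapDomainRingHom R (C a).subtype (θ a ⟨i, h1⟩ j) := by
    rintro a rfl j
    exact dif_pos j.2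
  have key2 : ∀ (a : β) (j : {j // σ j = a}) (h : τ k = a),
      blockSum σ τ C η j.1 k = MonoidAlgebra.mapDomainRingHom R (C a).subtype (η a j ⟨k, h⟩) := by
    rintro a ⟨j, rfl⟩ h
    exact dif_pos h
  by_cases h : τ k = ρ i
  · rw [show blockSum ρ τ C (fun a => θ a * η a) i k = _ from dif_pos h]
    change _ = MonoidAlgebra.mapDomainRingHom R (C (ρ i)).subtype
      ((θ (ρ i) * η (ρ i)) ⟨i, rfl⟩ ⟨k, h⟩)
    rw [Matrix.mul_apply, map_sum]
    refine Finset.sum_congr rfl fun j _ => ?_
    rw [map_mul, key (ρ i) rfl j, key2 (ρ i) j h]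
  · rw [show blockSum ρ τ C (fun a => θ a * η a) i k = _ from dif_neg h]
    refine Finset.sum_eq_zero fun j _ => ?_
    rw [show blockSum σ τ C η j.1 k = 0 from dif_neg (fun h' => h (h'.trans j.2)), mul_zero]

theorem blockSum_one [DecidableEq ι] :
    blockSum ρ ρ C (fun _ => (1 : Matrix _ _ (MonoidAlgebra R _))) = 1 := by
  ext1 i k
  unfold blockSum
  rw [Matrix.one_apply]
  by_cases h : i = k
  · subst h
    rw [dif_pos rfl, if_pos rfl]
    change MonoidAlgebra.mapDomainRingHom R (C (ρ i)).subtype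
      ((1 : Matrix {k // ρ k = ρ i} {k // ρ k = ρ i} (MonoidAlgebra R (C (ρ i))))
        ⟨i, rfl⟩ ⟨i, rfl⟩) = 1
    rw [Matrix.one_apply_eq]
    exact map_one (MonoidAlgebra.mapDomainRingHom R (C (ρ i)).subtype)
  · rw [if_neg h]
    split_ifs with h2
    · change MonoidAlgebra.mapDomainRingHom R (C (ρ i)).subtype
        ((1 : Matrix {k // ρ k = ρ i} {k // ρ k = ρ i} (MonoidAlgebra R (C (ρ i))))
          ⟨i, rfl⟩ ⟨k, h2⟩) = 0
      rw [Matrix.one_apply_ne (fun h3 => h (congrArg Subtype.val h3))]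
      exact map_zero _
    · rfl

theorem blockSum_supp (θ : ∀ a, Matrix {i // ρ i = a} {j // σ j = a} (MonoidAlgebra R (C a)))
    (i : ι) (j : κ) (g : G) (h : (blockSum ρ σ C θ i j).coeff g ≠ 0) :
    ρ i = σ j ∧ g ∈ C (ρ i) := by
  unfold blockSum at h
  split_ifs at h with h1
  · refine ⟨h1.symm, ?_⟩
    by_contra h2
    apply h
    rw [MonoidAlgebra.coeff_mapDomain]
    apply Finsupp.mapDomain_of_notMem_range
    simpa using h2
  · exact absurd rfl h

end blk

end TH6.PF
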