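import Pool.Agent.TH6.PF.KField
import Pool.Agent.TH6.PF.PGen

set_option autoImplicit false
set_option linter.unusedSectionVars false

/-! Short names for the statements on modules with a thin presentation. -/

namespace TH6.PF

open Matrix TH57.Thr TH6.LF

/-- The module presented by the matrix `A`: row vectors modulo the row space. -/
abbrev Coker {S : Type} [Ring S] {m n : ℕ} (A : Matrix (Fin m) (Fin n) S) : Type :=
  (Fin n → S) ⧸ LinearMap.range A.vecMulLinear

/-- The matrix over `RG` with the same entries. -/
noncomputable abbrev indM {R : Type} [Ring R] {G : Type} [Group G] {V : Subgroup G} {m n : ℕ}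
    (B : Matrix (Fin m) (Fin n) (MonoidAlgebra R V)) :
    Matrix (Fin m) (Fin n) (MonoidAlgebra R G) :=
  B.map (MonoidAlgebra.mapDomainRingHom R V.subtype)

/-- The group `G` is torsion-free. -/
def TF (G : Type) [Group G] : Prop := ∀ g : G, ∀ k : ℕ, 0 < k → g ^ k = 1 → g = 1

/-- `P` is a finite direct sum of modules induced from virtually cyclic (cyclic, if `G` is
torsion-free) subgroups `V b`, which are projective over the group rings of the `V b` if `P` is
projective. -/
def VCSum (R : Type) [Ring R] (G : Type) [Group G] (P : Type) [AddCommGroup P]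
    [Module (MonoidAlgebra R G) P] : Prop :=
  ∃ (k : ℕ) (V : Fin k → Subgroup G) (p q : Fin k → ℕ)
    (B : ∀ b, Matrix (Fin (p b)) (Fin (q b)) (MonoidAlgebra R (V b))),
    (∀ b, IsVC (V b)) ∧ (TF G → ∀ b, IsCyclic (V b)) ∧
    Nonempty (P ≃ₗ[MonoidAlgebra R G] ∀ b, Coker (indM (B b))) ∧
    (Module.Projective (MonoidAlgebra R G) P →
      ∀ b, Module.Projective (MonoidAlgebra R (V b)) (Coker (B b)))

theorem thin_VCSum (R : Type) [Ring R] (G : Type) [Group G]
    (P : Type) [AddCommGroup P] [Module (MonoidAlgebra R G) P]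
    (m n : ℕ) (A : Matrix (Fin m) (Fin n) (MonoidAlgebra R G))
    (e : P ≃ₗ[MonoidAlgebra R G] Coker A)
    (c : ℝ) (hc0 : 0 < c) (hc : c ^ 2 < 9 / 2) (hA : ThinLE A c) : VCSum R G P :=
  thin_modules R G P m n A e c hc0 hc hA

/-- The direct product of `G` with a free abelian group of rank `k`. -/
abbrev GZ (G : Type) (k : ℕ) : Type := G × Multiplicative (Fin k → ℤ)

end TH6.PF
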