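import Pool.Agent.TH6.PF.KMod

set_option autoImplicit false
set_option linter.unusedSectionVars false
set_option linter.style.haveILetI false

/-! Projective modules over the group ring of a torsion-free group over a field with a thin
presentation are free. -/

namespace TH6.PF

open Matrix TH57.Thr TH6.LF

section pid

variable {S : Type} [CommRing S] [IsDomain S] [IsPrincipalIdealRing S]
  {κ ι : Type} [Fintype κ] [DecidableEq κ] [Fintype ι] [DecidableEq ι]

/-- idempotent matrices over a principal ideal domain -/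
theorem idem_pid (E : Matrix κ κ S) (hE : E * E = E) :
    ∃ (n : ℕ) (C : Matrix κ (Fin n) S) (B : Matrix (Fin n) κ S), C * B = E ∧ B * C = 1 := by
  obtain ⟨n, bb⟩ := Submodule.basisOfPid (Pi.basisFun S κ) (LinearMap.range E.vecMulLinear)
  have hmem : ∀ l, E l ∈ LinearMap.range E.vecMulLinear := fun l =>
    ⟨Pi.single l 1, by rw [Matrix.vecMulLinear_apply, Matrix.single_one_vecMul]; rfl⟩
  let C : Matrix κ (Fin n) S := fun l i => bb.repr ⟨E l, hmem l⟩ i
  let B : Matrix (Fin n) κ S := fun i => (bb i : κ → S)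
  refine ⟨n, C, B, ?_, ?_⟩
  · funext l m
    have h1 := congrArg (fun v : LinearMap.range E.vecMulLinear => (v : κ → S) m)
      (bb.sum_repr ⟨E l, hmem l⟩)
    simp only [AddSubmonoidClass.coe_finsetSum, Finset.sum_apply, Submodule.coe_smul,
      Pi.smul_apply, smul_eq_mul] at h1
    rw [Matrix.mul_apply]
    exact h1
  · have h2 : ∀ v : LinearMap.range E.vecMulLinear, (v : κ → S) ᵥ* E = v := by
      rintro ⟨_, x, rfl⟩
      change (x ᵥ* E) ᵥ* E = x ᵥ* E
      rw [Matrix.vecMul_vecMul, hE]
    have h3 : ∀ v : LinearMap.range E.vecMulLinear, ∑ l, (v : κ → S) l • (⟨E l, hmem l⟩ :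
        LinearMap.range E.vecMulLinear) = v := by
      intro v
      apply Subtype.ext
      rw [AddSubmonoidClass.coe_finsetSum]
      conv_rhs => rw [← h2 v]
      rw [Matrix.vecMul_eq_sum]
      rfl
    funext i j
    have h4 := congrArg (fun w => bb.repr w j) (h3 (bb i))
    simp only [map_sum, map_smul, Finsupp.coe_finsetSum, Finset.sum_apply,
      Finsupp.smul_apply, smul_eq_mul, Module.Basis.repr_self] at h4
    rw [Matrix.mul_apply]
    refine h4.trans ?_
    rw [Finsupp.single_apply, Matrix.one_apply]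

end pid

/-- a regular matrix with split complement has a free cokernel -/
theorem free_coker {T : Type} [Ring T] {κ ι b : Type} [Fintype κ] [DecidableEq κ] [Fintype ι]
    [DecidableEq ι] [Fintype b] [DecidableEq b] (B : Matrix ι κ T) (Y : Matrix κ ι T)
    (hY : B * Y * B = B) (C : Matrix κ b T) (D : Matrix b κ T) (h1 : C * D = 1 - Y * B)
    (h2 : D * C = 1) :
    Nonempty (((κ → T) ⧸ LinearMap.range B.vecMulLinear) ≃ₗ[T] (b → T)) := by
  have hBC : B * C = 0 := by
    have e1 : C = (1 - Y * B) * C := by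
      rw [← h1, Matrix.mul_assoc, h2, Matrix.mul_one]
    rw [e1, ← Matrix.mul_assoc, Matrix.mul_sub, Matrix.mul_one, ← Matrix.mul_assoc, hY, sub_self,
      Matrix.zero_mul]
  have hker : LinearMap.ker C.vecMulLinear = LinearMap.range B.vecMulLinear := by
    ext x
    rw [LinearMap.mem_ker, Matrix.vecMulLinear_apply]
    constructor
    · intro hx
      have h3 : x ᵥ* (1 - Y * B) = 0 := by
        rw [← h1, ← Matrix.vecMul_vecMul, hx, Matrix.zero_vecMul]
      rw [Matrix.vecMul_sub, Matrix.vecMul_one, sub_eq_zero] at h3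
      exact ⟨x ᵥ* Y, by rw [Matrix.vecMulLinear_apply, Matrix.vecMul_vecMul, ← h3]⟩
    · rintro ⟨y, rfl⟩
      rw [Matrix.vecMulLinear_apply, Matrix.vecMul_vecMul, hBC, Matrix.vecMul_zero]
  have hsurj : Function.Surjective C.vecMulLinear := fun y =>
    ⟨y ᵥ* D, by rw [Matrix.vecMulLinear_apply, Matrix.vecMul_vecMul, h2, Matrix.vecMul_one]⟩
  exact ⟨(Submodule.quotEquivOfEq _ _ hker.symm).trans
    (LinearMap.quotKerEquivOfSurjective _ hsurj)⟩

/-- regular matrices over a ring isomorphic to a principal ideal domain have free cokernel after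
base change -/
theorem free_of_regular {S S' T : Type} [CommRing S] [IsDomain S] [IsPrincipalIdealRing S]
    [Ring S'] [Ring T] (e : S ≃+* S') (φ : S' →+* T) {κ ι : Type} [Fintype κ] [DecidableEq κ]
    [Fintype ι] [DecidableEq ι] (B : Matrix ι κ S') (Z : Matrix κ ι S') (hZ : B * Z * B = B) :
    ∃ r : ℕ, Nonempty (((κ → T) ⧸ LinearMap.range (B.map φ).vecMulLinear) ≃ₗ[T]
      (Fin r → T)) := by
  set B₀ := B.map e.symm with hB₀
  set Z₀ := Z.map e.symm with hZ₀
  have h1 : B₀ * Z₀ * B₀ = B₀ := by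
    have := congrArg (fun M : Matrix ι κ S' => M.map (e.symm : S' →+* S)) hZ
    simp only [Matrix.map_mul] at this
    exact this
  have hE : (1 - Z₀ * B₀) * (1 - Z₀ * B₀) = 1 - Z₀ * B₀ := by
    have h2 : Z₀ * B₀ * (Z₀ * B₀) = Z₀ * B₀ := by
      rw [Matrix.mul_assoc, ← Matrix.mul_assoc B₀, h1]
    rw [Matrix.mul_sub, Matrix.sub_mul, Matrix.sub_mul, h2, Matrix.mul_one, Matrix.one_mul,
      sub_self, sub_zero, Matrix.mul_one]
  obtain ⟨r, C, D, hCD, hDC⟩ := idem_pid _ hE
  let ψ : S →+* T := φ.comp (e : S →+* S')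
  have hBe : B₀.map ψ = B.map φ := by
    ext1 i j
    change φ (e (e.symm (B i j))) = φ (B i j)
    rw [RingEquiv.apply_symm_apply]
  have hb1 : B.map φ * Z₀.map ψ * B.map φ = B.map φ := by
    rw [← hBe, ← Matrix.map_mul, ← Matrix.map_mul, h1]
  have hb2 : C.map ψ * D.map ψ = 1 - Z₀.map ψ * B.map φ := by
    rw [← hBe, ← Matrix.map_mul, hCD]
    exact map_one_sub_mul' ψ Z₀ B₀
  have hb3 : D.map ψ * C.map ψ = 1 := by
    rw [← Matrix.map_mul, hDC]
    exact Matrix.map_one ψ (map_zero ψ) (map_one ψ)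
  exact ⟨r, free_coker _ _ hb1 _ _ hb2 hb3⟩
where
  map_one_sub_mul' {R S ι κ : Type} [Ring R] [Ring S] [Fintype ι] [DecidableEq κ]
      (φ : R →+* S) (A : Matrix κ ι R) (B : Matrix ι κ R) :
      (1 - A * B).map φ = 1 - A.map φ * B.map φ := by
    rw [← Matrix.map_mul]
    ext1 i j
    change φ ((1 : Matrix κ κ R) i j - (A * B) i j) = (1 : Matrix κ κ S) i j - φ ((A * B) i j)
    rw [map_sub]
    congr 1
    rw [Matrix.one_apply, Matrix.one_apply]
    split_ifs <;> simp

section laurent

/-- the Laurent polynomial ring over a field is a principal ideal ring -/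
theorem pir_laurent (K : Type) [Field K] :
    IsPrincipalIdealRing (MonoidAlgebra K (Multiplicative ℤ)) := by
  have h1 : IsPrincipalIdealRing (LaurentPolynomial K) := by
    constructor
    intro I
    have h2 := IsLocalization.map_under (Submonoid.powers (Polynomial.X : Polynomial K))
      (LaurentPolynomial K) I
    obtain ⟨a, ha⟩ := (IsPrincipalIdealRing.principal (Ideal.under (Polynomial K) I)).principal
    refine ⟨algebraMap (Polynomial K) (LaurentPolynomial K) a, ?_⟩
    rw [← h2]
    have h3 : Ideal.under (Polynomial K) I = Ideal.span {a} := ha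
    rw [h3, Ideal.map_span, Set.image_singleton]
  exact IsPrincipalIdealRing.of_surjective (AddMonoidAlgebra.toMultiplicative K ℤ).toRingHom
    (AddMonoidAlgebra.toMultiplicative K ℤ).surjective

theorem pid_of_cyclic (K : Type) [Field K] {V : Type} [Group V] (hV : IsCyclic V)
    (htf : ∀ g : V, ∀ k : ℕ, 0 < k → g ^ k = 1 → g = 1) :
    ∃ (S : Type) (_ : CommRing S) (_ : IsDomain S) (_ : IsPrincipalIdealRing S),
      Nonempty (S ≃+* MonoidAlgebra K V) := by
  rcases subsingleton_or_nontrivial V with h | h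
  · exact ⟨K, inferInstance, inferInstance, inferInstance,
      ⟨(MonoidAlgebra.uniqueRingEquiv V).symm⟩⟩
  · have hinf : Infinite V := by
      by_contra hfin
      rw [not_infinite_iff_finite] at hfin
      obtain ⟨g, hg⟩ := exists_ne (1 : V)
      obtain ⟨n, hn, hgn⟩ := isOfFinOrder_iff_pow_eq_one.1 (isOfFinOrder_of_finite g)
      exact hg (htf g n hn hgn)
    exact ⟨MonoidAlgebra K (Multiplicative ℤ), inferInstance, inferInstance, pir_laurent K,
      ⟨MonoidAlgebra.mapDomainRingEquiv K intCyclicMulEquiv⟩⟩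

end laurent

/-- **Projective modules with a thin presentation over a field.** -/
theorem thin_free (K : Type) [Field K] (G : Type) [Group G]
    (htf : ∀ g : G, ∀ k : ℕ, 0 < k → g ^ k = 1 → g = 1)
    (P : Type) [AddCommGroup P] [Module (MonoidAlgebra K G) P]
    (hP : Module.Projective (MonoidAlgebra K G) P)
    (m n : ℕ) (A : Matrix (Fin m) (Fin n) (MonoidAlgebra K G))
    (e : P ≃ₗ[MonoidAlgebra K G]
      ((Fin n → MonoidAlgebra K G) ⧸ LinearMap.range A.vecMulLinear))
    (c : ℝ) (hc0 : 0 < c) (hc : c ^ 2 < 9 / 2) (hA : ThinLE A c) :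
    Module.Free (MonoidAlgebra K G) P := by
  classical
  obtain ⟨k, V, p, q, B, -, hcyc, ⟨φ⟩, hproj⟩ := thin_modules K G P m n A e c hc0 hc hA
  have hreg : ∀ b, ∃ r : ℕ, Nonempty (((Fin (q b) → MonoidAlgebra K G) ⧸
      LinearMap.range ((B b).map
        (MonoidAlgebra.mapDomainRingHom K (V b).subtype)).vecMulLinear)
        ≃ₗ[MonoidAlgebra K G] (Fin r → MonoidAlgebra K G)) := by
    intro b
    obtain ⟨Y, hY⟩ := regular_of_projective (B b) _ (hproj hP b) (LinearEquiv.refl _ _)
    obtain ⟨S, i1, i2, i3, ⟨es⟩⟩ := pid_of_cyclic K (hcyc htf b) (fun g n hn h => Subtype.ext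
      (htf g.1 n hn (by simpa using congrArg Subtype.val h)))
    exact free_of_regular es (MonoidAlgebra.mapDomainRingHom K (V b).subtype) (B b) Y hY
  choose r hr using hreg
  have φ' := φ.trans (LinearEquiv.piCongrRight fun b => (hr b).some)
  exact Module.Free.of_equiv φ'.symm

end TH6.PF
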