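import Pool.Agent.TH6.PF.PMod

set_option autoImplicit false
set_option linter.unusedSectionVars false
set_option linter.style.haveILetI false

/-! Every invertible matrix over the group ring of any ring has, up to stabilisation and
commutators, a representative whose support pattern has operator norm close to `3 / √2`, and one
whose difference to the identity matrix has a support pattern of norm at most `√2`. -/

namespace TH6.PF

open Matrix TH57.Thr TH6.LF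

variable {R : Type} [Ring R] {G : Type} [Group G]

theorem ip_blocks {ι q : Type} [Fintype ι] [Fintype q] (X : Matrix ι q (MonoidAlgebra R G))
    (Y : Matrix q ι (MonoidAlgebra R G)) (Z : Matrix q q (MonoidAlgebra R G))
    (v v' : ι ⊕ q → MonoidAlgebra ℝ G) :
    ip (v ᵥ* toReal (pat (fromBlocks 0 X Y Z))) v'
      = ip ((v ∘ Sum.inl) ᵥ* tp X) (v' ∘ Sum.inr) + ip ((v ∘ Sum.inr) ᵥ* tp Z) (v' ∘ Sum.inr)
        + ip ((v ∘ Sum.inr) ᵥ* tp Y) (v' ∘ Sum.inl) := by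
  have h1 : v ᵥ* toReal (pat (fromBlocks 0 X Y Z))
      = Sum.elim ((v ∘ Sum.inr) ᵥ* tp Y)
        ((v ∘ Sum.inl) ᵥ* tp X + (v ∘ Sum.inr) ᵥ* tp Z) := by
    rw [toReal_pat, tp_fromBlocks, tp_zero]
    conv_lhs => rw [← Sum.elim_comp_inl_inr v]
    rw [Matrix.vecMul_fromBlocks]
    simp
  rw [h1, ip_elim]
  have h2 : Sum.elim ((v ∘ Sum.inr) ᵥ* tp Y)
        ((v ∘ Sum.inl) ᵥ* tp X + (v ∘ Sum.inr) ᵥ* tp Z) ∘ Sum.inl
        = (v ∘ Sum.inr) ᵥ* tp Y := rfl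
  have h3 : Sum.elim ((v ∘ Sum.inr) ᵥ* tp Y)
        ((v ∘ Sum.inl) ᵥ* tp X + (v ∘ Sum.inr) ᵥ* tp Z) ∘ Sum.inr
        = (v ∘ Sum.inl) ᵥ* tp X + (v ∘ Sum.inr) ᵥ* tp Z := rfl
  rw [h2, h3, ip_add_left]
  ring

/-- the factorisation of a linear model -/
theorem model_fact {S : Type} [Ring S] {ι q : Type} [Fintype ι] [DecidableEq ι] [Fintype q]
    [DecidableEq q] (h3 : 3 ≤ Fintype.card q) (A : (Matrix ι ι S)ˣ) (X : Matrix ι q S)
    (Y : Matrix q ι S) (Z W : Matrix q q S) (hZ : Z ∈ El (R := S) q) (hZW : Z * W = 1) :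
    ∃ C : (Matrix (ι ⊕ q) (ι ⊕ q) S)ˣ, C ∈ commutator (Matrix (ι ⊕ q) (ι ⊕ q) S)ˣ ∧
      fromBlocks A.val 0 0 1 * C.val = fromBlocks (A.val + X * W * Y) X Y Z := by
  have hcard : 3 ≤ Fintype.card (ι ⊕ q) := by rw [Fintype.card_sum]; omega
  have hL : (fromBlocks 1 X 0 Z : Matrix (ι ⊕ q) (ι ⊕ q) S) ∈ El (R := S) (ι ⊕ q) := by
    have e : fromBlocks 1 X 0 Z = fromBlocks (1 : Matrix ι ι S) 0 0 Z
        * (1 + fromBlocks 0 X 0 0) := by
      rw [← Matrix.fromBlocks_one, Matrix.fromBlocks_add, Matrix.fromBlocks_multiply]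
      simp
    rw [e]
    refine mul_mem (el_ext2 Z hZ) (el_unip (Finset.univ.filter fun v : ι ⊕ q => v.isLeft) _ ?_)
    rintro (i | i) (j | j) h <;> simp at h ⊢
  have hU : (1 + fromBlocks 0 0 (W * Y) 0 : Matrix (ι ⊕ q) (ι ⊕ q) S) ∈ El (R := S) (ι ⊕ q) := by
    refine el_unip (Finset.univ.filter fun v : ι ⊕ q => v.isRight) _ ?_
    rintro (i | i) (j | j) h <;> simp at h ⊢
  obtain ⟨L, hL1, hL2⟩ := comm_of_El hcard _ hL
  obtain ⟨U, hU1, hU2⟩ := comm_of_El hcard _ hU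
  set D : (Matrix (ι ⊕ q) (ι ⊕ q) S)ˣ := Units.map (stm q) A with hD
  have hDv : D.val = fromBlocks A.val 0 0 1 := rfl
  refine ⟨D⁻¹ * L * D * U, mul_mem ?_ hU2, ?_⟩
  · have h := (inferInstance : (commutator (Matrix (ι ⊕ q) (ι ⊕ q) S)ˣ).Normal).conj_mem
      L hL2 D⁻¹
    rwa [inv_inv] at h
  · have e1 : D.val * (D⁻¹ * L * D * U).val = L.val * D.val * U.val := by
      rw [← Units.val_mul, ← Units.val_mul, ← Units.val_mul]
      congr 1
      group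
    rw [← hDv, e1, hL1, hDv, hU1, ← Matrix.fromBlocks_one, Matrix.fromBlocks_add,
      Matrix.fromBlocks_multiply, Matrix.fromBlocks_multiply]
    congr 1
    · simp [Matrix.mul_assoc]
    · simp
    · simp only [zero_add, Matrix.zero_mul, Matrix.mul_one, Matrix.mul_zero, add_zero,
        ← Matrix.mul_assoc, hZW, Matrix.one_mul]
    · simp

theorem thin_red {ι : Type} [Fintype ι] [DecidableEq ι] [Nontrivial R]
    (A : (Matrix ι ι (MonoidAlgebra R G))ˣ) (c : ℝ) (hc : 9 / 2 < c ^ 2) :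
    ∃ (q : Type) (_ : Fintype q) (_ : DecidableEq q)
      (C : (Matrix (ι ⊕ q) (ι ⊕ q) (MonoidAlgebra R G))ˣ),
      C ∈ commutator (Matrix (ι ⊕ q) (ι ⊕ q) (MonoidAlgebra R G))ˣ ∧
      ThinLE (fromBlocks A.val 0 0 1 * C.val) c := by
  have hr0 : 0 < Real.sqrt 2 := Real.sqrt_pos.2 two_pos
  have hr : Real.sqrt 2 ^ 2 = 2 := Real.sq_sqrt two_pos.le
  set r := Real.sqrt 2 with hrd
  have hc0 : 0 < |c| := by
    rw [abs_pos]; rintro rfl; norm_num at hc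
  have hγ : 3 < |c| * r := by
    have h1 : 3 ^ 2 < (|c| * r) ^ 2 := by
      rw [mul_pow, sq_abs, hr]; linarith
    exact lt_of_pow_lt_pow_left₀ 2 (by positivity) h1
  obtain ⟨q, i1, i2, X, Y, Z, W, hZ, hZW, hWZ, hB, hcard, hN⟩ := mod_all hr0 hr hγ A.val
  obtain ⟨C, hC1, hC2⟩ := model_fact hcard A X Y Z W hZ hZW
  refine ⟨q, i1, i2, C, hC1, ?_⟩
  have h0 : A.val + X * W * Y = 0 := by rw [← hB]; simp
  rw [hC2, h0]
  have hNc : NormLE (pat (fromBlocks 0 X Y Z)) |c| := by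
    refine normLE_of_ip _ |c| hc0 fun v v' => ?_
    rw [ip_blocks]
    have h1 := hN (v ∘ Sum.inl) (v' ∘ Sum.inl) (v' ∘ Sum.inr) (v ∘ Sum.inr)
    have n1 := normSq_nonneg (v ∘ Sum.inl)
    have n2 := normSq_nonneg (v' ∘ Sum.inl)
    refine le_of_mul_le_mul_left ?_ hr0
    rw [normSq_sum v, normSq_sum v']
    nlinarith
  intro v
  have := hNc v
  rwa [sq_abs] at this

theorem thin_dist {ι : Type} [Fintype ι] [DecidableEq ι] [Nontrivial R]
    (A : (Matrix ι ι (MonoidAlgebra R G))ˣ) :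
    ∃ (q : Type) (_ : Fintype q) (_ : DecidableEq q)
      (C : (Matrix (ι ⊕ q) (ι ⊕ q) (MonoidAlgebra R G))ˣ),
      C ∈ commutator (Matrix (ι ⊕ q) (ι ⊕ q) (MonoidAlgebra R G))ˣ ∧
      ThinLE (fromBlocks A.val 0 0 1 * C.val - 1) (Real.sqrt 2) := by
  obtain ⟨q, i1, i2, X, Y, Z, W, hZ, hZW, hWZ, hB, hcard, hN⟩ := modD_all (A.val - 1)
  obtain ⟨C, hC1, hC2⟩ := model_fact hcard A X Y (1 + Z) W hZ hZW
  refine ⟨q, i1, i2, C, hC1, ?_⟩
  have h0 : A.val + X * W * Y = 1 := by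
    have : X * W * Y = -(A.val - 1) := by rw [← hB]; simp
    rw [this]; abel
  have h1 : (fromBlocks 1 X Y (1 + Z) - 1 : Matrix (ι ⊕ q) (ι ⊕ q) (MonoidAlgebra R G))
      = fromBlocks 0 X Y Z := by
    have h2 : (1 : Matrix (ι ⊕ q) (ι ⊕ q) (MonoidAlgebra R G)) = fromBlocks 1 0 0 1 :=
      Matrix.fromBlocks_one.symm
    rw [sub_eq_iff_eq_add, h2, Matrix.fromBlocks_add]
    simp [add_comm]
  rw [hC2, h0, h1]
  refine normLE_of_ip _ _ sqrt2_pos fun v v' => ?_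
  rw [ip_blocks]
  have h2 := hN (v ∘ Sum.inl) (v' ∘ Sum.inl) (v ∘ Sum.inr) (v' ∘ Sum.inr)
  have n1 := normSq_nonneg (v ∘ Sum.inl)
  have n2 := normSq_nonneg (v' ∘ Sum.inl)
  refine le_of_mul_le_mul_left ?_ sqrt2_pos
  rw [← mul_assoc (Real.sqrt 2) (Real.sqrt 2), Real.mul_self_sqrt two_pos.le, normSq_sum v,
    normSq_sum v']
  linarith

theorem thinLE_re {κ μ : Type} [Fintype κ] [DecidableEq κ] [Fintype μ] [DecidableEq μ]
    (e : μ ≃ κ) (A : Matrix κ κ (MonoidAlgebra R G)) (c : ℝ) (hA : ThinLE A c) :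
    ThinLE (A.submatrix e e) c := by
  have := NormLE_re e (pat A) c hA
  exact this

theorem thinLE_trivial [Subsingleton R] {κ μ : Type} [Fintype κ] [Fintype μ]
    (A : Matrix κ μ (MonoidAlgebra R G)) (c : ℝ) : ThinLE A c := by
  have h0 : A = 0 := by
    ext i j g
    exact Subsingleton.elim _ _
  rw [h0]
  intro x
  rw [toReal_pat, tp_zero, Matrix.vecMul_zero]
  have : normSq (0 : μ → MonoidAlgebra ℝ G) = 0 := by
    rw [normSq_eq]
    exact Finset.sum_eq_zero fun i _ => n1_zero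
  rw [this]
  exact mul_nonneg (sq_nonneg _) (normSq_nonneg _)

theorem to_fin {n : ℕ} (A : Matrix (Fin n) (Fin n) (MonoidAlgebra R G)) (c : ℝ)
    (B : (m : Type) → [DecidableEq m] → Matrix (Fin n ⊕ m) (Fin n ⊕ m) (MonoidAlgebra R G))
    (hB : ∀ (m m' : Type) [DecidableEq m] [DecidableEq m'] (e : m' ≃ m),
      (B m).submatrix (Equiv.sumCongr (Equiv.refl _) e) (Equiv.sumCongr (Equiv.refl _) e) = B m')
    (h : ∃ (q : Type) (_ : Fintype q) (_ : DecidableEq q)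
      (C : (Matrix (Fin n ⊕ q) (Fin n ⊕ q) (MonoidAlgebra R G))ˣ),
      C ∈ commutator (Matrix (Fin n ⊕ q) (Fin n ⊕ q) (MonoidAlgebra R G))ˣ ∧
      ThinLE (fromBlocks A 0 0 1 * C.val - B q) c) :
    ∃ (m : ℕ) (C : (Matrix (Fin n ⊕ Fin m) (Fin n ⊕ Fin m) (MonoidAlgebra R G))ˣ),
      C ∈ commutator (Matrix (Fin n ⊕ Fin m) (Fin n ⊕ Fin m) (MonoidAlgebra R G))ˣ ∧
      ThinLE (fromBlocks A 0 0 1 * C.val - B (Fin m)) c := by
  obtain ⟨q, iq1, iq2, C, hC, hN⟩ := h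
  let e : Fin (Fintype.card q) ≃ q := (Fintype.equivFin q).symm
  let e' : Fin n ⊕ Fin (Fintype.card q) ≃ Fin n ⊕ q := Equiv.sumCongr (Equiv.refl _) e
  refine ⟨Fintype.card q, Units.map (re e') C, comm_re e' C hC, ?_⟩
  have h1 := thinLE_re e' _ c hN
  have h2 : (Units.map (re e') C).val = C.val.submatrix e' e' := rfl
  have h3 : (fromBlocks A 0 0 1 : Matrix (Fin n ⊕ Fin (Fintype.card q)) _ (MonoidAlgebra R G))
      = (fromBlocks A 0 0 1 : Matrix (Fin n ⊕ q) _ (MonoidAlgebra R G)).submatrix e' e' := by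
    ext1 i j
    rcases i with i | i <;> rcases j with j | j <;> simp [e', Matrix.one_apply]
  rw [h2, h3, Matrix.submatrix_mul_equiv, ← hB q _ e]
  exact h1

theorem thin_red_fin {n : ℕ} (A : (Matrix (Fin n) (Fin n) (MonoidAlgebra R G))ˣ) (c : ℝ)
    (hc : 9 / 2 < c ^ 2) :
    ∃ (m : ℕ) (C : (Matrix (Fin n ⊕ Fin m) (Fin n ⊕ Fin m) (MonoidAlgebra R G))ˣ),
      C ∈ commutator (Matrix (Fin n ⊕ Fin m) (Fin n ⊕ Fin m) (MonoidAlgebra R G))ˣ ∧
      ThinLE (fromBlocks A.val 0 0 1 * C.val) c := by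
  rcases subsingleton_or_nontrivial R with h | h
  · exact ⟨0, 1, one_mem _, thinLE_trivial _ _⟩
  · obtain ⟨m, C, h1, h2⟩ := to_fin A.val c (fun _ _ => 0) (fun _ _ _ _ _ => rfl) (by
      obtain ⟨q, i1, i2, C, h1, h2⟩ := thin_red A c hc
      exact ⟨q, i1, i2, C, h1, by rwa [sub_zero]⟩)
    exact ⟨m, C, h1, by rwa [sub_zero] at h2⟩

theorem thin_dist_fin {n : ℕ} (A : (Matrix (Fin n) (Fin n) (MonoidAlgebra R G))ˣ) :
    ∃ (m : ℕ) (C : (Matrix (Fin n ⊕ Fin m) (Fin n ⊕ Fin m) (MonoidAlgebra R G))ˣ),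
      C ∈ commutator (Matrix (Fin n ⊕ Fin m) (Fin n ⊕ Fin m) (MonoidAlgebra R G))ˣ ∧
      ThinLE (fromBlocks A.val 0 0 1 * C.val - 1) (Real.sqrt 2) := by
  rcases subsingleton_or_nontrivial R with h | h
  · exact ⟨0, 1, one_mem _, thinLE_trivial _ _⟩
  · exact to_fin A.val _ (fun _ _ => 1) (fun m m' _ _ e => Matrix.submatrix_one_equiv _)
      (thin_dist A)

end TH6.PF
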