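import Pool.Agent.TH6.PF.PMod
import Pool.Agent.TH6.PF.PK
import Pool.Agent.TH6.LF.Sym
import Pool.Agent.TH57.Thr.VCM
import Pool.Agent.TH57.Thr.KRed

set_option autoImplicit false
set_option linter.unusedSectionVars false
set_option linter.style.haveILetI false

/-! Modules over the group ring of any ring with a presentation matrix of thin support pattern. -/

namespace TH6.PF

open Matrix TH57.Thr TH6.LF

section below

/-- **Modules with a thin presentation.** -/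
theorem thin_modules (R : Type) [Ring R] (G : Type) [Group G]
    (P : Type) [AddCommGroup P] [Module (MonoidAlgebra R G) P]
    (m n : ℕ) (A : Matrix (Fin m) (Fin n) (MonoidAlgebra R G))
    (e : P ≃ₗ[MonoidAlgebra R G]
      ((Fin n → MonoidAlgebra R G) ⧸ LinearMap.range A.vecMulLinear))
    (c : ℝ) (hc0 : 0 < c) (hc : c ^ 2 < 9 / 2) (hA : ThinLE A c) :
    ∃ (k : ℕ) (V : Fin k → Subgroup G) (p q : Fin k → ℕ)
      (B : ∀ b, Matrix (Fin (p b)) (Fin (q b)) (MonoidAlgebra R (V b))),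
      (∀ b, ∃ s : V b, (Subgroup.zpowers s).FiniteIndex) ∧
      ((∀ g : G, ∀ k : ℕ, 0 < k → g ^ k = 1 → g = 1) → ∀ b, IsCyclic (V b)) ∧
      Nonempty (P ≃ₗ[MonoidAlgebra R G] ∀ b, ((Fin (q b) → MonoidAlgebra R G) ⧸
        LinearMap.range ((B b).map
          (MonoidAlgebra.mapDomainRingHom R (V b).subtype)).vecMulLinear)) ∧
      (Module.Projective (MonoidAlgebra R G) P →
        ∀ b, Module.Projective (MonoidAlgebra R (V b)) ((Fin (q b) → MonoidAlgebra R (V b)) ⧸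
          LinearMap.range (B b).vecMulLinear)) := by
  classical
  obtain ⟨ρ, u, C, hC, hst⟩ := structure_vc (pat A) c hc0 hc hA
  let r : Fin m → Fin (m + n) := fun i => finSumFinEquiv (ρ (Sum.inl i))
  let s : Fin n → Fin (m + n) := fun j => finSumFinEquiv (ρ (Sum.inr j))
  let V : Fin (m + n) → Subgroup G := fun b => C (finSumFinEquiv.symm b)
  let u₁ : Fin m → G := fun i => u (Sum.inl i)
  let w₁ : Fin n → G := fun j => u (Sum.inr j)
  have h : ∀ i j g, (A i j).coeff g ≠ 0 → r i = s j ∧ u₁ i * g * (w₁ j)⁻¹ ∈ V (r i) := by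
    intro i j g hg
    have h1 := hst i j g ((pat_ne _ _ _ _).2 hg)
    refine ⟨congrArg _ h1.1, ?_⟩
    simp only [V, r, Equiv.symm_apply_apply]
    exact h1.2
  let er : ∀ b, Fin (Fintype.card {i // r i = b}) ≃ {i // r i = b} := fun b =>
    (Fintype.equivFin _).symm
  let es : ∀ b, Fin (Fintype.card {j // s j = b}) ≃ {j // s j = b} := fun b =>
    (Fintype.equivFin _).symm
  refine ⟨m + n, V, fun b => Fintype.card {i // r i = b}, fun b => Fintype.card {j // s j = b},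
    fun b => (blkm A r s V u₁ w₁ b).submatrix (er b) (es b), fun b => hC _, ?_, ?_, ?_⟩
  · intro htf b
    obtain ⟨t, ht⟩ := hC (finSumFinEquiv.symm b)
    exact isCyclic_of_finiteIndex (S := V b) (fun g n hn h => Subtype.ext
      (htf g.1 n hn (by simpa using congrArg Subtype.val h))) (Subgroup.zpowers t)
      inferInstance ht
  · obtain ⟨φ⟩ := coker_pattern A r s V u₁ w₁ h
    have h2 : ∀ b, Nonempty (((({j // s j = b} → MonoidAlgebra R G) ⧸
        LinearMap.range (TH57.Thr.ind (blkm A r s V u₁ w₁ b)).vecMulLinear)) ≃ₗ[MonoidAlgebra R G]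
        ((Fin (Fintype.card {j // s j = b}) → MonoidAlgebra R G) ⧸
        LinearMap.range (((blkm A r s V u₁ w₁ b).submatrix (er b) (es b)).map
          (MonoidAlgebra.mapDomainRingHom R (V b).subtype)).vecMulLinear)) := fun b =>
      coker_reindex (TH57.Thr.ind (blkm A r s V u₁ w₁ b)) (er b) (es b)
    exact ⟨(e.trans φ).trans (LinearEquiv.piCongrRight fun b => (h2 b).some)⟩
  · intro hP b
    obtain ⟨Y, hY⟩ := regular_of_projective A P hP e
    obtain ⟨Z, hZ⟩ := regular_blocks A r s V u₁ w₁ h Y hY b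
    obtain ⟨ψ⟩ := coker_reindex (blkm A r s V u₁ w₁ b) (er b) (es b)
    haveI := projective_of_regular _ Z hZ
    exact Module.Projective.of_equiv ψ

end below

section red

/-- the cokernel of a linear model -/
theorem coker_model {S : Type} [Ring S] {p n q : Type} [Fintype p] [Fintype n] [Fintype q]
    [DecidableEq p] [DecidableEq n] [DecidableEq q] (A : Matrix p n S) (X : Matrix p q S)
    (Y : Matrix q n S) (Z W : Matrix q q S) (hZW : Z * W = 1) (hWZ : W * Z = 1)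
    (hA : -(X * W * Y) = A) :
    Nonempty (((n → S) ⧸ LinearMap.range A.vecMulLinear) ≃ₗ[S]
      ((n ⊕ q → S) ⧸ LinearMap.range (fromBlocks 0 X Y Z).vecMulLinear)) := by
  let T := LinearMap.range A.vecMulLinear
  let Φ : (n ⊕ q → S) →ₗ[S] (n → S) :=
    { toFun := fun v => v ∘ Sum.inl - (v ∘ Sum.inr) ᵥ* (W * Y)
      map_add' := fun x y => by
        change (x ∘ Sum.inl + y ∘ Sum.inl) - (x ∘ Sum.inr + y ∘ Sum.inr) ᵥ* (W * Y) = _
        rw [Matrix.add_vecMul]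
        abel
      map_smul' := fun a x => by
        change (a • (x ∘ Sum.inl)) - (a • (x ∘ Sum.inr)) ᵥ* (W * Y) = _
        rw [Matrix.smul_vecMul, ← smul_sub]
        rfl }
  have hΦ : ∀ v, Φ v = v ∘ Sum.inl - (v ∘ Sum.inr) ᵥ* (W * Y) := fun _ => rfl
  let Ψ : (n ⊕ q → S) →ₗ[S] ((n → S) ⧸ T) := T.mkQ ∘ₗ Φ
  have hΨ : ∀ v, Ψ v = T.mkQ (Φ v) := fun _ => rfl
  have hM : ∀ x : p ⊕ q → S, x ᵥ* (fromBlocks (0 : Matrix p n S) X Y Z)
      = Sum.elim ((x ∘ Sum.inr) ᵥ* Y) ((x ∘ Sum.inl) ᵥ* X + (x ∘ Sum.inr) ᵥ* Z) := by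
    intro x
    conv_lhs => rw [← Sum.elim_comp_inl_inr x]
    rw [Matrix.vecMul_fromBlocks]
    simp
  have hsurj : Function.Surjective Ψ := by
    intro a
    obtain ⟨a, rfl⟩ := Submodule.mkQ_surjective _ a
    refine ⟨Sum.elim a 0, ?_⟩
    rw [hΨ, hΦ, Sum.elim_comp_inl, Sum.elim_comp_inr, Matrix.zero_vecMul, sub_zero]
  have hXWY : X * (W * Y) = -A := by rw [← hA, neg_neg, Matrix.mul_assoc]
  have hker : LinearMap.ker Ψ = LinearMap.range (fromBlocks 0 X Y Z).vecMulLinear := by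
    ext v
    rw [LinearMap.mem_ker, hΨ]
    constructor
    · intro h
      rw [← LinearMap.mem_ker, Submodule.ker_mkQ] at h
      obtain ⟨a, ha⟩ := h
      rw [Matrix.vecMulLinear_apply, hΦ] at ha
      set b := (v ∘ Sum.inr - a ᵥ* X) ᵥ* W with hb
      refine ⟨Sum.elim a b, ?_⟩
      rw [Matrix.vecMulLinear_apply, hM, Sum.elim_comp_inl, Sum.elim_comp_inr]
      have h1 : b ᵥ* Z = v ∘ Sum.inr - a ᵥ* X := by
        rw [hb, Matrix.vecMul_vecMul, hWZ, Matrix.vecMul_one]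
      have h2 : b ᵥ* Y = v ∘ Sum.inl := by
        rw [hb, Matrix.vecMul_vecMul, Matrix.sub_vecMul, Matrix.vecMul_vecMul, hXWY,
          Matrix.vecMul_neg, ha]
        abel
      rw [h1, h2, add_sub_cancel, Sum.elim_comp_inl_inr]
    · rintro ⟨x, rfl⟩
      rw [Matrix.vecMulLinear_apply, hM, hΦ, Sum.elim_comp_inl, Sum.elim_comp_inr,
        ← LinearMap.mem_ker, Submodule.ker_mkQ]
      refine ⟨x ∘ Sum.inl, ?_⟩
      rw [Matrix.vecMulLinear_apply, Matrix.add_vecMul, Matrix.vecMul_vecMul, Matrix.vecMul_vecMul,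
        hXWY, ← Matrix.mul_assoc Z, hZW, Matrix.one_mul, Matrix.vecMul_neg]
      abel
  exact ⟨((Submodule.quotEquivOfEq _ _ hker.symm).trans
      (LinearMap.quotKerEquivOfSurjective Ψ hsurj)).symm⟩

theorem ip_blocks' {R : Type} [Ring R] {G : Type} [Group G] {p n q : Type} [Fintype p] [Fintype n]
    [Fintype q] (X : Matrix p q (MonoidAlgebra R G))
    (Y : Matrix q n (MonoidAlgebra R G)) (Z : Matrix q q (MonoidAlgebra R G))
    (v : p ⊕ q → MonoidAlgebra ℝ G) (v' : n ⊕ q → MonoidAlgebra ℝ G) :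
    ip (v ᵥ* toReal (pat (fromBlocks 0 X Y Z))) v'
      = ip ((v ∘ Sum.inl) ᵥ* tp X) (v' ∘ Sum.inr) + ip ((v ∘ Sum.inr) ᵥ* tp Z) (v' ∘ Sum.inr)
        + ip ((v ∘ Sum.inr) ᵥ* tp Y) (v' ∘ Sum.inl) := by
  have h1 : v ᵥ* toReal (pat (fromBlocks 0 X Y Z))
      = Sum.elim ((v ∘ Sum.inr) ᵥ* tp Y)
        ((v ∘ Sum.inl) ᵥ* tp X + (v ∘ Sum.inr) ᵥ* tp Z) := by
    rw [toReal_pat, tp_fromBlocks, tp_zero]
    conv_lhs => rw [← Sum.elim_comp_inl_inr v]
    rw [Matrix.vecMul_fromBlocks]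
    simp
  rw [h1, ip_elim]
  have h2 : Sum.elim ((v ∘ Sum.inr) ᵥ* tp Y)
        ((v ∘ Sum.inl) ᵥ* tp X + (v ∘ Sum.inr) ᵥ* tp Z) ∘ Sum.inl
        = (v ∘ Sum.inr) ᵥ* tp Y := rfl
  have h3 : Sum.elim ((v ∘ Sum.inr) ᵥ* tp Y)
        ((v ∘ Sum.inl) ᵥ* tp X + (v ∘ Sum.inr) ᵥ* tp Z) ∘ Sum.inr
        = (v ∘ Sum.inl) ᵥ* tp X + (v ∘ Sum.inr) ᵥ* tp Z := rfl
  rw [h2, h3, ip_add_left]
  ring

theorem normLE_of_ip' {G : Type} [Group G] {ι κ : Type} [Fintype ι] [Fintype κ]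
    (A : Matrix ι κ (MonoidAlgebra ℤ G)) (c : ℝ) (hc : 0 < c)
    (h : ∀ (v : ι → MonoidAlgebra ℝ G) (v' : κ → MonoidAlgebra ℝ G),
      2 * |ip (v ᵥ* toReal A) v'| ≤ c * (normSq v + normSq v')) : NormLE A c := by
  intro v
  have h1 := h v (c⁻¹ • (v ᵥ* toReal A))
  rw [ip_smul_right, ip_self, ← ip_self (c⁻¹ • (v ᵥ* toReal A)), ip_smul_left, ip_smul_right,
    ip_self, abs_of_nonneg (mul_nonneg (inv_nonneg.2 hc.le) (normSq_nonneg _))] at h1
  have h2 : c * (normSq v + c⁻¹ * (c⁻¹ * normSq (v ᵥ* toReal A)))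
      = c * normSq v + c⁻¹ * normSq (v ᵥ* toReal A) := by
    field_simp
  rw [h2] at h1
  have h3 : c⁻¹ * normSq (v ᵥ* toReal A) ≤ c * normSq v := by linarith
  have h4 := mul_le_mul_of_nonneg_left h3 hc.le
  have h5 : c * (c⁻¹ * normSq (v ᵥ* toReal A)) = normSq (v ᵥ* toReal A) := by
    field_simp
  rw [h5] at h4
  calc _ ≤ _ := h4
    _ = _ := by ring

theorem thin_pres {R : Type} [Ring R] {G : Type} [Group G] (P : Type) [AddCommGroup P]
    [Module (MonoidAlgebra R G) P]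
    (hP : Module.FinitePresentation (MonoidAlgebra R G) P) (c : ℝ) (hc : 9 / 2 < c ^ 2) :
    ∃ (m n : ℕ) (A : Matrix (Fin m) (Fin n) (MonoidAlgebra R G)), ThinLE A c ∧
      Nonempty (P ≃ₗ[MonoidAlgebra R G]
        ((Fin n → MonoidAlgebra R G) ⧸ LinearMap.range A.vecMulLinear)) := by
  obtain ⟨n, Ks, e0, hK⟩ := Module.FinitePresentation.exists_fin (MonoidAlgebra R G) P
  obtain ⟨m, g, hg⟩ := Ks.fg_iff_exists_fin_linearMap.1 hK
  set A : Matrix (Fin m) (Fin n) (MonoidAlgebra R G) := LinearMap.toMatrixRight' g with hA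
  have hgA : A.vecMulLinear = g := LinearMap.toMatrixRight'.symm_apply_apply g
  have hKS : Ks = LinearMap.range A.vecMulLinear := by rw [← hg, ← hgA]
  rcases subsingleton_or_nontrivial R with hR | hR
  · exact ⟨m, n, A, thinLE_trivial _ _, ⟨e0.trans (Submodule.quotEquivOfEq _ _ hKS)⟩⟩
  have hr0 : 0 < Real.sqrt 2 := Real.sqrt_pos.2 two_pos
  have hr : Real.sqrt 2 ^ 2 = 2 := Real.sq_sqrt two_pos.le
  set r := Real.sqrt 2 with hrd
  have hc0 : 0 < |c| := by
    rw [abs_pos]; rintro rfl; norm_num at hc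
  have hγ : 3 < |c| * r := by
    have h1 : 3 ^ 2 < (|c| * r) ^ 2 := by
      rw [mul_pow, sq_abs, hr]; linarith
    exact lt_of_pow_lt_pow_left₀ 2 (by positivity) h1
  obtain ⟨q, i1, i2, X, Y, Z, W, hZ, hZW, hWZ, hB, hcard, hN⟩ := mod_all hr0 hr hγ A
  set M : Matrix (Fin m ⊕ q) (Fin n ⊕ q) (MonoidAlgebra R G) := fromBlocks 0 X Y Z with hM
  have hNc : NormLE (pat M) |c| := by
    refine normLE_of_ip' _ |c| hc0 fun v v' => ?_
    rw [hM, ip_blocks']
    have h1 := hN (v ∘ Sum.inl) (v' ∘ Sum.inl) (v' ∘ Sum.inr) (v ∘ Sum.inr)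
    have n1 := normSq_nonneg (v ∘ Sum.inl)
    have n2 := normSq_nonneg (v' ∘ Sum.inl)
    refine le_of_mul_le_mul_left ?_ hr0
    rw [normSq_sum v, normSq_sum v']
    nlinarith
  have hNc' : NormLE (pat M) c := by
    intro v
    have := hNc v
    rwa [sq_abs] at this
  let e : Fin (m + Fintype.card q) ≃ Fin m ⊕ q :=
    finSumFinEquiv.symm.trans (Equiv.sumCongr (Equiv.refl _) (Fintype.equivFin q).symm)
  let e' : Fin (n + Fintype.card q) ≃ Fin n ⊕ q :=
    finSumFinEquiv.symm.trans (Equiv.sumCongr (Equiv.refl _) (Fintype.equivFin q).symm)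
  obtain ⟨φ1⟩ := coker_model A X Y Z W hZW hWZ hB
  obtain ⟨φ2⟩ := coker_reindex M e e'
  exact ⟨m + Fintype.card q, n + Fintype.card q, M.submatrix e e',
    NormLE_re3 e e' (pat M) c hNc',
    ⟨((e0.trans (Submodule.quotEquivOfEq _ _ hKS)).trans φ1).trans φ2⟩⟩

end red

end TH6.PF
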