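import Pool.Agent.TH6.PF.LRed
import Pool.Agent.TH6.PF.LBelow
import Pool.Agent.TH6.LF.NearF

set_option autoImplicit false
set_option linter.unusedSectionVars false
set_option linter.style.haveILetI false

/-! Nonsingular quadratic forms over the group ring of any ring with involution at pattern distance
less than `√2` from the hyperbolic form are hyperbolic. -/

namespace TH6.PF

open Matrix TH57.Thr TH6.LF

variable {R : Type} [Ring R] [StarRing R] {G : Type} [Group G] (w : G →* ℤˣ)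
variable {κ : Type} [Fintype κ] [DecidableEq κ]

theorem near_formR (ε : ℤ) (hε : ε = 1 ∨ ε = -1) (c : ℝ) (hc : c ^ 2 < 2)
    (ψ : Matrix (κ ⊕ κ) (κ ⊕ κ) (MonoidAlgebra R G)) (hunit : IsUnit (ψ + ε • sadj w ψ))
    (hN : NormLE (symPat (ψ - hyp (MonoidAlgebra R G) κ)) c) :
    ∃ (P : (Matrix (κ ⊕ κ) (κ ⊕ κ) (MonoidAlgebra R G))ˣ)
      (χ : Matrix (κ ⊕ κ) (κ ⊕ κ) (MonoidAlgebra R G)),
      P.val * ψ * sadj w P.val = hyp (MonoidAlgebra R G) κ + (χ - ε • sadj w χ) := by
  classical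
  have hεε : ε * ε = 1 := by rcases hε with rfl | rfl <;> norm_num
  set φ := ψ - hyp (MonoidAlgebra R G) κ with hφ
  set N := symPat φ with hNd
  have hrow := rowOne_of_norm N c hc hN
  have hnn : ∀ r : R, 0 ≤ ind r := by
    intro r
    by_cases h : r = 0
    · rw [h, ind_zero]
    · rw [ind_of_ne h]; norm_num
  have hNc : ∀ i j g, (N i j).coeff g = ind ((φ i j).coeff g) + ind ((φ j i).coeff g⁻¹) :=
    fun i j g => coeff_symPat φ i j g
  have hNs : ∀ i j g, (N j i).coeff g⁻¹ = (N i j).coeff g := by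
    intro i j g
    rw [hNc, hNc, inv_inv, add_comm]
  have hNsym : ∀ i j, N i j ≠ 0 → N j i ≠ 0 := by
    intro i j h h0
    apply h
    ext g
    rw [← hNs i j g, h0]
    rfl
  have hNu : ∀ i j k, N i j ≠ 0 → N i k ≠ 0 → j = k := by
    intro i j k hj hk
    rcases hrow i with h | ⟨l, g, δ, _, _, h⟩
    · exact absurd (h j) hj
    · have e1 : j = l := by
        by_contra hcon; exact hj (h j hcon)
      have e2 : k = l := by
        by_contra hcon; exact hk (h k hcon)
      rw [e1, e2]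
  have hNi : ∀ i, ¬ (N i i ≠ 0) := by
    intro i hne
    rcases hrow i with h | ⟨l, g, δ, hδ, hl, h⟩
    · exact hne (h i)
    · have e1 : i = l := by
        by_contra hcon; exact hne (h i hcon)
      subst e1
      have h1 : (N i i).coeff g = δ := by rw [hl]; simp
      have h2 := hNs i i g
      have hδ0 : δ ≠ 0 := by rcases hδ with rfl | rfl <;> norm_num
      have h3 : g = g⁻¹ := by
        by_contra hg
        rw [h1, hl] at h2
        simp only [MonoidAlgebra.coeff_single] at h2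
        rw [Finsupp.single_eq_of_ne (fun h => hg h.symm)] at h2
        exact hδ0 h2.symm
      have h4 := hNc i i g
      rw [← h3, h1] at h4
      by_cases h5 : (φ i i).coeff g = 0
      · rw [h5, ind_zero] at h4
        exact hδ0 (by simpa using h4)
      · rw [ind_of_ne h5] at h4
        rcases hδ with rfl | rfl <;> norm_num at h4
  obtain ⟨col, hcol1, hcol2⟩ := two_color' (Sum.swap : κ ⊕ κ → κ ⊕ κ) Sum.swap_swap
    (by rintro (x | x) h <;> simp at h) (fun i j => N i j ≠ 0) hNsym hNi hNu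
  -- the reindexing
  let τf : κ ⊕ κ → κ ⊕ κ := fun x => if col (Sum.inl (Sum.elim id id x)) then x else Sum.swap x
  have hτel : ∀ x, (Sum.elim id id (τf x) : κ) = Sum.elim id id x := by
    intro x
    simp only [τf]
    split_ifs
    · rfl
    · rcases x with x | x <;> rfl
  have hττ : ∀ x, τf (τf x) = x := by
    intro x
    have h1 := hτel x
    by_cases hb : col (Sum.inl (Sum.elim id id x)) = true
    · have h2 : τf x = x := if_pos hb
      rw [h2, h2]
    · have h2 : τf x = Sum.swap x := if_neg hb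
      have h3 : τf (τf x) = Sum.swap (τf x) := by
        apply if_neg
        rw [h1]
        exact hb
      rw [h3, h2, Sum.swap_swap]
  let τ : (κ ⊕ κ) ≃ (κ ⊕ κ) := ⟨τf, τf, hττ, hττ⟩
  have hτl : ∀ k, col (τ (Sum.inl k)) = true := by
    intro k
    change col (τf (Sum.inl k)) = true
    by_cases hb : col (Sum.inl k) = true
    · have h2 : τf (Sum.inl k) = Sum.inl k := if_pos hb
      rw [h2, hb]
    · have h2 : τf (Sum.inl k) = Sum.inr k := if_neg hb
      rw [h2]
      have h3 := hcol1 (Sum.inl k)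
      rw [Sum.swap_inl] at h3
      rw [Bool.not_eq_true] at hb
      rw [hb] at h3
      simpa using h3
  have hτr : ∀ k, col (τ (Sum.inr k)) = false := by
    intro k
    change col (τf (Sum.inr k)) = false
    by_cases hb : col (Sum.inl k) = true
    · have h2 : τf (Sum.inr k) = Sum.inr k := if_pos hb
      rw [h2]
      have h3 := hcol1 (Sum.inl k)
      rw [Sum.swap_inl, hb] at h3
      simpa using h3
    · have h2 : τf (Sum.inr k) = Sum.inl k := if_neg hb
      rw [h2]
      simpa using hb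
  have hψz : ∀ x y, col x = col y → ψ x y = 0 := by
    intro x y hxy
    have h1 : φ x y = 0 := by
      ext g
      by_contra h
      apply hcol2 x y _ hxy
      intro h0
      have h2 := hNc x y g
      rw [h0, MonoidAlgebra.coeff_zero, Finsupp.coe_zero, Pi.zero_apply, ind_of_ne h] at h2
      have := hnn ((φ y x).coeff g⁻¹)
      omega
    have h2 : ψ x y = hyp (MonoidAlgebra R G) κ x y := by
      rw [hφ, Matrix.sub_apply, sub_eq_zero] at h1
      exact h1
    rw [h2]
    rcases x with x | x <;> rcases y with y | y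
    · rfl
    · rw [hyp, fromBlocks_apply₁₂, Matrix.one_apply]
      apply if_neg
      rintro rfl
      have h2 := hcol1 (Sum.inl x)
      rw [Sum.swap_inl] at h2
      exact h2 hxy.symm
    · rfl
    · rfl
  set ψ' := ψ.submatrix τ τ with hψ'
  set B1 := ψ'.toBlocks₁₂ with hB1
  set B2 := ψ'.toBlocks₂₁ with hB2
  have hψ'b : ψ' = fromBlocks 0 B1 B2 0 := by
    rw [← Matrix.fromBlocks_toBlocks ψ']
    congr 1
    · ext1 i j
      exact hψz _ _ (by rw [hτl, hτl])
    · ext1 i j
      exact hψz _ _ (by rw [hτr, hτr])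
  set B := B1 + ε • sadj w B2 with hB
  have hA'b : ψ' + ε • sadj w ψ' = fromBlocks 0 B (ε • sadj w B) 0 := by
    rw [hψ'b, sadj_fromBlocks, sadj_zero, Matrix.fromBlocks_smul,
      Matrix.fromBlocks_add, smul_zero, add_zero, hB, sadj_add, sadj_zsmul, sadj_sadj, smul_add,
      smul_smul, hεε, one_smul, add_comm B2]
  have hA' : ψ' + ε • sadj w ψ' = (ψ + ε • sadj w ψ).submatrix τ τ := rfl
  obtain ⟨v, hv⟩ := hunit
  set M := ((↑v⁻¹ : Matrix (κ ⊕ κ) (κ ⊕ κ) (MonoidAlgebra R G)).submatrix τ τ) with hM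
  have hv1 : (ψ' + ε • sadj w ψ') * M = 1 := by
    rw [hA', ← hv, Matrix.submatrix_mul_equiv, Units.mul_inv, Matrix.submatrix_one_equiv]
  have hv2 : M * (ψ' + ε • sadj w ψ') = 1 := by
    rw [hA', ← hv, Matrix.submatrix_mul_equiv, Units.inv_mul, Matrix.submatrix_one_equiv]
  set C := M.toBlocks₂₁ with hC
  have hBC : B * C = 1 := by
    rw [hA'b, ← Matrix.fromBlocks_toBlocks M, Matrix.fromBlocks_multiply,
      ← Matrix.fromBlocks_one] at hv1
    have h1 := congrArg Matrix.toBlocks₁₁ hv1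
    rw [Matrix.toBlocks_fromBlocks₁₁, Matrix.toBlocks_fromBlocks₁₁, Matrix.zero_mul,
      zero_add] at h1
    exact h1
  have hCB : C * B = 1 := by
    rw [hA'b, ← Matrix.fromBlocks_toBlocks M, Matrix.fromBlocks_multiply,
      ← Matrix.fromBlocks_one] at hv2
    have h1 := congrArg Matrix.toBlocks₂₂ hv2
    rw [Matrix.toBlocks_fromBlocks₂₂, Matrix.toBlocks_fromBlocks₂₂, Matrix.mul_zero,
      add_zero] at h1
    exact h1
  -- the isometry
  set T0 : Matrix (κ ⊕ κ) (κ ⊕ κ) (MonoidAlgebra R G) :=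
    (1 : Matrix (κ ⊕ κ) (κ ⊕ κ) (MonoidAlgebra R G)).submatrix τ id with hT0
  have hT0a : sadj w T0 = (1 : Matrix (κ ⊕ κ) (κ ⊕ κ) (MonoidAlgebra R G)).submatrix id τ := by
    rw [hT0, sadj_submatrix, sadj_one]
  have hT0m : ∀ X : Matrix (κ ⊕ κ) (κ ⊕ κ) (MonoidAlgebra R G),
      T0 * X * sadj w T0 = X.submatrix τ τ := by
    intro X
    rw [hT0a, hT0]
    ext1 i j
    simp [Matrix.mul_apply, Matrix.one_apply]
  have hT01 : T0 * sadj w T0 = 1 := by
    have := hT0m 1
    rwa [Matrix.mul_one, Matrix.submatrix_one_equiv] at this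
  have hT02 : sadj w T0 * T0 = 1 := by
    rw [hT0a, hT0, Matrix.submatrix_mul_equiv, Matrix.one_mul]
    rfl
  set P1 : Matrix (κ ⊕ κ) (κ ⊕ κ) (MonoidAlgebra R G) := fromBlocks 1 0 0 (sadj w C) with hP1
  set P2 : Matrix (κ ⊕ κ) (κ ⊕ κ) (MonoidAlgebra R G) := fromBlocks 1 0 0 (sadj w B) with hP2
  have hP12 : P1 * P2 = 1 := by
    rw [hP1, hP2, Matrix.fromBlocks_multiply, ← Matrix.fromBlocks_one, ← sadj_mul, hBC, sadj_one]
    simp
  have hP21 : P2 * P1 = 1 := by
    rw [hP1, hP2, Matrix.fromBlocks_multiply, ← Matrix.fromBlocks_one, ← sadj_mul, hCB, sadj_one]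
    simp
  let P : (Matrix (κ ⊕ κ) (κ ⊕ κ) (MonoidAlgebra R G))ˣ :=
    ⟨P1 * T0, sadj w T0 * P2, by
      rw [Matrix.mul_assoc, ← Matrix.mul_assoc T0, hT01, Matrix.one_mul, hP12], by
      rw [Matrix.mul_assoc, ← Matrix.mul_assoc P2, hP21, Matrix.one_mul, hT02]⟩
  set χ : Matrix (κ ⊕ κ) (κ ⊕ κ) (MonoidAlgebra R G) := fromBlocks 0 0 B2 0 with hχ
  have hdec : ψ' = fromBlocks 0 B 0 0 + (χ - ε • sadj w χ) := by
    rw [hχ, sadj_fromBlocks, sadj_zero, Matrix.fromBlocks_smul,
      sub_eq_add_neg, Matrix.fromBlocks_neg, Matrix.fromBlocks_add, Matrix.fromBlocks_add, hψ'b,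
      hB]
    simp
  refine ⟨P, P1 * χ * sadj w P1, ?_⟩
  change P1 * T0 * ψ * sadj w (P1 * T0) = _
  rw [sadj_mul]
  calc P1 * T0 * ψ * (sadj w T0 * sadj w P1) = P1 * (T0 * ψ * sadj w T0) * sadj w P1 := by
        simp only [Matrix.mul_assoc]
    _ = P1 * (fromBlocks 0 B 0 0 + (χ - ε • sadj w χ)) * sadj w P1 := by
        rw [hT0m, ← hψ', ← hdec]
    _ = P1 * fromBlocks 0 B 0 0 * sadj w P1
        + (P1 * χ * sadj w P1 - ε • sadj w (P1 * χ * sadj w P1)) := by
        rw [sadj_mul, sadj_mul, sadj_sadj, Matrix.mul_add, Matrix.add_mul, Matrix.mul_sub,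
          Matrix.sub_mul, Matrix.mul_smul, Matrix.smul_mul, Matrix.mul_assoc P1 (sadj w χ)]
    _ = _ := by
        congr 1
        rw [hP1, sadj_fromBlocks, sadj_sadj, sadj_one, sadj_zero,
          Matrix.fromBlocks_multiply, Matrix.fromBlocks_multiply, hyp]
        simp [hBC]

end TH6.PF
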