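import Pool.Agent.TH6.PF.SBar
import Pool.Agent.TH6.PF.PK

set_option autoImplicit false
set_option linter.unusedSectionVars false
set_option linter.style.haveILetI false

/-! Quadratic forms over the group ring of any ring with involution: every form is, after adding a
hyperbolic form, isometric to a form with symmetrised support pattern of norm close to `3 / √2`. -/

namespace TH6.PF

open Matrix TH57.Thr TH6.LF

variable {R : Type} [Ring R] [StarRing R] {G : Type} [Group G] (w : G →* ℤˣ)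

section conj

variable {ι : Type} [Fintype ι] [DecidableEq ι]

/-- the isometry of a linear model -/
theorem form_conjR {q : Type} [Fintype q] [DecidableEq q] (ψ : Matrix ι ι (MonoidAlgebra R G))
    (X : Matrix ι q (MonoidAlgebra R G)) (Y : Matrix q ι (MonoidAlgebra R G))
    (Z W : Matrix q q (MonoidAlgebra R G)) (hZW : Z * W = 1) :
    (fromBlocks 1 (fromCols X (sadj w (W * Y))) 0 (fromBlocks Z 0 0 1) :
        Matrix (ι ⊕ (q ⊕ q)) (ι ⊕ (q ⊕ q)) (MonoidAlgebra R G)) * addHyp q ψ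
      * sadj w (fromBlocks 1 (fromCols X (sadj w (W * Y))) 0 (fromBlocks Z 0 0 1) :
        Matrix (ι ⊕ (q ⊕ q)) (ι ⊕ (q ⊕ q)) (MonoidAlgebra R G))
      = fromBlocks (ψ + X * W * Y) (fromCols 0 X) (fromRows Y 0) (fromBlocks 0 Z 0 0) := by
  rw [addHyp, sadj_fromBlocks, sadj_fromBlocks, sadj_fromCols, sadj_sadj, sadj_one, sadj_zero,
    sadj_zero, sadj_one, Matrix.fromBlocks_multiply, Matrix.fromBlocks_multiply]
  have e1 : (fromCols X (sadj w (W * Y)) : Matrix ι (q ⊕ q) (MonoidAlgebra R G))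
      * (fromBlocks (0 : Matrix q q (MonoidAlgebra R G)) (1 : Matrix q q (MonoidAlgebra R G))
        (0 : Matrix q q (MonoidAlgebra R G)) (0 : Matrix q q (MonoidAlgebra R G))) =
      fromCols 0 X := by
    rw [Matrix.fromCols_mul_fromBlocks]; simp
  have e2 : fromBlocks Z (0 : Matrix q q (MonoidAlgebra R G))
      (0 : Matrix q q (MonoidAlgebra R G)) (1 : Matrix q q (MonoidAlgebra R G))
      * fromBlocks (0 : Matrix q q (MonoidAlgebra R G)) (1 : Matrix q q (MonoidAlgebra R G))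
        (0 : Matrix q q (MonoidAlgebra R G)) (0 : Matrix q q (MonoidAlgebra R G))
      = fromBlocks 0 Z 0 0 := by
    rw [Matrix.fromBlocks_multiply]; simp
  simp only [Matrix.one_mul, Matrix.mul_zero, Matrix.zero_mul, add_zero, zero_add, e1, e2,
    Matrix.mul_one]
  have e3 : fromCols (0 : Matrix ι q (MonoidAlgebra R G)) X
      * fromRows (sadj w X) (W * Y) = X * W * Y := by
    rw [Matrix.fromCols_mul_fromRows]; simp [Matrix.mul_assoc]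
  have e4 : fromCols (0 : Matrix ι q (MonoidAlgebra R G)) X
      * fromBlocks (sadj w Z) (0 : Matrix q q (MonoidAlgebra R G))
        (0 : Matrix q q (MonoidAlgebra R G)) (1 : Matrix q q (MonoidAlgebra R G))
      = fromCols 0 X := by
    rw [Matrix.fromCols_mul_fromBlocks]; simp
  have e5 : fromBlocks (0 : Matrix q q (MonoidAlgebra R G)) Z
      (0 : Matrix q q (MonoidAlgebra R G)) (0 : Matrix q q (MonoidAlgebra R G))
      * fromRows (sadj w X) (W * Y) = fromRows Y 0 := by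
    rw [Matrix.fromBlocks_mul_fromRows]
    simp only [Matrix.zero_mul, zero_add, ← Matrix.mul_assoc, hZW, Matrix.one_mul]
  have e6 : fromBlocks (0 : Matrix q q (MonoidAlgebra R G)) Z
      (0 : Matrix q q (MonoidAlgebra R G)) (0 : Matrix q q (MonoidAlgebra R G))
      * fromBlocks (sadj w Z) (0 : Matrix q q (MonoidAlgebra R G))
      (0 : Matrix q q (MonoidAlgebra R G)) (1 : Matrix q q (MonoidAlgebra R G))
      = fromBlocks 0 Z 0 0 := by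
    rw [Matrix.fromBlocks_multiply]; simp
  rw [e3, e4, e5, e6]

theorem el_modelR {S : Type} [Ring S] {q : Type} [Fintype q] [DecidableEq q] (X : Matrix ι q S)
    (X' : Matrix ι q S) (Z : Matrix q q S) (hZ : Z ∈ El (R := S) q) :
    (fromBlocks 1 (fromCols X X') 0 (fromBlocks Z 0 0 1) :
      Matrix (ι ⊕ (q ⊕ q)) (ι ⊕ (q ⊕ q)) S) ∈ El (R := S) (ι ⊕ (q ⊕ q)) := by
  have e : (fromBlocks 1 (fromCols X X') 0 (fromBlocks Z 0 0 1) :
      Matrix (ι ⊕ (q ⊕ q)) (ι ⊕ (q ⊕ q)) S)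
      = fromBlocks (1 : Matrix ι ι S) 0 0
      (fromBlocks Z 0 0 1) * (1 + fromBlocks 0 (fromCols X X') 0 0) := by
    rw [← Matrix.fromBlocks_one, Matrix.fromBlocks_add, Matrix.fromBlocks_multiply]
    simp
  rw [e]
  refine mul_mem (el_ext2 _ (el_ext Z hZ))
    (el_unip (Finset.univ.filter fun v : ι ⊕ (q ⊕ q) => v.isLeft) _ ?_)
  rintro (i | i) (j | j) h <;> simp at h ⊢

theorem ip_modelR {q : Type} [Fintype q] [DecidableEq q]
    (X : Matrix ι q (MonoidAlgebra R G)) (Y : Matrix q ι (MonoidAlgebra R G))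
    (Z : Matrix q q (MonoidAlgebra R G)) (v v' : ι ⊕ (q ⊕ q) → MonoidAlgebra ℝ G) :
    ip (v ᵥ* tp (fromBlocks 0 (fromCols 0 X) (fromRows Y 0) (fromBlocks 0 Z 0 0) :
        Matrix (ι ⊕ (q ⊕ q)) (ι ⊕ (q ⊕ q)) (MonoidAlgebra R G))) v'
      = ip ((v ∘ Sum.inl) ᵥ* tp X) (v' ∘ Sum.inr ∘ Sum.inr)
        + ip ((v ∘ Sum.inr ∘ Sum.inl) ᵥ* tp Z) (v' ∘ Sum.inr ∘ Sum.inr)
        + ip ((v ∘ Sum.inr ∘ Sum.inl) ᵥ* tp Y) (v' ∘ Sum.inl) := by
  have h1 : v ᵥ* tp (fromBlocks 0 (fromCols 0 X) (fromRows Y 0) (fromBlocks 0 Z 0 0) :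
        Matrix (ι ⊕ (q ⊕ q)) (ι ⊕ (q ⊕ q)) (MonoidAlgebra R G))
      = Sum.elim ((v ∘ Sum.inr ∘ Sum.inl) ᵥ* tp Y)
      (Sum.elim 0 ((v ∘ Sum.inl) ᵥ* tp X + (v ∘ Sum.inr ∘ Sum.inl) ᵥ* tp Z)) := by
    rw [tp_fromBlocks, tp_fromBlocks, tp_fromCols, tp_fromRows]
    simp only [tp_zero]
    funext j
    rcases j with j | j | j
    · simp [Matrix.vecMul, dotProduct, Fintype.sum_sum_type]
    · simp [Matrix.vecMul, dotProduct, Fintype.sum_sum_type]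
    · simp [Matrix.vecMul, dotProduct, Fintype.sum_sum_type]
  rw [h1, ip_elim, ip_elim (Sum.elim _ _ ∘ Sum.inr)]
  have h2 : (Sum.elim ((v ∘ Sum.inr ∘ Sum.inl) ᵥ* tp Y)
      (Sum.elim (0 : q → MonoidAlgebra ℝ G)
        ((v ∘ Sum.inl) ᵥ* tp X + (v ∘ Sum.inr ∘ Sum.inl) ᵥ* tp Z)))
      ∘ Sum.inl = (v ∘ Sum.inr ∘ Sum.inl) ᵥ* tp Y := rfl
  have h3 : ((Sum.elim ((v ∘ Sum.inr ∘ Sum.inl) ᵥ* tp Y)
      (Sum.elim (0 : q → MonoidAlgebra ℝ G)
        ((v ∘ Sum.inl) ᵥ* tp X + (v ∘ Sum.inr ∘ Sum.inl) ᵥ* tp Z)))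
      ∘ Sum.inr) ∘ Sum.inl = 0 := rfl
  have h4 : ((Sum.elim ((v ∘ Sum.inr ∘ Sum.inl) ᵥ* tp Y)
      (Sum.elim (0 : q → MonoidAlgebra ℝ G)
        ((v ∘ Sum.inl) ᵥ* tp X + (v ∘ Sum.inr ∘ Sum.inl) ᵥ* tp Z)))
      ∘ Sum.inr) ∘ Sum.inr
      = (v ∘ Sum.inl) ᵥ* tp X + (v ∘ Sum.inr ∘ Sum.inl) ᵥ* tp Z := rfl
  rw [h2, h3, h4, ip_zero_left, ip_add_left]
  have h5 : (v' ∘ Sum.inr) ∘ Sum.inr = v' ∘ Sum.inr ∘ Sum.inr := rfl
  rw [h5]
  ring

theorem nsq3 {q : Type} [Fintype q] (v : ι ⊕ (q ⊕ q) → MonoidAlgebra ℝ G) :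
    normSq v = normSq (v ∘ Sum.inl) + (normSq (v ∘ Sum.inr ∘ Sum.inl)
      + normSq (v ∘ Sum.inr ∘ Sum.inr)) := by
  rw [normSq_sum v, normSq_sum (v ∘ Sum.inr)]
  rfl

theorem form_redR [Nontrivial R] (ψ : Matrix ι ι (MonoidAlgebra R G)) (c : ℝ)
    (hc : 9 / 2 < c ^ 2) :
    ∃ (q : Type) (_ : Fintype q) (_ : DecidableEq q)
      (P : (Matrix (ι ⊕ (q ⊕ q)) (ι ⊕ (q ⊕ q)) (MonoidAlgebra R G))ˣ),
      P ∈ commutator (Matrix (ι ⊕ (q ⊕ q)) (ι ⊕ (q ⊕ q)) (MonoidAlgebra R G))ˣ ∧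
        NormLE (symPat (P.val * addHyp q ψ * sadj w P.val)) c := by
  have hr0 : 0 < Real.sqrt 2 := Real.sqrt_pos.2 two_pos
  have hr : Real.sqrt 2 ^ 2 = 2 := Real.sq_sqrt two_pos.le
  set r := Real.sqrt 2 with hrd
  have hc0 : 0 < |c| := by
    rw [abs_pos]; rintro rfl; norm_num at hc
  have hγ : 3 < |c| * r := by
    have h1 : 3 ^ 2 < (|c| * r) ^ 2 := by
      rw [mul_pow, sq_abs, hr]; linarith
    exact lt_of_pow_lt_pow_left₀ 2 (by positivity) h1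
  obtain ⟨q, i1, i2, X, Y, Z, W, hZ, hZW, hWZ, hB, hcard, hN⟩ := mod_all hr0 hr hγ ψ
  refine ⟨q, i1, i2, ?_⟩
  have hcard3 : 3 ≤ Fintype.card (ι ⊕ (q ⊕ q)) := by
    rw [Fintype.card_sum, Fintype.card_sum]; omega
  obtain ⟨P, hP1, hP2⟩ := comm_of_El hcard3 _ (el_modelR X (sadj w (W * Y)) Z hZ)
  refine ⟨P, hP2, ?_⟩
  have h0 : ψ + X * W * Y = 0 := by rw [← hB]; simp
  rw [hP1, form_conjR w ψ X Y Z W hZW, h0]
  set F : Matrix (ι ⊕ (q ⊕ q)) (ι ⊕ (q ⊕ q)) (MonoidAlgebra R G) :=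
    fromBlocks 0 (fromCols 0 X) (fromRows Y 0) (fromBlocks 0 Z 0 0) with hF
  have hNc : NormLE (symPat F) |c| := by
    refine normLE_of_ip _ |c| hc0 fun v v' => ?_
    have h3 : |ip (v ᵥ* toReal (symPat F)) v'|
        ≤ |ip (v ᵥ* tp F) v'| + |ip (v' ᵥ* tp F) v| := by
      rw [symPat_ip]
      exact abs_add_le _ _
    have h4 := hN (v ∘ Sum.inl) (v' ∘ Sum.inl) (v' ∘ Sum.inr ∘ Sum.inr) (v ∘ Sum.inr ∘ Sum.inl)
    have h5 := hN (v' ∘ Sum.inl) (v ∘ Sum.inl) (v ∘ Sum.inr ∘ Sum.inr) (v' ∘ Sum.inr ∘ Sum.inl)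
    rw [← ip_modelR] at h4 h5
    rw [← hF] at h4 h5
    have n1 := normSq_nonneg (v ∘ Sum.inl)
    have n2 := normSq_nonneg (v' ∘ Sum.inl)
    have h6 : r * (2 * |ip (v ᵥ* toReal (symPat F)) v'|)
        ≤ r * (|c| * (normSq v + normSq v')) := by
      rw [nsq3 v, nsq3 v']
      have h7 := mul_le_mul_of_nonneg_left h3 (show 0 ≤ r * 2 by positivity)
      nlinarith
    exact le_of_mul_le_mul_left h6 hr0
  intro v
  have := hNc v
  rwa [sq_abs] at this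

theorem form_distR [Nontrivial R] (ψ H : Matrix ι ι (MonoidAlgebra R G)) :
    ∃ (q : Type) (_ : Fintype q) (_ : DecidableEq q)
      (P : (Matrix (ι ⊕ (q ⊕ q)) (ι ⊕ (q ⊕ q)) (MonoidAlgebra R G))ˣ),
      P ∈ commutator (Matrix (ι ⊕ (q ⊕ q)) (ι ⊕ (q ⊕ q)) (MonoidAlgebra R G))ˣ ∧
        NormLE (symPat (P.val * addHyp q ψ * sadj w P.val - addHyp q H)) (Real.sqrt 2) := by
  obtain ⟨q, i1, i2, X, Y, Z, W, hZ, hZW, hWZ, hB, hcard, hN⟩ := modD_all (ψ - H)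
  refine ⟨q, i1, i2, ?_⟩
  have hcard3 : 3 ≤ Fintype.card (ι ⊕ (q ⊕ q)) := by
    rw [Fintype.card_sum, Fintype.card_sum]; omega
  obtain ⟨P, hP1, hP2⟩ := comm_of_El hcard3 _ (el_modelR X (sadj w (W * Y)) (1 + Z) hZ)
  refine ⟨P, hP2, ?_⟩
  set F : Matrix (ι ⊕ (q ⊕ q)) (ι ⊕ (q ⊕ q)) (MonoidAlgebra R G) :=
    fromBlocks 0 (fromCols 0 X) (fromRows Y 0) (fromBlocks 0 Z 0 0) with hF
  have hform : P.val * addHyp q ψ * sadj w P.val - addHyp q H = F := by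
    rw [hP1, form_conjR w ψ X Y (1 + Z) W hZW, hF, addHyp, sub_eq_iff_eq_add,
      Matrix.fromBlocks_add, Matrix.fromBlocks_add]
    have h1 : ψ + X * W * Y = H := by
      have h2 : X * W * Y = -(ψ - H) := by rw [← hB, neg_neg]
      rw [h2]; abel
    rw [h1]
    simp [add_comm]
  rw [hform]
  refine normLE_of_ip _ _ sqrt2_pos fun v v' => ?_
  have h3 : |ip (v ᵥ* toReal (symPat F)) v'|
      ≤ |ip (v ᵥ* tp F) v'| + |ip (v' ᵥ* tp F) v| := by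
    rw [symPat_ip]
    exact abs_add_le _ _
  have h4 := hN (v ∘ Sum.inl) (v' ∘ Sum.inl) (v ∘ Sum.inr ∘ Sum.inl) (v' ∘ Sum.inr ∘ Sum.inr)
  have h5 := hN (v' ∘ Sum.inl) (v ∘ Sum.inl) (v' ∘ Sum.inr ∘ Sum.inl) (v ∘ Sum.inr ∘ Sum.inr)
  rw [← ip_modelR] at h4 h5
  rw [← hF] at h4 h5
  have h6 : Real.sqrt 2 * (2 * |ip (v ᵥ* toReal (symPat F)) v'|)
      ≤ Real.sqrt 2 * (Real.sqrt 2 * (normSq v + normSq v')) := by
    rw [← mul_assoc (Real.sqrt 2) (Real.sqrt 2), Real.mul_self_sqrt two_pos.le, nsq3 v, nsq3 v']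
    have h7 := mul_le_mul_of_nonneg_left h3 (show 0 ≤ Real.sqrt 2 * 2 by positivity)
    linarith
  exact le_of_mul_le_mul_left h6 sqrt2_pos

end conj

theorem symPat_submatrix {ι κ : Type} (e : κ → ι) (F : Matrix ι ι (MonoidAlgebra R G)) :
    symPat (F.submatrix e e) = (symPat F).submatrix e e := rfl

theorem normLE_of_subsingleton [Subsingleton R] {ι : Type} [Fintype ι]
    (F : Matrix ι ι (MonoidAlgebra R G)) (c : ℝ) : NormLE (symPat F) c := by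
  have h0 : F = 0 := by
    ext i j g
    exact Subsingleton.elim _ _
  have h1 : symPat F = 0 := by
    rw [h0, symPat, pat_zero, adj_zero, add_zero]
  rw [h1]
  intro x
  rw [toReal_zero, Matrix.vecMul_zero]
  have : normSq (0 : ι → MonoidAlgebra ℝ G) = 0 := by
    rw [normSq_eq]
    exact Finset.sum_eq_zero fun i _ => n1_zero
  rw [this]
  exact mul_nonneg (sq_nonneg _) (normSq_nonneg _)

section fin

theorem form_to_fin {ι : Type} [Fintype ι] [DecidableEq ι] (ψ : Matrix ι ι (MonoidAlgebra R G))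
    (c : ℝ)
    (B : (m : Type) → [DecidableEq m] → Matrix (ι ⊕ (m ⊕ m)) (ι ⊕ (m ⊕ m)) (MonoidAlgebra R G))
    (hB : ∀ (m m' : Type) [DecidableEq m] [DecidableEq m'] (e : m' ≃ m),
      (B m).submatrix (Equiv.sumCongr (Equiv.refl _) (Equiv.sumCongr e e))
        (Equiv.sumCongr (Equiv.refl _) (Equiv.sumCongr e e)) = B m')
    (h : ∃ (q : Type) (_ : Fintype q) (_ : DecidableEq q)
      (P : (Matrix (ι ⊕ (q ⊕ q)) (ι ⊕ (q ⊕ q)) (MonoidAlgebra R G))ˣ),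
      P ∈ commutator (Matrix (ι ⊕ (q ⊕ q)) (ι ⊕ (q ⊕ q)) (MonoidAlgebra R G))ˣ ∧
        NormLE (symPat (P.val * addHyp q ψ * sadj w P.val - B q)) c) :
    ∃ (m : ℕ) (P : (Matrix (ι ⊕ (Fin m ⊕ Fin m)) (ι ⊕ (Fin m ⊕ Fin m)) (MonoidAlgebra R G))ˣ),
      P ∈ commutator (Matrix (ι ⊕ (Fin m ⊕ Fin m)) (ι ⊕ (Fin m ⊕ Fin m)) (MonoidAlgebra R G))ˣ ∧
        NormLE (symPat (P.val * addHyp (Fin m) ψ * sadj w P.val - B (Fin m))) c := by
  obtain ⟨q, iq1, iq2, P, hP, hN⟩ := h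
  let e : Fin (Fintype.card q) ≃ q := (Fintype.equivFin q).symm
  let e' : ι ⊕ (Fin (Fintype.card q) ⊕ Fin (Fintype.card q)) ≃ ι ⊕ (q ⊕ q) :=
    Equiv.sumCongr (Equiv.refl _) (Equiv.sumCongr e e)
  refine ⟨Fintype.card q, Units.map (re e') P, comm_re e' P hP, ?_⟩
  have h1 := NormLE_re e' _ _ hN
  have h2 : (Units.map (re e') P).val = P.val.submatrix e' e' := rfl
  have h3 : addHyp (Fin (Fintype.card q)) ψ = (addHyp q ψ).submatrix e' e' := by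
    ext1 i j
    rcases i with i | i | i <;> rcases j with j | j | j <;> simp [addHyp, e', Matrix.one_apply]
  have h4 : (Units.map (re e') P).val * addHyp (Fin (Fintype.card q)) ψ
      * sadj w (Units.map (re e') P).val
      = (P.val * addHyp q ψ * sadj w P.val).submatrix e' e' := by
    rw [h2, h3, sadj_submatrix, Matrix.submatrix_mul_equiv, Matrix.submatrix_mul_equiv]
  rw [h4, ← hB q _ e]
  exact h1

theorem form_redR_fin (n : ℕ) (ψ : Matrix (Fin n) (Fin n) (MonoidAlgebra R G)) (c : ℝ)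
    (hc : 9 / 2 < c ^ 2) :
    ∃ (m : ℕ) (P : (Matrix (Fin n ⊕ (Fin m ⊕ Fin m)) (Fin n ⊕ (Fin m ⊕ Fin m))
        (MonoidAlgebra R G))ˣ),
      P ∈ commutator (Matrix (Fin n ⊕ (Fin m ⊕ Fin m)) (Fin n ⊕ (Fin m ⊕ Fin m))
        (MonoidAlgebra R G))ˣ ∧
      NormLE (symPat (P.val * addHyp (Fin m) ψ * sadj w P.val)) c := by
  rcases subsingleton_or_nontrivial R with h | h
  · exact ⟨0, 1, one_mem _, normLE_of_subsingleton _ _⟩
  · obtain ⟨m, P, h1, h2⟩ := form_to_fin w ψ c (fun _ _ => 0) (fun _ _ _ _ _ => rfl) (by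
      obtain ⟨q, i1, i2, P, h1, h2⟩ := form_redR w ψ c hc
      exact ⟨q, i1, i2, P, h1, by rwa [sub_zero]⟩)
    exact ⟨m, P, h1, by rwa [sub_zero] at h2⟩

theorem form_distR_fin {ι : Type} [Fintype ι] [DecidableEq ι]
    (ψ H : Matrix ι ι (MonoidAlgebra R G)) :
    ∃ (m : ℕ) (P : (Matrix (ι ⊕ (Fin m ⊕ Fin m)) (ι ⊕ (Fin m ⊕ Fin m)) (MonoidAlgebra R G))ˣ),
      P ∈ commutator (Matrix (ι ⊕ (Fin m ⊕ Fin m)) (ι ⊕ (Fin m ⊕ Fin m)) (MonoidAlgebra R G))ˣ ∧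
      NormLE (symPat (P.val * addHyp (Fin m) ψ * sadj w P.val - addHyp (Fin m) H))
        (Real.sqrt 2) := by
  rcases subsingleton_or_nontrivial R with h | h
  · exact ⟨0, 1, one_mem _, normLE_of_subsingleton _ _⟩
  · refine form_to_fin w ψ _ (fun m _ => addHyp m H) (fun m m' _ _ e => ?_) (form_distR w ψ H)
    ext1 i j
    rcases i with i | i | i <;> rcases j with j | j | j <;> simp [addHyp, Matrix.one_apply]

end fin

end TH6.PF
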