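import Pool.Agent.TH6.PF.LBelow
import Pool.Agent.TH57.Thr.Blk

set_option autoImplicit false
set_option linter.unusedSectionVars false
set_option linter.style.haveILetI false

/-! Components of the graph of a matrix which are permuted by an involution of the index set. -/

namespace TH6.PF

open Matrix TH57.Thr TH6.LF Subgroup SimpleGraph

section br

variable {G : Type} [Group G] {κ : Type} (br : κ → κ)

/-- the involution of the index set on the vertices -/
def bv : Vx G κ κ → Vx G κ κ
  | Sum.inl p => Sum.inl (p.1, br p.2)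
  | Sum.inr p => Sum.inr (p.1, br p.2)

/-- the involution of the index set on rows and columns -/
def bp : κ ⊕ κ → κ ⊕ κ
  | Sum.inl i => Sum.inl (br i)
  | Sum.inr i => Sum.inr (br i)

theorem bv_mv (g : G) (v : Vx G κ κ) : bv br (mv g v) = mv g (bv br v) := by
  rcases v with p | p <;> rfl

theorem bs_bp (p : κ ⊕ κ) : (bs (bp br p) : Vx G κ κ) = bv br (bs p) := by
  rcases p with p | p <;> rfl

variable (hbr : ∀ i, br (br i) = i)

include hbr in
theorem bv_bv (v : Vx G κ κ) : bv br (bv br v) = v := by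
  rcases v with p | p <;> simp [bv, hbr]

include hbr in
theorem bp_bp (p : κ ⊕ κ) : bp br (bp br p) = p := by
  rcases p with p | p <;> simp [bp, hbr]

variable (A : Matrix κ κ (MonoidAlgebra ℤ G))
  (hU : ∀ i j h, (A i j).coeff h ≠ 0 → (gr A).Reachable (Sum.inl (1, br i)) (Sum.inr (h, br j)))

include hU in
theorem adj_bv (u v : Vx G κ κ) (h : (gr A).Adj u v) : (gr A).Reachable (bv br u) (bv br v) := by
  rw [gr_adj] at h
  have key : ∀ (p q : G × κ), (A p.2 q.2).coeff (p.1⁻¹ * q.1) ≠ 0 →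
      (gr A).Reachable (Sum.inl (p.1, br p.2)) (Sum.inr (q.1, br q.2)) := by
    intro p q hpq
    have h1 := reachable_mv A p.1 (hU _ _ _ hpq)
    simp only [TH57.Thr.mv, mul_one, mul_inv_cancel_left] at h1
    exact h1
  rcases u with p | p <;> rcases v with q | q
  · exact absurd rfl h
  · exact key p q (by simpa [wt] using h)
  · exact (key q p (by simpa [wt] using h)).symm
  · exact absurd rfl h

include hU in
theorem reachable_bv {u v : Vx G κ κ} (h : (gr A).Reachable u v) :
    (gr A).Reachable (bv br u) (bv br v) := by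
  obtain ⟨w⟩ := h
  induction w with
  | nil => exact Reachable.refl _
  | cons h _ ih => exact (adj_bv br A hU _ _ h).trans ih

/-- reachable up to the involution -/
def R2 (u v : Vx G κ κ) : Prop := (gr A).Reachable u v ∨ (gr A).Reachable u (bv br v)

theorem R2.refl (u : Vx G κ κ) : R2 br A u u := Or.inl (Reachable.refl _)

include hbr hU in
theorem R2.symm {u v : Vx G κ κ} (h : R2 br A u v) : R2 br A v u := by
  rcases h with h | h
  · exact Or.inl h.symm
  · right
    have h1 := reachable_bv br A hU h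
    rw [bv_bv br hbr] at h1
    exact h1.symm

include hbr hU in
theorem R2.trans {u v w : Vx G κ κ} (h : R2 br A u v) (h' : R2 br A v w) : R2 br A u w := by
  rcases h with h | h <;> rcases h' with h' | h'
  · exact Or.inl (h.trans h')
  · exact Or.inr (h.trans h')
  · exact Or.inr (h.trans (reachable_bv br A hU h'))
  · left
    have h1 := reachable_bv br A hU h'
    rw [bv_bv br hbr] at h1
    exact h.trans h1

theorem R2.mv (g : G) {u v : Vx G κ κ} (h : R2 br A u v) :
    R2 br A (TH57.Thr.mv g u) (TH57.Thr.mv g v) := by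
  rcases h with h | h
  · exact Or.inl (reachable_mv A g h)
  · right
    rw [bv_mv]
    exact reachable_mv A g h

include hbr in
theorem R2_bv {u v : Vx G κ κ} : R2 br A u (bv br v) ↔ R2 br A u v := by
  unfold R2
  rw [bv_bv br hbr]
  exact or_comm

/-- the stabiliser of a component together with its image under the involution -/
def st2 (b : Vx G κ κ) : Subgroup G where
  carrier := {g | R2 br A b (TH57.Thr.mv g b)}
  mul_mem' := by
    intro g h hg hh
    change R2 br A b (TH57.Thr.mv (g * h) b)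
    rw [mv_mul]
    exact R2.trans br hbr A hU hg (R2.mv br A g hh)
  one_mem' := by
    change R2 br A b (TH57.Thr.mv 1 b)
    rw [mv_one]
    exact R2.refl br A b
  inv_mem' := by
    intro g hg
    change R2 br A b (TH57.Thr.mv g⁻¹ b)
    have := R2.mv br A g⁻¹ hg
    rw [← mv_mul, inv_mul_cancel, mv_one] at this
    exact R2.symm br hbr A hU this

theorem mem_st2 (b : Vx G κ κ) (g : G) :
    g ∈ st2 br hbr A hU b ↔ R2 br A b (TH57.Thr.mv g b) := Iff.rfl

theorem st2_vc [Fintype κ] [DecidableEq κ]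
    (c : ℝ) (hc0 : 0 < c) (hc : c ^ 2 < 9 / 2) (hA : NormLE A c) (b : Vx G κ κ) :
    IsVC (st2 br hbr A hU b) := by
  classical
  have hle : stab A b ≤ st2 br hbr A hU b := by
    intro g hg
    rw [mem_stab] at hg
    exact Or.inl hg
  refine isVC_of_relIndex (stab A b) (st2 br hbr A hU b) hle ?_ (stab_vc A c hc0 hc hA b)
  have hfin : ((stab A b).subgroupOf (st2 br hbr A hU b)).FiniteIndex := by
    have hkey : ∀ s t : st2 br hbr A hU b, s.1 ∉ stab A b →
        t.1 ∉ stab A b → (s.1)⁻¹ * t.1 ∈ stab A b := by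
      have aux : ∀ s : st2 br hbr A hU b, s.1 ∉ stab A b →
          (gr A).Reachable b (bv br (TH57.Thr.mv s.1 b)) := by
        intro s hs
        rcases s.2 with h | h
        · exact absurd (by rw [mem_stab]; exact h) hs
        · exact h
      intro s t hs ht
      have h1 := reachable_bv br A hU ((aux s hs).symm.trans (aux t ht))
      rw [bv_bv br hbr, bv_bv br hbr] at h1
      have h3 := reachable_mv A (s.1)⁻¹ h1
      rw [← mv_mul, ← mv_mul, inv_mul_cancel, mv_one] at h3
      rw [mem_stab]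
      exact h3
    rw [Subgroup.finiteIndex_iff_finite_quotient]
    refine Finite.of_injective (β := Prop)
      (fun x : (st2 br hbr A hU b) ⧸ ((stab A b).subgroupOf (st2 br hbr A hU b)) =>
        x = QuotientGroup.mk 1) ?_
    intro x y hxy
    induction x using QuotientGroup.induction_on with | H s => ?_
    induction y using QuotientGroup.induction_on with | H t => ?_
    simp only [eq_iff_iff] at hxy
    rw [eq_comm (a := (QuotientGroup.mk s : _ ⧸ _)),
      eq_comm (a := (QuotientGroup.mk t : _ ⧸ _))] at hxy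
    rw [QuotientGroup.eq, QuotientGroup.eq] at hxy
    simp only [inv_one, one_mul, mem_subgroupOf] at hxy
    rw [QuotientGroup.eq, mem_subgroupOf]
    by_cases h : s.1 ∈ stab A b
    · exact mul_mem (inv_mem h) (hxy.1 h)
    · exact hkey s t h (fun h' => h (hxy.2 h'))
  exact hfin.index_ne_zero

include hbr hU in
/-- The structure theorem for patterns with an involution. -/
theorem br_structure_vc [Fintype κ] [DecidableEq κ]
    (c : ℝ) (hc0 : 0 < c) (hc : c ^ 2 < 9 / 2) (hA : NormLE A c) :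
    ∃ (ρ : κ ⊕ κ → κ ⊕ κ) (u : κ ⊕ κ → G) (C : κ ⊕ κ → Subgroup G),
      (∀ b, IsVC (C b)) ∧ (∀ p, ρ (bp br p) = ρ p) ∧ (∀ p, u (bp br p) = u p) ∧
      ∀ i j h, (A i j).coeff h ≠ 0 → ρ (Sum.inl i) = ρ (Sum.inr j) ∧
        u (Sum.inl i) * h * (u (Sum.inr j))⁻¹ ∈ C (ρ (Sum.inl i)) := by
  classical
  let st : Setoid (κ ⊕ κ) :=
    { r := fun p q => ∃ g : G, R2 br A (bs p) (TH57.Thr.mv g (bs q))
      iseqv := by
        refine ⟨fun p => ⟨1, by rw [mv_one]; exact R2.refl br A _⟩, ?_, ?_⟩
        · rintro p q ⟨g, hg⟩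
          refine ⟨g⁻¹, ?_⟩
          have := R2.mv br A g⁻¹ hg
          rw [← mv_mul, inv_mul_cancel, mv_one] at this
          exact R2.symm br hbr A hU this
        · rintro p q r ⟨g, hg⟩ ⟨h, hh⟩
          refine ⟨g * h, ?_⟩
          rw [mv_mul]
          exact R2.trans br hbr A hU hg (R2.mv br A g hh) }
  let ρ : κ ⊕ κ → κ ⊕ κ := fun p => (Quotient.mk st p).out
  have hρ : ∀ p, ∃ g : G, R2 br A (bs (ρ p)) (TH57.Thr.mv g (bs p)) := fun p =>
    Quotient.exact (Quotient.out_eq (Quotient.mk st p))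
  have hρbr : ∀ p, ρ (bp br p) = ρ p := by
    intro p
    have h1 : Quotient.mk st (bp br p) = Quotient.mk st p := by
      apply Quotient.sound
      refine ⟨1, ?_⟩
      rw [mv_one, bs_bp]
      exact R2.symm br hbr A hU ((R2_bv br hbr A).2 (R2.refl br A _))
    simp only [ρ, h1]
  let u : κ ⊕ κ → G := fun p =>
    Classical.epsilon fun g => R2 br A (bs (ρ p)) (TH57.Thr.mv g (bs p))
  have hu : ∀ p, R2 br A (bs (ρ p)) (TH57.Thr.mv (u p) (bs p)) := fun p =>
    Classical.epsilon_spec (hρ p)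
  have hubr : ∀ p, u (bp br p) = u p := by
    intro p
    have h1 : (fun g => R2 br A (bs (ρ (bp br p))) (TH57.Thr.mv g (bs (bp br p))))
        = fun g => R2 br A (bs (ρ p)) (TH57.Thr.mv g (bs p)) := by
      funext g
      rw [hρbr, bs_bp, ← bv_mv]
      exact propext (R2_bv br hbr A)
    simp only [u, h1]
  refine ⟨ρ, u, fun b => st2 br hbr A hU (bs b), fun b => st2_vc br hbr A hU c hc0 hc hA _,
    hρbr, hubr, ?_⟩
  intro i j h hne
  have hadj : R2 br A (bs (Sum.inl i)) (TH57.Thr.mv h (bs (Sum.inr j))) := by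
    left
    apply SimpleGraph.Adj.reachable
    rw [gr_adj]
    simp only [bs, TH57.Thr.mv, wt]
    simpa using hne
  have heq : ρ (Sum.inl i) = ρ (Sum.inr j) := by
    have : Quotient.mk st (Sum.inl i) = Quotient.mk st (Sum.inr j) := Quotient.sound ⟨h, hadj⟩
    simp only [ρ, this]
  refine ⟨heq, ?_⟩
  rw [mem_st2]
  have h1 := hu (Sum.inl i)
  have h2 := R2.mv br A (u (Sum.inl i)) hadj
  have h3 := hu (Sum.inr j)
  rw [← heq] at h3
  have h4 := R2.mv br A (u (Sum.inl i) * h * (u (Sum.inr j))⁻¹) h3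
  have e : TH57.Thr.mv (u (Sum.inl i) * h * (u (Sum.inr j))⁻¹)
      (TH57.Thr.mv (u (Sum.inr j)) (bs (Sum.inr j)))
      = TH57.Thr.mv (u (Sum.inl i)) (TH57.Thr.mv h (bs (Sum.inr j) : Vx G κ κ)) := by
    rw [← mv_mul, ← mv_mul]
    congr 1
    group
  rw [e] at h4
  exact R2.trans br hbr A hU (R2.trans br hbr A hU h1 h2) (R2.symm br hbr A hU h4)

end br

section inv

variable {R : Type} [Ring R] {G : Type} [Group G] {κ : Type} [Fintype κ] [DecidableEq κ]

/-- The inverse of a matrix respects the components of its graph. -/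
theorem inv_reachable (A : Matrix κ κ (MonoidAlgebra ℤ G))
    (M : (Matrix κ κ (MonoidAlgebra R G))ˣ)
    (hM : ∀ i j g, (M.val i j).coeff g ≠ 0 → (A i j).coeff g ≠ 0)
    (j i : κ) (g : G) (hg : (M⁻¹.val j i).coeff g ≠ 0) :
    (gr A).Reachable (Sum.inl (1, i)) (Sum.inr (g⁻¹, j)) := by
  classical
  let st : Setoid (κ ⊕ κ) :=
    { r := fun p q => ∃ g : G, (gr A).Reachable (bs p) (mv g (bs q))
      iseqv := by
        refine ⟨fun p => ⟨1, by rw [mv_one]⟩, ?_, ?_⟩
        · rintro p q ⟨g, hg⟩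
          refine ⟨g⁻¹, ?_⟩
          have := reachable_mv A g⁻¹ hg
          rw [← mv_mul, inv_mul_cancel, mv_one] at this
          exact this.symm
        · rintro p q r ⟨g, hg⟩ ⟨h, hh⟩
          refine ⟨g * h, ?_⟩
          rw [mv_mul]
          exact hg.trans (reachable_mv A g hh) }
  let ρ : κ ⊕ κ → κ ⊕ κ := fun p => (Quotient.mk st p).out
  have hρ : ∀ p, ∃ g : G, (gr A).Reachable (bs (ρ p)) (mv g (bs p)) := fun p =>
    Quotient.exact (Quotient.out_eq (Quotient.mk st p))
  choose u hu using hρ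
  have hst : ∀ i j h, (A i j).coeff h ≠ 0 → ρ (Sum.inl i) = ρ (Sum.inr j) ∧
      u (Sum.inl i) * h * (u (Sum.inr j))⁻¹ ∈ stab A (bs (ρ (Sum.inl i))) := by
    intro i j h hne
    have hadj : (gr A).Reachable (bs (Sum.inl i)) (mv h (bs (Sum.inr j))) := by
      apply SimpleGraph.Adj.reachable
      rw [gr_adj]
      simp only [bs, mv, wt]
      simpa using hne
    have heq : ρ (Sum.inl i) = ρ (Sum.inr j) := by
      have : Quotient.mk st (Sum.inl i) = Quotient.mk st (Sum.inr j) := Quotient.sound ⟨h, hadj⟩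
      simp only [ρ, this]
    refine ⟨heq, ?_⟩
    rw [mem_stab]
    have h1 := hu (Sum.inl i)
    have h2 := reachable_mv A (u (Sum.inl i)) hadj
    have h3 := hu (Sum.inr j)
    rw [← heq] at h3
    have h4 := reachable_mv A (u (Sum.inl i) * h * (u (Sum.inr j))⁻¹) h3
    have e : mv (u (Sum.inl i) * h * (u (Sum.inr j))⁻¹) (mv (u (Sum.inr j)) (bs (Sum.inr j)))
        = mv (u (Sum.inl i)) (mv h (bs (Sum.inr j) : Vx G κ κ)) := by
      rw [← mv_mul, ← mv_mul]
      congr 1
      group
    rw [e] at h4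
    exact (h1.trans h2).trans h4.symm
  set a : κ → G := fun i => u (Sum.inl i) with ha
  set b : κ → G := fun j => u (Sum.inr j) with hb
  set B : (Matrix κ κ (MonoidAlgebra R G))ˣ := dmU R a * M * (dmU R b)⁻¹ with hBd
  have hBs : ∀ i j g, (B.val i j).coeff g ≠ 0 →
      ρ (Sum.inl i) = ρ (Sum.inr j) ∧ g ∈ stab A (bs (ρ (Sum.inl i))) := by
    intro i j g hg
    rw [hBd, Units.val_mul, Units.val_mul, coeff_dmU] at hg
    have h1 := hst i j _ (hM _ _ _ hg)
    refine ⟨h1.1, ?_⟩
    have h2 := h1.2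
    have h3 : u (Sum.inl i) * ((a i)⁻¹ * g * b j) * (u (Sum.inr j))⁻¹ = g := by
      rw [ha, hb]; group
    rwa [h3] at h2
  have hinv := inv_pattern (fun i => ρ (Sum.inl i)) (fun j => ρ (Sum.inr j))
    (fun p => stab A (bs p)) B.val B⁻¹.val B.mul_inv B.inv_mul hBs
  have hBinv : B⁻¹ = dmU R b * M⁻¹ * (dmU R a)⁻¹ := by
    rw [hBd]; group
  have hg' : (B⁻¹.val j i).coeff (b j * g * (a i)⁻¹) ≠ 0 := by
    rw [hBinv, Units.val_mul, Units.val_mul, coeff_dmU]
    have h3 : (b j)⁻¹ * (b j * g * (a i)⁻¹) * a i = g := by group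
    rw [h3]
    exact hg
  obtain ⟨h1, h2⟩ := hinv j i _ hg'
  rw [mem_stab] at h2
  have h3 := hu (Sum.inl i)
  have h4 := hu (Sum.inr j)
  rw [← h1] at h3
  have h5 := h2.trans (reachable_mv A (b j * g * (a i)⁻¹) h3)
  rw [← mv_mul, show b j * g * (a i)⁻¹ * u (Sum.inl i) = b j * g by rw [ha]; group] at h5
  have h6 := reachable_mv A (b j * g)⁻¹ (h5.symm.trans h4)
  rw [← mv_mul, ← mv_mul, inv_mul_cancel, mv_one,
    show (b j * g)⁻¹ * u (Sum.inr j) = g⁻¹ by rw [hb]; group] at h6
  simpa [bs, mv] using h6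

end inv

end TH6.PF
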