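import Pool.Agent.TH6.PF.OddA

set_option autoImplicit false
set_option linter.unusedSectionVars false
set_option linter.style.haveILetI false

/-! Isometries of the hyperbolic quadratic forms over the group ring of any ring with involution
whose support pattern is thin are products of isometries over the group rings of virtually cyclic
subgroups. -/

namespace TH6.PF

open Matrix TH57.Thr TH6.LF

section defs

variable (R : Type) [Ring R] (G : Type) [Group G] (m : Type) [DecidableEq m]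

/-- The matrix of the hyperbolic quadratic form on `(RG)^(m ⊕ m)`. -/
noncomputable def hyp : Matrix (m ⊕ m) (m ⊕ m) (MonoidAlgebra R G) := fromBlocks 0 1 0 0

end defs

section iso

variable {R : Type} [Ring R] [StarRing R] {G : Type} [Group G] {m : Type} [Fintype m]
  [DecidableEq m]

/-- The matrix `x` is an isometry of the hyperbolic `ε`-quadratic form: `x * hyp * x^*` and `hyp`
differ by `χ - ε χ^*` for some `χ` (trivial orientation character). -/
def QIso (ε : ℤ) (x : Matrix (m ⊕ m) (m ⊕ m) (MonoidAlgebra R G)) : Prop :=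
  ∃ χ : Matrix (m ⊕ m) (m ⊕ m) (MonoidAlgebra R G),
    x * hyp R G m * sadj 1 x = hyp R G m + (χ - ε • sadj 1 χ)

variable (R G m) in
/-- The subgroup of the general linear group over `RG` generated by the isometries of the
hyperbolic form over the group rings of the virtually cyclic subgroups. -/
noncomputable def VCIso (ε : ℤ) : Subgroup (Matrix (m ⊕ m) (m ⊕ m) (MonoidAlgebra R G))ˣ :=
  Subgroup.closure {x | ∃ (C : Subgroup G) (y : (Matrix (m ⊕ m) (m ⊕ m) (MonoidAlgebra R C))ˣ),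
    IsVC C ∧ QIso ε y.val ∧ x.val = y.val.map (MonoidAlgebra.mapDomain C.subtype)}

theorem QIso.mul (ε : ℤ) (x y : Matrix (m ⊕ m) (m ⊕ m) (MonoidAlgebra R G)) (hx : QIso ε x)
    (hy : QIso ε y) : QIso ε (x * y) := by
  obtain ⟨χ, h1⟩ := hx
  obtain ⟨ψ, h2⟩ := hy
  refine ⟨χ + x * ψ * sadj 1 x, ?_⟩
  have h3 : x * y * hyp R G m * sadj 1 (x * y)
      = x * (y * hyp R G m * sadj 1 y) * sadj 1 x := by
    rw [sadj_mul]; simp only [Matrix.mul_assoc]
  rw [h3, h2, Matrix.mul_add, Matrix.add_mul, h1, sadj_add, sadj_mul, sadj_mul, sadj_sadj,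
    Matrix.mul_sub, Matrix.sub_mul, Matrix.mul_smul, Matrix.smul_mul, smul_add,
    Matrix.mul_assoc x (sadj 1 ψ)]
  abel

theorem QIso.inv (ε : ℤ) (x : (Matrix (m ⊕ m) (m ⊕ m) (MonoidAlgebra R G))ˣ)
    (hx : QIso ε x.val) : QIso ε x⁻¹.val := by
  obtain ⟨χ, h1⟩ := hx
  refine ⟨-(x⁻¹.val * χ * sadj 1 x⁻¹.val), ?_⟩
  have hs := isUnit_sadj (1 : G →* ℤˣ) x
  have h2 : hyp R G m = x.val * hyp R G m * sadj 1 x.val - (χ - ε • sadj 1 χ) := by
    rw [h1]; abel
  have h3 : x⁻¹.val * (x.val * hyp R G m * sadj 1 x.val) * sadj 1 x⁻¹.val = hyp R G m := by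
    calc _ = (x⁻¹.val * x.val) * hyp R G m * (sadj 1 x.val * sadj 1 x⁻¹.val) := by
          simp only [Matrix.mul_assoc]
      _ = _ := by rw [x.inv_mul, hs.1, Matrix.one_mul, Matrix.mul_one]
  conv_lhs => rw [h2]
  rw [Matrix.mul_sub, Matrix.sub_mul, h3, sadj_neg, sadj_mul, sadj_mul, sadj_sadj,
    Matrix.mul_sub, Matrix.sub_mul, Matrix.mul_smul, Matrix.smul_mul, smul_neg,
    Matrix.mul_assoc x⁻¹.val (sadj 1 χ)]
  abel

/-- the entries of `x * hyp * x^*` -/
theorem q_apply (x : Matrix (m ⊕ m) (m ⊕ m) (MonoidAlgebra R G)) (i j : m ⊕ m) :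
    (x * hyp R G m * sadj 1 x) i j
      = ∑ a, x i (Sum.inl a) * sbar 1 (x j (Sum.inr a)) := by
  have h1 : ∀ a, (x * hyp R G m) i (Sum.inl a) = 0 := by
    intro a
    rw [Matrix.mul_apply, Fintype.sum_sum_type]
    simp [hyp]
  have h2 : ∀ a, (x * hyp R G m) i (Sum.inr a) = x i (Sum.inl a) := by
    intro a
    rw [Matrix.mul_apply, Fintype.sum_sum_type]
    simp [hyp, Matrix.one_apply]
  rw [Matrix.mul_apply, Fintype.sum_sum_type]
  simp only [h1, h2, zero_mul, Finset.sum_const_zero, zero_add, sadj_apply]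

theorem QIso_iff (ε : ℤ) (x : Matrix (m ⊕ m) (m ⊕ m) (MonoidAlgebra R G)) :
    QIso ε x ↔ ∃ χ : Matrix (m ⊕ m) (m ⊕ m) (MonoidAlgebra R G), ∀ i j,
      ∑ a, x i (Sum.inl a) * sbar 1 (x j (Sum.inr a))
        = hyp R G m i j + (χ i j - ε • sbar 1 (χ j i)) := by
  constructor
  · rintro ⟨χ, h⟩
    refine ⟨χ, fun i j => ?_⟩
    rw [← q_apply, h]
    rfl
  · rintro ⟨χ, h⟩
    refine ⟨χ, ?_⟩
    ext1 i j
    rw [q_apply, h]
    rfl

/-- the involution of the index set -/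
def bsw : m ⊕ m → m ⊕ m
  | Sum.inl a => Sum.inr a
  | Sum.inr a => Sum.inl a

theorem bsw_bsw (i : m ⊕ m) : bsw (bsw i) = i := by
  rcases i with i | i <;> rfl

/-- isometries are unitary -/
theorem QIso.unitary (ε : ℤ) (hε : ε * ε = 1) (x : Matrix (m ⊕ m) (m ⊕ m) (MonoidAlgebra R G))
    (hx : QIso ε x) : x * (hyp R G m + ε • sadj 1 (hyp R G m)) * sadj 1 x
      = hyp R G m + ε • sadj 1 (hyp R G m) := by
  obtain ⟨χ, h1⟩ := hx
  have h2 : x * sadj 1 (hyp R G m) * sadj 1 x = sadj 1 (hyp R G m + (χ - ε • sadj 1 χ)) := by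
    rw [← h1, sadj_mul, sadj_mul, sadj_sadj, Matrix.mul_assoc]
  rw [Matrix.mul_add, Matrix.add_mul, h1, Matrix.mul_smul, Matrix.smul_mul, h2, sadj_add,
    sadj_sub, sadj_zsmul, sadj_sadj, smul_add, smul_sub, smul_smul, hε, one_smul]
  abel

theorem J_mul (ε : ℤ) (M : Matrix (m ⊕ m) (m ⊕ m) (MonoidAlgebra R G)) (i j : m ⊕ m) :
    ((hyp R G m + ε • sadj 1 (hyp R G m)) * M) i j
      = (Sum.elim (fun _ => 1) (fun _ => ε) i : ℤ) • M (bsw i) j := by
  have hJ : hyp R G m + ε • sadj 1 (hyp R G m) = fromBlocks 0 1 (ε • 1) 0 := by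
    rw [hyp, sadj_fromBlocks, sadj_zero, sadj_one, Matrix.fromBlocks_smul,
      Matrix.fromBlocks_add]
    simp
  rw [hJ, Matrix.mul_apply, Fintype.sum_sum_type]
  rcases i with i | i
  · simp [Matrix.one_apply, bsw]
  · simp only [Matrix.fromBlocks_apply₂₁, Matrix.fromBlocks_apply₂₂, Matrix.smul_apply,
      Matrix.one_apply, Matrix.zero_apply, zero_mul, Finset.sum_const_zero, add_zero,
      smul_mul_assoc, ← Finset.smul_sum, ite_mul, one_mul, Finset.sum_ite_eq, Finset.mem_univ,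
      if_true, bsw, Sum.elim_inr]

theorem mul_J (ε : ℤ) (M : Matrix (m ⊕ m) (m ⊕ m) (MonoidAlgebra R G)) (i j : m ⊕ m) :
    (M * (hyp R G m + ε • sadj 1 (hyp R G m))) i j
      = (Sum.elim (fun _ => ε) (fun _ => 1) j : ℤ) • M i (bsw j) := by
  have hJ : hyp R G m + ε • sadj 1 (hyp R G m) = fromBlocks 0 1 (ε • 1) 0 := by
    rw [hyp, sadj_fromBlocks, sadj_zero, sadj_one, Matrix.fromBlocks_smul,
      Matrix.fromBlocks_add]
    simp
  rw [hJ, Matrix.mul_apply, Fintype.sum_sum_type]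
  rcases j with j | j
  · simp only [Matrix.fromBlocks_apply₂₁, Matrix.fromBlocks_apply₁₁, Matrix.smul_apply,
      Matrix.one_apply, Matrix.zero_apply, mul_zero, Finset.sum_const_zero, zero_add,
      mul_smul_comm, ← Finset.smul_sum, mul_ite, mul_one, Finset.sum_ite_eq', Finset.mem_univ,
      if_true, bsw, Sum.elim_inl]
  · simp [Matrix.one_apply, bsw]

/-- the supports of an isometry and of its inverse -/
theorem QIso.inv_supp (ε : ℤ) (hε : ε * ε = 1)
    (x : (Matrix (m ⊕ m) (m ⊕ m) (MonoidAlgebra R G))ˣ) (hx : QIso ε x.val) (i j : m ⊕ m) (h : G)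
    (hne : (x.val i j).coeff h ≠ 0) : (x⁻¹.val (bsw j) (bsw i)).coeff h⁻¹ ≠ 0 := by
  set J := hyp R G m + ε • sadj 1 (hyp R G m) with hJ
  have h1 := hx.unitary ε hε x.val
  rw [← hJ] at h1
  have h2 : J * sadj 1 x.val = x⁻¹.val * J := by
    conv_rhs => rw [← h1]
    rw [← Matrix.mul_assoc, ← Matrix.mul_assoc, x.inv_mul, Matrix.one_mul]
  have h3 := congrFun (congrFun h2 (bsw j)) i
  rw [hJ, J_mul, mul_J, bsw_bsw, sadj_apply] at h3
  have hu : ∀ (z : ℤ) (y : MonoidAlgebra R G), z * z = 1 → z • z • y = y := by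
    intro z y hz
    rw [smul_smul, hz, one_smul]
  have hs1 : (Sum.elim (fun _ => 1) (fun _ => ε) (bsw j) : ℤ) *
      (Sum.elim (fun _ => 1) (fun _ => ε) (bsw j) : ℤ) = 1 := by
    rcases j with j | j
    · exact hε
    · rfl
  intro h0
  have h4 := congrArg (fun y => (Sum.elim (fun _ => 1) (fun _ => ε) (bsw j) : ℤ) • y) h3
  simp only [hu _ _ hs1] at h4
  have h5 := congrArg (fun y : MonoidAlgebra R G => y.coeff h⁻¹) h4
  simp only [coeff_sbar, inv_inv, MonoidAlgebra.coeff_smul, Finsupp.smul_apply, h0, smul_zero,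
    MonoidHom.one_apply, Units.val_one, one_smul] at h5
  exact hne (star_eq_zero.1 h5)

end iso

end TH6.PF
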