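import Pool.Agent.TH6.PF.OddB

set_option autoImplicit false
set_option linter.unusedSectionVars false
set_option linter.style.haveILetI false

/-! Isometries with a block pattern are products of isometries over the group rings of the
subgroups of the pattern. -/

namespace TH6.PF

open Matrix TH57.Thr TH6.LF

section gen

variable {R : Type} [Ring R] {G : Type} [Group G] {κ : Type} [Fintype κ] [DecidableEq κ]

/-- A patterned invertible matrix is the product of its blocks. -/
theorem mem_of_blocks {β : Type} [DecidableEq β] (r : κ → β) (C : β → Subgroup G)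
    (M : (Matrix κ κ (MonoidAlgebra R G))ˣ)
    (h1 : ∀ i j g, (M.val i j).coeff g ≠ 0 → r i = r j ∧ g ∈ C (r i))
    (W : Subgroup (Matrix κ κ (MonoidAlgebra R G))ˣ)
    (hW : ∀ i, ∀ x : (Matrix κ κ (MonoidAlgebra R G))ˣ, x.val = rst r {r i} M.val →
      x⁻¹.val = rst r {r i} M⁻¹.val → x ∈ W) : M ∈ W := by
  classical
  have h2 := inv_pattern r r C _ _ M.mul_inv M.inv_mul h1
  have z1 : ∀ i j, r i ≠ r j → M.val i j = 0 := fun i j h =>
    eq_zero_of fun g hg => h (h1 i j g hg).1
  have z2 : ∀ i j, r i ≠ r j → M⁻¹.val i j = 0 := fun i j h =>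
    eq_zero_of fun g hg => h (h2 i j g hg).1
  let U : Finset β → (Matrix κ κ (MonoidAlgebra R G))ˣ := fun T =>
    { val := rst r T M.val
      inv := rst r T M⁻¹.val
      val_inv := by rw [rst_mul r T _ _ z1, Units.mul_inv, rst_one]
      inv_val := by rw [rst_mul r T _ _ z2, Units.inv_mul, rst_one] }
  have key : ∀ T : Finset β, (∀ b ∈ T, ∃ i, r i = b) → U T ∈ W := by
    intro T
    induction T using Finset.induction_on with
    | empty =>
      intro _
      have : U ∅ = 1 := by
        apply Units.ext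
        ext1 i j
        change rst r ∅ M.val i j = _
        simp only [rst, Finset.notMem_empty, if_false]
        rfl
      rw [this]
      exact one_mem _
    | insert b T hb ih =>
      intro hT
      have h3 : U (insert b T) = U {b} * U T := Units.ext (rst_insert r T b hb _ z1)
      rw [h3]
      refine mul_mem ?_ (ih fun b' hb' => hT b' (Finset.mem_insert_of_mem hb'))
      obtain ⟨i₀, hi₀⟩ := hT b (Finset.mem_insert_self _ _)
      subst hi₀
      exact hW i₀ _ rfl rfl
  have h3 : M = U (Finset.univ.image r) := by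
    apply Units.ext
    ext1 i j
    change _ = rst r (Finset.univ.image r) M.val i j
    simp only [rst]
    rw [if_pos (Finset.mem_image_of_mem r (Finset.mem_univ i))]
  rw [h3]
  apply key
  intro b hb
  rw [Finset.mem_image] at hb
  obtain ⟨i, _, hi⟩ := hb
  exact ⟨i, hi⟩

end gen

section iso

variable {R : Type} [Ring R] [StarRing R] {G : Type} [Group G] {m : Type} [Fintype m]
  [DecidableEq m]

theorem comap_sbar {K : Type} [Group K] (f : K →* G) (hf : Function.Injective f)
    (x : MonoidAlgebra R G) :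
    MonoidAlgebra.comapDomain f hf (sbar 1 x) = sbar 1 (MonoidAlgebra.comapDomain f hf x) := by
  ext k
  rw [coeff_sbar]
  simp only [MonoidAlgebra.coeff_comapDomain, Finsupp.comapDomain_apply, coeff_sbar,
    MonoidHom.one_apply, map_inv]

/-- One block of a patterned isometry. -/
theorem block_iso (ε : ℤ) {β : Type} [DecidableEq β] (r : m ⊕ m → β)
    (hr : ∀ a, r (Sum.inl a) = r (Sum.inr a)) (C : β → Subgroup G)
    (M : (Matrix (m ⊕ m) (m ⊕ m) (MonoidAlgebra R G))ˣ)
    (h1 : ∀ i j g, (M.val i j).coeff g ≠ 0 → r i = r j ∧ g ∈ C (r i))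
    (hM : QIso ε M.val) (b : β) (hC : IsVC (C b))
    (x : (Matrix (m ⊕ m) (m ⊕ m) (MonoidAlgebra R G))ˣ)
    (hx : x.val = rst r {b} M.val) (hx' : x⁻¹.val = rst r {b} M⁻¹.val) :
    x ∈ VCIso R G m ε := by
  classical
  have h2 := inv_pattern r r C _ _ M.mul_inv M.inv_mul h1
  have z1 : ∀ i j, r i ≠ r j → M.val i j = 0 := fun i j h =>
    eq_zero_of fun g hg => h (h1 i j g hg).1
  have hb : ∀ i, r i = b ↔ r i ∈ ({b} : Finset β) := fun i => by simp
  have hsupp : ∀ (N : Matrix (m ⊕ m) (m ⊕ m) (MonoidAlgebra R G)),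
      (∀ i j g, (N i j).coeff g ≠ 0 → r i = r j ∧ g ∈ C (r i)) →
      ∀ i j g, ((rst r {b} N) i j).coeff g ≠ 0 → g ∈ C b := by
    intro N hN i j g hg
    simp only [rst] at hg
    by_cases hi : r i = b
    · rw [if_pos ((hb i).1 hi)] at hg
      rw [← hi]
      exact (hN i j g hg).2
    · rw [if_neg (fun h => hi ((hb i).2 h))] at hg
      rw [Matrix.one_apply] at hg
      split_ifs at hg with h5
      · exact one_supp _ g hg
      · exact absurd rfl hg
  have hglim : x ∈ glim R (m ⊕ m) (C b) := by
    apply mem_glim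
    · rw [hx]; exact hsupp _ h1
    · rw [hx']; exact hsupp _ h2
  obtain ⟨y, hy⟩ := hglim
  let f := (C b).subtype
  have hf : Function.Injective f := (C b).subtype_injective
  have hxy : x.val = y.val.map (MonoidAlgebra.mapDomain f) := by rw [← hy]; rfl
  have hyc : ∀ i j, y.val i j = MonoidAlgebra.comapDomain f hf (x.val i j) := by
    intro i j
    rw [hxy, Matrix.map_apply]
    apply MonoidAlgebra.mapDomain_injective hf
    symm
    apply MonoidAlgebra.mapDomain_comapDomain
    intro g hg
    replace hg := Finsupp.mem_support_iff.1 hg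
    by_contra hcon
    apply hg
    rw [MonoidAlgebra.coeff_mapDomain]
    exact Finsupp.mapDomain_of_notMem_range _ _ hcon
  have hyi : ∀ i j, r i = b → y.val i j = MonoidAlgebra.comapDomain f hf (M.val i j) := by
    intro i j hi
    rw [hyc, hx]
    simp only [rst]
    rw [if_pos ((hb i).1 hi)]
  have hyo : ∀ i j, r i ≠ b → y.val i j = (1 : Matrix (m ⊕ m) (m ⊕ m) _) i j := by
    intro i j hi
    rw [hyc, hx]
    simp only [rst]
    rw [if_neg (fun h => hi ((hb i).2 h)), Matrix.one_apply, Matrix.one_apply]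
    split_ifs
    · exact comap_one' _ _
    · exact MonoidAlgebra.comapDomain_zero _ _
  refine Subgroup.subset_closure ⟨C b, y, hC, ?_, hxy⟩
  rw [QIso_iff] at hM ⊢
  obtain ⟨χ, hχ⟩ := hM
  have hhyp : ∀ i j, MonoidAlgebra.comapDomain f hf (hyp R G m i j) = hyp R (C b) m i j := by
    intro i j
    have e1 : MonoidAlgebra.comapDomain f hf (0 : MonoidAlgebra R G) = 0 :=
      MonoidAlgebra.comapDomain_zero _ _
    rcases i with i | i <;> rcases j with j | j
    · exact e1
    · change MonoidAlgebra.comapDomain f hf ((1 : Matrix m m _) i j) = (1 : Matrix m m _) i j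
      rw [Matrix.one_apply, Matrix.one_apply]
      split_ifs
      · exact comap_one' _ _
      · exact e1
    · exact e1
    · exact e1
  have hhyp0 : ∀ i j, r i ≠ r j → hyp R (C b) m i j = 0 := by
    intro i j hij
    rcases i with i | i <;> rcases j with j | j
    · rfl
    · change (1 : Matrix m m _) i j = 0
      rw [Matrix.one_apply_ne]
      rintro rfl
      exact hij (hr i)
    · rfl
    · rfl
  refine ⟨fun i j => if r i = b ∧ r j = b then MonoidAlgebra.comapDomain f hf (χ i j) else 0,
    fun i j => ?_⟩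
  beta_reduce
  by_cases hi : r i = b
  · by_cases hj : r j = b
    · rw [if_pos ⟨hi, hj⟩, if_pos ⟨hj, hi⟩, ← comap_sbar, ← hhyp]
      have h3 : ∑ a, y.val i (Sum.inl a) * sbar 1 (y.val j (Sum.inr a))
          = MonoidAlgebra.comapDomain f hf
            (∑ a, M.val i (Sum.inl a) * sbar 1 (M.val j (Sum.inr a))) := by
        rw [comap_sum']
        refine Finset.sum_congr rfl fun a _ => ?_
        rw [hyi _ _ hi, hyi _ _ hj, ← comap_sbar, ← comap_mul_left]
        intro g hg
        have := (h1 _ _ _ hg).2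
        rw [hi] at this
        simpa [f] using this
      rw [h3, hχ]
      let F : MonoidAlgebra R G →+ MonoidAlgebra R (C b) :=
        MonoidAlgebra.comapDomainAddMonoidHom (R := R) f hf
      change F (hyp R G m i j + (χ i j - ε • sbar 1 (χ j i)))
        = F (hyp R G m i j) + (F (χ i j) - ε • F (sbar 1 (χ j i)))
      rw [map_add, map_sub, map_zsmul]
    · rw [if_neg (fun h => hj h.2), if_neg (fun h => hj h.1), sbar_zero, smul_zero, sub_zero,
        add_zero, hhyp0 i j (fun h => hj (by rw [← h, hi]))]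
      refine Finset.sum_eq_zero fun a _ => ?_
      rw [hyo _ _ hj]
      by_cases h4 : j = Sum.inr a
      · have h5 : y.val i (Sum.inl a) = 0 := by
          rw [hyi _ _ hi, z1 i (Sum.inl a) (fun h => hj (by rw [h4, ← hr a, ← h, hi]))]
          exact MonoidAlgebra.comapDomain_zero _ _
        rw [h5, zero_mul]
      · rw [Matrix.one_apply_ne h4, sbar_zero, mul_zero]
  · by_cases hj : r j = b
    · rw [if_neg (fun h => hi h.1), if_neg (fun h => hi h.2), sbar_zero, smul_zero, sub_zero,
        add_zero, hhyp0 i j (fun h => hi (by rw [h, hj]))]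
      refine Finset.sum_eq_zero fun a _ => ?_
      rw [hyo _ _ hi]
      by_cases h4 : i = Sum.inl a
      · have h5 : y.val j (Sum.inr a) = 0 := by
          rw [hyi _ _ hj, z1 j (Sum.inr a) (fun h => hi (by rw [h4, hr a, ← h, hj]))]
          exact MonoidAlgebra.comapDomain_zero _ _
        rw [h5, sbar_zero, mul_zero]
      · rw [Matrix.one_apply_ne h4, zero_mul]
    · rw [if_neg (fun h => hi h.1), if_neg (fun h => hi h.2), sbar_zero, smul_zero, sub_zero,
        add_zero]
      have h6 := q_apply (1 : Matrix (m ⊕ m) (m ⊕ m) (MonoidAlgebra R (C b))) i j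
      rw [sadj_one, Matrix.one_mul, Matrix.mul_one] at h6
      rw [h6]
      refine Finset.sum_congr rfl fun a _ => ?_
      rw [hyo _ _ hi, hyo _ _ hj]

/-- **Patterned isometries.** -/
theorem mem_VCIso (ε : ℤ) {β : Type} [DecidableEq β] (r : m ⊕ m → β)
    (hr : ∀ a, r (Sum.inl a) = r (Sum.inr a)) (C : β → Subgroup G) (hC : ∀ i, IsVC (C (r i)))
    (M : (Matrix (m ⊕ m) (m ⊕ m) (MonoidAlgebra R G))ˣ)
    (h1 : ∀ i j g, (M.val i j).coeff g ≠ 0 → r i = r j ∧ g ∈ C (r i))
    (hM : QIso ε M.val) : M ∈ VCIso R G m ε :=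
  mem_of_blocks r C M h1 _ fun i x hx hx' => block_iso ε r hr C M h1 hM (r i) (hC i) x hx hx'

end iso

end TH6.PF
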