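import Pool.Agent.TH6.PF.OddC

set_option autoImplicit false
set_option linter.unusedSectionVars false
set_option linter.style.haveILetI false

/-! Isometries of the hyperbolic quadratic forms whose support pattern has operator norm less than
`3 / √2` are products of isometries over the group rings of virtually cyclic subgroups. -/

namespace TH6.PF

open Matrix TH57.Thr TH6.LF

variable {R : Type} [Ring R] [StarRing R] {G : Type} [Group G] {m : Type} [Fintype m]
  [DecidableEq m]

theorem dmU_apply (a : m ⊕ m → G) (i j : m ⊕ m) :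
    (dmU R a).val i j = if i = j then MonoidAlgebra.single (a i) 1 else 0 := by
  change (Matrix.diagonal fun i => MonoidAlgebra.single (a i) (1 : R)) i j = _
  rw [Matrix.diagonal_apply]

theorem QIso_dmU (ε : ℤ) (a : m ⊕ m → G) (ha : ∀ c, a (Sum.inl c) = a (Sum.inr c)) :
    QIso ε (dmU R a).val := by
  rw [QIso_iff]
  refine ⟨0, fun i j => ?_⟩
  have e0 : hyp R G m i j + ((0 : Matrix (m ⊕ m) (m ⊕ m) (MonoidAlgebra R G)) i j
      - ε • sbar 1 ((0 : Matrix (m ⊕ m) (m ⊕ m) (MonoidAlgebra R G)) j i)) = hyp R G m i j := by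
    simp [sbar_zero]
  rw [e0]
  rcases i with i | i
  · rw [Finset.sum_eq_single i]
    · rw [dmU_apply, if_pos rfl, dmU_apply]
      rcases j with j | j
      · rw [if_neg (by simp), sbar_zero, mul_zero]
        rfl
      · by_cases h : j = i
        · subst h
          rw [if_pos rfl, sbar_single, MonoidHom.one_apply, star_one, Units.val_one, one_smul,
            MonoidAlgebra.single_mul_single, ← ha, mul_inv_cancel, one_mul,
            ← MonoidAlgebra.one_def]
          exact (Matrix.one_apply_eq j).symm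
        · rw [if_neg (fun h' => h (Sum.inr.inj h')), sbar_zero, mul_zero]
          exact (Matrix.one_apply_ne (Ne.symm h)).symm
    · intro b _ hb
      rw [dmU_apply, if_neg (fun h' => hb (Sum.inl.inj h').symm), zero_mul]
    · intro h; exact absurd (Finset.mem_univ i) h
  · have e1 : hyp R G m (Sum.inr i) j = 0 := by
      rcases j with j | j <;> rfl
    rw [e1]
    refine Finset.sum_eq_zero fun b _ => ?_
    rw [dmU_apply, if_neg (by simp), zero_mul]

theorem dmU_mem_VCIso (ε : ℤ) (a : m ⊕ m → G) (ha : ∀ c, a (Sum.inl c) = a (Sum.inr c)) :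
    dmU R a ∈ VCIso R G m ε := by
  classical
  refine mem_VCIso ε (β := m) (Sum.elim id id) (fun _ => rfl)
    (fun c => Subgroup.zpowers (a (Sum.inl c))) (fun i => isVC_zpowers _) _ ?_
    (QIso_dmU ε a ha)
  intro i j g hg
  rw [dmU_apply] at hg
  split_ifs at hg with h
  · subst h
    refine ⟨rfl, ?_⟩
    rw [MonoidAlgebra.coeff_single, Finsupp.single_apply] at hg
    split_ifs at hg with h3
    · rw [← h3]
      rcases i with i | i
      · exact Subgroup.mem_zpowers _
      · rw [← ha]; exact Subgroup.mem_zpowers _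
    · exact absurd rfl hg
  · exact absurd rfl hg

theorem QIso_map (ε : ℤ) (x : Matrix (m ⊕ m) (m ⊕ m) (MonoidAlgebra R G)) (hx : QIso ε x) :
    QIso ε (x.map (MonoidAlgebra.mapDomainRingHom R (1 : G →* G))) := by
  rw [QIso_iff] at hx ⊢
  obtain ⟨χ, hχ⟩ := hx
  let φ : MonoidAlgebra R G →+* MonoidAlgebra R G :=
    MonoidAlgebra.mapDomainRingHom R (1 : G →* G)
  have hφ : ∀ y, sbar 1 (φ y) = φ (sbar 1 y) := by
    intro y
    exact sbar_mapDomain 1 (1 : G →* G) y
  refine ⟨χ.map φ, fun i j => ?_⟩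
  have h1 := congrArg φ (hχ i j)
  rw [map_sum, map_add, map_sub, map_zsmul] at h1
  have h2 : φ (hyp R G m i j) = hyp R G m i j := by
    rcases i with i | i <;> rcases j with j | j
    · exact map_zero φ
    · change φ ((1 : Matrix m m _) i j) = (1 : Matrix m m _) i j
      rw [Matrix.one_apply]
      split_ifs
      · exact map_one φ
      · exact map_zero φ
    · exact map_zero φ
    · exact map_zero φ
  rw [h2] at h1
  change ∑ a, φ (x i (Sum.inl a)) * sbar 1 (φ (x j (Sum.inr a)))
    = hyp R G m i j + (φ (χ i j) - ε • sbar 1 (φ (χ j i)))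
  rw [hφ, ← h1]
  refine Finset.sum_congr rfl fun a _ => ?_
  rw [hφ, map_mul]

/-- **Thin isometries.** -/
theorem odd_core (ε : ℤ) (hε : ε * ε = 1)
    (α : (Matrix (m ⊕ m) (m ⊕ m) (MonoidAlgebra R G))ˣ) (hα : QIso ε α.val)
    (A : Matrix (m ⊕ m) (m ⊕ m) (MonoidAlgebra ℤ G))
    (hsupp : ∀ i j g, (A i j).coeff g ≠ 0 ↔ (α.val i j).coeff g ≠ 0)
    (c : ℝ) (hc0 : 0 < c) (hc : c ^ 2 < 9 / 2) (hA : NormLE A c) : α ∈ VCIso R G m ε := by
  classical
  have hU : ∀ i j h, (A i j).coeff h ≠ 0 →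
      (gr A).Reachable (Sum.inl (1, bsw i)) (Sum.inr (h, bsw j)) := by
    intro i j h hne
    have h1 := hα.inv_supp ε hε α i j h ((hsupp i j h).1 hne)
    have h2 := inv_reachable A α (fun i j g h => (hsupp i j g).2 h) (bsw j) (bsw i) h⁻¹ h1
    rwa [inv_inv] at h2
  obtain ⟨ρ, u, C, hC, hρ, hu, hst⟩ := br_structure_vc bsw bsw_bsw A hU c hc0 hc hA
  set a : m ⊕ m → G := fun i => u (Sum.inl i) with ha
  set b : m ⊕ m → G := fun j => u (Sum.inr j) with hb
  have haa : ∀ c, a (Sum.inl c) = a (Sum.inr c) := fun c => (hu (Sum.inl (Sum.inl c))).symm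
  have hbb : ∀ c, b (Sum.inl c) = b (Sum.inr c) := fun c => (hu (Sum.inr (Sum.inl c))).symm
  set B : (Matrix (m ⊕ m) (m ⊕ m) (MonoidAlgebra R G))ˣ := dmU R a * α * (dmU R b)⁻¹ with hBd
  have hBs : ∀ i j g, (B.val i j).coeff g ≠ 0 →
      ρ (Sum.inl i) = ρ (Sum.inr j) ∧ g ∈ C (ρ (Sum.inl i)) := by
    intro i j g hg
    rw [hBd, Units.val_mul, Units.val_mul, coeff_dmU] at hg
    have h1 := hst i j _ ((hsupp _ _ _).2 hg)
    refine ⟨h1.1, ?_⟩
    have h2 := h1.2
    have h3 : u (Sum.inl i) * ((a i)⁻¹ * g * b j) * (u (Sum.inr j))⁻¹ = g := by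
      rw [ha, hb]; group
    rwa [h3] at h2
  have hBQ : QIso ε B.val := by
    rw [hBd, Units.val_mul, Units.val_mul]
    exact ((QIso_dmU ε a haa).mul ε _ _ hα).mul ε _ _ ((QIso_dmU ε b hbb).inv ε _)
  let φ : MonoidAlgebra R G →+* MonoidAlgebra R G :=
    MonoidAlgebra.mapDomainRingHom R (1 : G →* G)
  have hφ : ∀ x g, (φ x).coeff g ≠ 0 → g = 1 := by
    intro x g hg
    by_contra h
    apply hg
    change (MonoidAlgebra.mapDomain (1 : G →* G) x).coeff g = 0
    rw [MonoidAlgebra.coeff_mapDomain]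
    apply Finsupp.mapDomain_of_notMem_range
    rintro ⟨y, hy⟩
    exact h hy.symm
  let T : (Matrix (m ⊕ m) (m ⊕ m) (MonoidAlgebra R G))ˣ := Units.map (mpm φ) B⁻¹
  have hTv : T.val = B⁻¹.val.map φ := rfl
  have hTQ : QIso ε T.val := QIso_map ε _ (hBQ.inv ε B)
  have hT : T ∈ VCIso R G m ε := by
    refine mem_VCIso ε (β := Unit) (fun _ => ()) (fun _ => rfl) (fun _ => ⊥)
      (fun _ => isVC_bot) T ?_ hTQ
    intro i j g hg
    refine ⟨rfl, ?_⟩
    have := hφ (B⁻¹.val i j) g hg
    rw [this]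
    exact one_mem _
  have hinv := inv_pattern (fun i => ρ (Sum.inl i)) (fun j => ρ (Sum.inr j)) C
    B.val B⁻¹.val B.mul_inv B.inv_mul hBs
  have hBT : B * T ∈ VCIso R G m ε := by
    refine mem_VCIso ε (fun i => ρ (Sum.inl i)) (fun c => (hρ (Sum.inl (Sum.inl c))).symm) C
      (fun i => hC _) _ ?_ ?_
    · intro i k g hg
      rw [Units.val_mul, Matrix.mul_apply] at hg
      obtain ⟨j, hj⟩ : ∃ j, (B.val i j * T.val j k).coeff g ≠ 0 := by
        by_contra hcon
        push Not at hcon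
        apply hg
        have h1 : (∑ j, B.val i j * T.val j k).coeff g
            = ∑ j, (B.val i j * T.val j k).coeff g := by
          rw [MonoidAlgebra.coeff_sum, Finsupp.finsetSum_apply]
        rw [h1]
        exact Finset.sum_eq_zero fun j _ => hcon j
      have h2 : B⁻¹.val j k ≠ 0 := by
        intro h0
        apply hj
        change (B.val i j * φ (B⁻¹.val j k)).coeff g = 0
        rw [h0, map_zero, mul_zero]
        rfl
      have h3 : ρ (Sum.inr j) = ρ (Sum.inl k) := by
        by_contra h4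
        apply h2
        exact eq_zero_of fun g hg => h4 (hinv j k g hg).1
      have h5 : T.val j k = MonoidAlgebra.single 1 ((T.val j k).coeff 1) := by
        ext g'
        rw [MonoidAlgebra.coeff_single, Finsupp.single_apply]
        split_ifs with h6
        · rw [h6]
        · by_contra h7
          exact h6 (hφ _ g' h7).symm
      rw [h5, MonoidAlgebra.coeff_mul_single_apply, inv_one, mul_one] at hj
      have h6 := hBs i j g (left_ne_zero_of_mul hj)
      exact ⟨h6.1.trans h3, h6.2⟩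
    · rw [Units.val_mul]
      exact hBQ.mul ε _ _ hTQ
  have : α = (dmU R a)⁻¹ * ((B * T) * T⁻¹) * dmU R b := by
    rw [hBd]; group
  rw [this]
  exact mul_mem (mul_mem (inv_mem (dmU_mem_VCIso ε a haa)) (mul_mem hBT (inv_mem hT)))
    (dmU_mem_VCIso ε b hbb)

/-- Isometries with thin support pattern. -/
theorem thin_iso (ε : ℤ) (hε : ε = 1 ∨ ε = -1)
    (α : (Matrix (m ⊕ m) (m ⊕ m) (MonoidAlgebra R G))ˣ) (hα : QIso ε α.val)
    (c : ℝ) (hc0 : 0 < c) (hc : c ^ 2 < 9 / 2) (hA : ThinLE α.val c) : α ∈ VCIso R G m ε :=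
  odd_core ε (by rcases hε with rfl | rfl <;> norm_num) α hα (pat α.val)
    (fun i j g => pat_ne _ _ _ _) c hc0 hc hA

section tf

variable (R G m) in
/-- The subgroup of the general linear group over `RG` generated by the isometries of the
hyperbolic form over the group rings of the cyclic subgroups. -/
noncomputable def CycIso (ε : ℤ) : Subgroup (Matrix (m ⊕ m) (m ⊕ m) (MonoidAlgebra R G))ˣ :=
  Subgroup.closure {x | ∃ (C : Subgroup G) (y : (Matrix (m ⊕ m) (m ⊕ m) (MonoidAlgebra R C))ˣ),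
    IsCyclic C ∧ QIso ε y.val ∧ x.val = y.val.map (MonoidAlgebra.mapDomain C.subtype)}

theorem VCIso_le_CycIso (ε : ℤ) (htf : ∀ g : G, ∀ n : ℕ, 0 < n → g ^ n = 1 → g = 1) :
    VCIso R G m ε ≤ CycIso R G m ε := by
  refine Subgroup.closure_mono ?_
  rintro x ⟨C, y, hC, h1, h2⟩
  obtain ⟨t, ht⟩ := hC
  exact ⟨C, y, isCyclic_of_finiteIndex (fun g n hn h => Subtype.ext
    (htf g.1 n hn (by simpa using congrArg Subtype.val h))) (Subgroup.zpowers t)
    inferInstance ht, h1, h2⟩

end tf

end TH6.PF
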