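import Pool.Agent.TH6.PF.Pat
import Pool.Agent.TH6.LF.DistF

set_option autoImplicit false
set_option linter.unusedSectionVars false
set_option linter.style.haveILetI false

/-! Linear models of a matrix over the group ring of any ring, with small support patterns. -/

namespace TH6.PF

open Matrix TH57.Thr TH6.LF

variable {R : Type} [Ring R] [Nontrivial R] {G : Type} [Group G]

/-- A linear model of the matrix `B`. -/
def Mod (r γ β : ℝ) {p n : Type} [Fintype p] [Fintype n]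
    (B : Matrix p n (MonoidAlgebra R G)) : Prop :=
  ∃ (q : Type) (_ : Fintype q) (_ : DecidableEq q) (X : Matrix p q (MonoidAlgebra R G))
    (Y : Matrix q n (MonoidAlgebra R G)) (Z W : Matrix q q (MonoidAlgebra R G)),
    Z ∈ El (R := MonoidAlgebra R G) q ∧ Z * W = 1 ∧ W * Z = 1 ∧ -(X * W * Y) = B ∧
    3 ≤ Fintype.card q ∧
    ∀ (x : p → MonoidAlgebra ℝ G) (y : n → MonoidAlgebra ℝ G) (a b : q → MonoidAlgebra ℝ G),
      r * (2 * |ip (x ᵥ* tp X) a + ip (b ᵥ* tp Z) a + ip (b ᵥ* tp Y) y|) ≤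
        β * normSq x + 2 * normSq y + γ * (normSq a + normSq b)

section mod

variable {p n m : Type} [Fintype p] [Fintype n] [Fintype m] [DecidableEq p] [DecidableEq n]
  [DecidableEq m]

theorem Mod.mono {r γ β β' : ℝ} {B : Matrix p n (MonoidAlgebra R G)} (h : Mod r γ β B)
    (hb : β ≤ β') : Mod r γ β' B := by
  obtain ⟨q, i1, i2, X, Y, Z, W, h1, h2, h3, h4, h5, h6⟩ := h
  refine ⟨q, i1, i2, X, Y, Z, W, h1, h2, h3, h4, h5, fun x y a b => (h6 x y a b).trans ?_⟩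
  have := mul_le_mul_of_nonneg_right hb (normSq_nonneg x)
  linarith

theorem vm_fromCols {q : Type} [Fintype q] (B : Matrix p n (MonoidAlgebra R G))
    (x : p → MonoidAlgebra ℝ G) :
    x ᵥ* tp (fromCols B (0 : Matrix p q (MonoidAlgebra R G))) = Sum.elim (x ᵥ* tp B) 0 := by
  rw [tp_fromCols, tp_zero]
  funext j
  rcases j with j | j <;> simp [Matrix.vecMul, dotProduct]

theorem vm_fromRows {q : Type} [Fintype q] (B : Matrix p n (MonoidAlgebra R G))
    (x : p ⊕ q → MonoidAlgebra ℝ G) :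
    x ᵥ* tp (fromRows B (0 : Matrix q n (MonoidAlgebra R G))) = (x ∘ Sum.inl) ᵥ* tp B := by
  rw [tp_fromRows, tp_zero, Matrix.vecMul_fromRows, Matrix.vecMul_zero, add_zero]

theorem vm_fromRows' {q : Type} [Fintype q] (B : Matrix p n (MonoidAlgebra R G))
    (x : q ⊕ p → MonoidAlgebra ℝ G) :
    x ᵥ* tp (fromRows (0 : Matrix q n (MonoidAlgebra R G)) B) = (x ∘ Sum.inr) ᵥ* tp B := by
  rw [tp_fromRows, tp_zero, Matrix.vecMul_fromRows, Matrix.vecMul_zero, zero_add]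

theorem mod_base {r γ : ℝ} (hr0 : 0 < r) (hr : r ^ 2 = 2) (hγ : 3 ≤ γ)
    (B : Matrix p n (MonoidAlgebra R G)) (hB : PS B 2) : Mod r γ 2 B := by
  refine ⟨n ⊕ Fin 3, inferInstance, inferInstance, fromCols B 0, fromRows (-1) 0, 1, 1,
    one_mem _, by rw [Matrix.one_mul], by rw [Matrix.one_mul], ?_, by simp, ?_⟩
  · rw [Matrix.mul_one, Matrix.fromCols_mul_fromRows]
    simp
  · intro x y a b
    rw [vm_fromCols, tp_one, Matrix.vecMul_one, vm_fromRows, tp_neg, tp_one, Matrix.vecMul_one,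
      ip_elim, ip_elim b a]
    have e4 : (Sum.elim (x ᵥ* tp B) (0 : Fin 3 → MonoidAlgebra ℝ G)) ∘ Sum.inl
        = x ᵥ* tp B := rfl
    have e5 : (Sum.elim (x ᵥ* tp B) (0 : Fin 3 → MonoidAlgebra ℝ G)) ∘ Sum.inr = 0 := rfl
    rw [e4, e5, ip_zero_left, normSq_sum a, normSq_sum b]
    set a1 := a ∘ Sum.inl
    set a2 := a ∘ Sum.inr
    set b1 := b ∘ Sum.inl
    set b2 := b ∘ Sum.inr
    have f1 := rip hr0 hr (x ᵥ* tp B) a1 1 one_pos
    have f2 := rip hr0 hr b1 a1 2 two_pos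
    have f3 := rip hr0 hr b1 y 1 one_pos
    have f4 := rip hr0 hr b2 a2 1 one_pos
    have f5 := hB x
    have g1 := normSq_nonneg a1
    have g2 := normSq_nonneg a2
    have g3 := normSq_nonneg b1
    have g4 := normSq_nonneg b2
    have habs : |ip (x ᵥ* tp B) a1 + 0 + (ip b1 a1 + ip b2 a2) + ip b1 y| ≤
        |ip (x ᵥ* tp B) a1| + |ip b1 a1| + |ip b2 a2| + |ip b1 y| := by
      have t1 := abs_add_le (ip (x ᵥ* tp B) a1 + 0 + (ip b1 a1 + ip b2 a2)) (ip b1 y)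
      have t2 := abs_add_le (ip (x ᵥ* tp B) a1 + 0) (ip b1 a1 + ip b2 a2)
      have t3 := abs_add_le (ip b1 a1) (ip b2 a2)
      rw [add_zero] at t2 t1 ⊢
      linarith
    have hm := mul_le_mul_of_nonneg_left habs (show 0 ≤ r * 2 by positivity)
    have h1 : γ * (normSq a1 + normSq a2 + (normSq b1 + normSq b2))
        ≥ 3 * (normSq a1 + normSq a2 + (normSq b1 + normSq b2)) :=
      mul_le_mul_of_nonneg_right hγ (by positivity)
    norm_num at f1 f2 f3 f4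
    nlinarith

theorem el_ext2 {S : Type} [Ring S] {κ μ : Type} [Fintype κ] [DecidableEq κ] [Fintype μ]
    [DecidableEq μ] (F : Matrix κ κ S) (hF : F ∈ El (R := S) κ) :
    fromBlocks (1 : Matrix μ μ S) 0 0 F ∈ El (R := S) (μ ⊕ κ) := by
  have h := el_reindex (Equiv.sumComm μ κ) _ (el_ext (μ := μ) F hF)
  convert h using 1
  ext i j
  rcases i with i | i <;> rcases j with j | j <;> rfl

theorem mod_step {r γ β w : ℝ} (hr0 : 0 < r) (hr : r ^ 2 = 2) (hβ : β < γ)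
    (hδ : 0 < γ - 2 / (γ - β)) (P : Matrix m p (MonoidAlgebra R G)) (hP : PS P w)
    (B : Matrix p n (MonoidAlgebra R G)) (h : Mod r γ β B) :
    Mod r γ (2 * w / (γ - 2 / (γ - β))) (P * B) := by
  obtain ⟨q, i1, i2, X, Y, Z, W, h1, h2, h3, h4, h5, h6⟩ := h
  refine ⟨p ⊕ q, inferInstance, inferInstance, fromCols (-P) 0, fromRows 0 Y,
    fromBlocks 1 X 0 Z, fromBlocks 1 (-(X * W)) 0 W, ?_, ?_, ?_, ?_, ?_, ?_⟩
  · have e : fromBlocks 1 X 0 Z = fromBlocks (1 : Matrix p p (MonoidAlgebra R G)) 0 0 Z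
        * (1 + fromBlocks 0 X 0 0) := by
      rw [← Matrix.fromBlocks_one, Matrix.fromBlocks_add, Matrix.fromBlocks_multiply]
      simp
    rw [e]
    refine mul_mem (el_ext2 Z h1) (el_unip (Finset.univ.filter fun v : p ⊕ q => v.isLeft) _ ?_)
    rintro (i | i) (j | j) h <;> simp at h ⊢
  · rw [Matrix.fromBlocks_multiply, ← Matrix.fromBlocks_one]
    simp [h2]
  · rw [Matrix.fromBlocks_multiply, ← Matrix.fromBlocks_one]
    simp [h3, Matrix.mul_assoc]
  · rw [Matrix.fromCols_mul_fromBlocks, Matrix.fromCols_mul_fromRows, ← h4]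
    simp [Matrix.mul_assoc]
  · rw [Fintype.card_sum]; omega
  · intro x y a b
    have e2 : b ᵥ* tp (fromBlocks (1 : Matrix p p (MonoidAlgebra R G)) X 0 Z)
        = Sum.elim (b ∘ Sum.inl) ((b ∘ Sum.inl) ᵥ* tp X + (b ∘ Sum.inr) ᵥ* tp Z) := by
      rw [tp_fromBlocks, tp_one, tp_zero]
      conv_lhs => rw [← Sum.elim_comp_inl_inr b]
      rw [Matrix.vecMul_fromBlocks]
      simp
    rw [vm_fromCols, tp_neg, e2, vm_fromRows', ip_elim, ip_elim (Sum.elim _ _) a]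
    have e4 : (Sum.elim (x ᵥ* tp P) (0 : q → MonoidAlgebra ℝ G)) ∘ Sum.inl
        = x ᵥ* tp P := rfl
    have e5 : (Sum.elim (x ᵥ* tp P) (0 : q → MonoidAlgebra ℝ G)) ∘ Sum.inr = 0 := rfl
    have e6 : (Sum.elim (b ∘ Sum.inl) ((b ∘ Sum.inl) ᵥ* tp X + (b ∘ Sum.inr) ᵥ* tp Z))
        ∘ Sum.inl = b ∘ Sum.inl := rfl
    have e7 : (Sum.elim (b ∘ Sum.inl) ((b ∘ Sum.inl) ᵥ* tp X + (b ∘ Sum.inr) ᵥ* tp Z))
        ∘ Sum.inr = (b ∘ Sum.inl) ᵥ* tp X + (b ∘ Sum.inr) ᵥ* tp Z := rfl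
    rw [e4, e5, e6, e7, ip_zero_left, normSq_sum a, normSq_sum b, ip_add_left]
    set a1 := a ∘ Sum.inl
    set a2 := a ∘ Sum.inr
    set b1 := b ∘ Sum.inl
    set b2 := b ∘ Sum.inr
    have f0 := h6 b1 y a2 b2
    have hγβ : 0 < γ - β := by linarith
    have f1 := rip hr0 hr b1 a1 (γ - β) hγβ
    have f2 := rip hr0 hr (x ᵥ* tp P) a1 (2 / (γ - 2 / (γ - β))) (by positivity)
    have f3 := hP x
    set δ := γ - 2 / (γ - β) with hδd
    have f4 : 2 / (2 / δ) = δ := by field_simp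
    rw [f4] at f2
    have f5 : 2 / δ * normSq (x ᵥ* tp P) ≤ 2 * w / δ * normSq x := by
      have := mul_le_mul_of_nonneg_left f3 (show 0 ≤ 2 / δ by positivity)
      calc _ ≤ 2 / δ * (w * normSq x) := this
        _ = _ := by ring
    have habs : |ip (x ᵥ* tp P) a1 + 0 + (ip b1 a1 + (ip (b1 ᵥ* tp X) a2
        + ip (b2 ᵥ* tp Z) a2)) + ip (b2 ᵥ* tp Y) y| ≤
        |ip (x ᵥ* tp P) a1| + |ip b1 a1| + |ip (b1 ᵥ* tp X) a2
        + ip (b2 ᵥ* tp Z) a2 + ip (b2 ᵥ* tp Y) y| := by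
      have t1 := abs_add_le (ip (x ᵥ* tp P) a1) (ip b1 a1 + (ip (b1 ᵥ* tp X) a2
        + ip (b2 ᵥ* tp Z) a2 + ip (b2 ᵥ* tp Y) y))
      have t2 := abs_add_le (ip b1 a1) (ip (b1 ᵥ* tp X) a2
        + ip (b2 ᵥ* tp Z) a2 + ip (b2 ᵥ* tp Y) y)
      have t3 : ip (x ᵥ* tp P) a1 + 0 + (ip b1 a1 + (ip (b1 ᵥ* tp X) a2
        + ip (b2 ᵥ* tp Z) a2)) + ip (b2 ᵥ* tp Y) y
        = ip (x ᵥ* tp P) a1 + (ip b1 a1 + (ip (b1 ᵥ* tp X) a2
        + ip (b2 ᵥ* tp Z) a2 + ip (b2 ᵥ* tp Y) y)) := by ring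
      rw [t3]
      linarith
    have hm := mul_le_mul_of_nonneg_left habs (show 0 ≤ r * 2 by positivity)
    have h7 : δ * normSq a1 = γ * normSq a1 - 2 / (γ - β) * normSq a1 := by
      rw [hδd]; ring
    rw [h7] at f2
    linarith

theorem mod_reduce {r γ : ℝ} (hr0 : 0 < r) (hr : r ^ 2 = 2) (hγ : 3 < γ)
    (B : Matrix p n (MonoidAlgebra R G)) (h : Mod r γ 2 B) : Mod r γ 1 B := by
  set η : ℝ := (γ - 3) / ((γ - 2) * (γ + 1)) with hη
  have hη0 : 0 < η := div_pos (by linarith) (mul_pos (by linarith) (by linarith))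
  have key : ∀ k : ℕ, ∀ β : ℝ, β ≤ 2 → β ≤ 1 + k * η → Mod r γ β B → Mod r γ 1 B := by
    intro k
    induction k with
    | zero =>
      intro β _ hb hB
      exact hB.mono (by simpa using hb)
    | succ k ih =>
      intro β hβ2 hb hB
      by_cases h1 : β ≤ 1
      · exact hB.mono h1
      push Not at h1
      have hγβ : 0 < γ - β := by linarith
      have hD : 0 < γ * (γ - β) - 2 := by nlinarith
      have hδ : γ - 2 / (γ - β) = (γ * (γ - β) - 2) / (γ - β) := by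
        field_simp
      have hδ0 : 0 < γ - 2 / (γ - β) := by rw [hδ]; positivity
      have hstep := mod_step hr0 hr (by linarith) hδ0 (1 : Matrix p p (MonoidAlgebra R G))
        PS_one B hB
      rw [Matrix.one_mul, mul_one, hδ] at hstep
      have hval : 2 / ((γ * (γ - β) - 2) / (γ - β)) = 2 * (γ - β) / (γ * (γ - β) - 2) := by
        field_simp
      rw [hval] at hstep
      have hle : 2 * (γ - β) / (γ * (γ - β) - 2) ≤ β - η := by
        have h2 : (γ - 3) / ((γ - 2) * (γ + 1)) ≤ (γ - 3) / (γ * (γ - β) - 2) := by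
          apply div_le_div_of_nonneg_left (by linarith) hD
          nlinarith
        have h3 : 2 * (γ - β) / (γ * (γ - β) - 2) + (γ - 3) / (γ * (γ - β) - 2) ≤ β := by
          rw [← add_div, div_le_iff₀ hD]
          nlinarith [mul_nonneg (show 0 ≤ β - 1 by linarith) (show 0 ≤ 2 - β by linarith),
            mul_nonneg (mul_nonneg (show 0 ≤ β - 1 by linarith) (show 0 ≤ 2 - β by linarith))
              (show 0 ≤ γ by linarith),
            mul_nonneg (show 0 ≤ γ - 3 by linarith) (show 0 ≤ β - 1 by linarith),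
            mul_nonneg (mul_nonneg (show 0 ≤ γ - 3 by linarith) (show 0 ≤ β - 1 by linarith))
              (show 0 ≤ γ by linarith)]
        linarith
      refine ih _ (by linarith) ?_ hstep
      push_cast at hb
      linarith
  obtain ⟨k, hk⟩ := exists_nat_gt (1 / η)
  refine key k 2 le_rfl ?_ h
  rw [div_lt_iff₀ hη0] at hk
  linarith

theorem mod_of_Pr {r γ : ℝ} (hr0 : 0 < r) (hr : r ^ 2 = 2) (hγ : 3 < γ) :
    ∀ (k : ℕ) (p n : Type) [Fintype p] [Fintype n] [DecidableEq p] [DecidableEq n]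
      (B : Matrix p n (MonoidAlgebra R G)), PrR k p n B → Mod r γ 1 B := by
  intro k
  induction k with
  | zero =>
    intro p n _ _ _ _ B h
    exact mod_reduce hr0 hr hγ B (mod_base hr0 hr hγ.le B h)
  | succ k ih =>
    intro p n _ _ _ _ B h
    obtain ⟨r', i1, i2, P, C, hP, hC, rfl⟩ := h
    have h1 := ih r' n C hC
    have h2 : γ - 2 / (γ - 1) ≥ 2 := by
      have h3 : 0 < γ - 1 := by linarith
      have : 2 / (γ - 1) ≤ 1 := by rw [div_le_one h3]; linarith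
      linarith
    have h3 := mod_step hr0 hr (by linarith) (by linarith) P hP C h1
    refine mod_reduce hr0 hr hγ _ (h3.mono ?_)
    rw [div_le_iff₀ (by linarith)]
    linarith

theorem mod_all {r γ : ℝ} (hr0 : 0 < r) (hr : r ^ 2 = 2) (hγ : 3 < γ)
    (B : Matrix p n (MonoidAlgebra R G)) : Mod r γ 1 B := by
  obtain ⟨k, hk⟩ := PrR_all B
  exact mod_of_Pr hr0 hr hγ k p n B hk

end mod

/-- A linear model of the matrix `B` near the identity. -/
def ModD (β : ℝ) {p n : Type} [Fintype p] [Fintype n]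
    (B : Matrix p n (MonoidAlgebra R G)) : Prop :=
  ∃ (q : Type) (_ : Fintype q) (_ : DecidableEq q) (X : Matrix p q (MonoidAlgebra R G))
    (Y : Matrix q n (MonoidAlgebra R G)) (Z W : Matrix q q (MonoidAlgebra R G)),
    1 + Z ∈ El (R := MonoidAlgebra R G) q ∧ (1 + Z) * W = 1 ∧ W * (1 + Z) = 1 ∧
    -(X * W * Y) = B ∧ 3 ≤ Fintype.card q ∧
    ∀ (x : p → MonoidAlgebra ℝ G) (y : n → MonoidAlgebra ℝ G) (a b : q → MonoidAlgebra ℝ G),
      Real.sqrt 2 * (2 * |ip (x ᵥ* tp X) b + ip (a ᵥ* tp Z) b + ip (a ᵥ* tp Y) y|) ≤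
        β * normSq x + normSq y + 2 * (normSq a + normSq b)

section mod

variable {p n m : Type} [Fintype p] [Fintype n] [Fintype m] [DecidableEq p] [DecidableEq n]
  [DecidableEq m]

theorem modD_base (B : Matrix p n (MonoidAlgebra R G)) (hB : PS B 2) : ModD 2 B := by
  refine ⟨n ⊕ Fin 3, inferInstance, inferInstance, fromCols B 0, fromRows (-1) 0, 0, 1,
    by rw [add_zero]; exact one_mem _, by simp, by simp, ?_, by simp, ?_⟩
  · rw [Matrix.mul_one, Matrix.fromCols_mul_fromRows]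
    simp
  · intro x y a b
    rw [vm_fromCols, tp_zero, Matrix.vecMul_zero, vm_fromRows, tp_neg, tp_one, Matrix.vecMul_one,
      ip_elim, ip_zero_left]
    have e4 : (Sum.elim (x ᵥ* tp B) (0 : Fin 3 → MonoidAlgebra ℝ G)) ∘ Sum.inl
        = x ᵥ* tp B := rfl
    have e5 : (Sum.elim (x ᵥ* tp B) (0 : Fin 3 → MonoidAlgebra ℝ G)) ∘ Sum.inr = 0 := rfl
    rw [e4, e5, ip_zero_left, normSq_sum a, normSq_sum b]
    set a1 := a ∘ Sum.inl
    set a2 := a ∘ Sum.inr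
    set b1 := b ∘ Sum.inl
    set b2 := b ∘ Sum.inr
    have f1 := rip sqrt2_pos sqrt2_sq (x ᵥ* tp B) b1 1 one_pos
    have f2 := rip sqrt2_pos sqrt2_sq a1 y 2 two_pos
    have f5 := hB x
    have g1 := normSq_nonneg a2
    have g2 := normSq_nonneg b2
    have habs : |ip (x ᵥ* tp B) b1 + 0 + 0 + ip a1 y| ≤
        |ip (x ᵥ* tp B) b1| + |ip a1 y| := by
      rw [add_zero, add_zero]
      exact abs_add_le _ _
    have hm := mul_le_mul_of_nonneg_left habs (show 0 ≤ Real.sqrt 2 * 2 by positivity)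
    norm_num at f1 f2
    nlinarith

theorem modD_step {β w : ℝ} (hβ : β ≤ 2) (P : Matrix m p (MonoidAlgebra R G)) (hP : PS P w)
    (B : Matrix p n (MonoidAlgebra R G)) (h : ModD β B) : ModD w (P * B) := by
  obtain ⟨q, i1, i2, X, Y, Z, W, h1, h2, h3, h4, h5, h6⟩ := h
  have hZ : (1 + fromBlocks 0 X 0 Z : Matrix (p ⊕ q) (p ⊕ q) (MonoidAlgebra R G))
      = fromBlocks 1 X 0 (1 + Z) := by
    rw [← Matrix.fromBlocks_one, Matrix.fromBlocks_add]
    simp
  refine ⟨p ⊕ q, inferInstance, inferInstance, fromCols (-P) 0, fromRows 0 Y,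
    fromBlocks 0 X 0 Z, fromBlocks 1 (-(X * W)) 0 W, ?_, ?_, ?_, ?_, ?_, ?_⟩
  · have e : fromBlocks 1 X 0 (1 + Z) = fromBlocks (1 : Matrix p p (MonoidAlgebra R G)) 0 0 (1 + Z)
        * (1 + fromBlocks 0 X 0 0) := by
      rw [← Matrix.fromBlocks_one, Matrix.fromBlocks_add, Matrix.fromBlocks_multiply]
      simp
    rw [hZ, e]
    refine mul_mem (el_ext2 (1 + Z) h1)
      (el_unip (Finset.univ.filter fun v : p ⊕ q => v.isLeft) _ ?_)
    rintro (i | i) (j | j) h <;> simp at h ⊢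
  · rw [hZ, Matrix.fromBlocks_multiply, ← Matrix.fromBlocks_one]
    simp [h2]
  · rw [hZ, Matrix.fromBlocks_multiply, ← Matrix.fromBlocks_one]
    simp [h3, Matrix.mul_assoc]
  · rw [Matrix.fromCols_mul_fromBlocks, Matrix.fromCols_mul_fromRows, ← h4]
    simp [Matrix.mul_assoc]
  · rw [Fintype.card_sum]; omega
  · intro x y a b
    have e2 : a ᵥ* tp (fromBlocks (0 : Matrix p p (MonoidAlgebra R G)) X 0 Z)
        = Sum.elim (0 : p → MonoidAlgebra ℝ G) ((a ∘ Sum.inl) ᵥ* tp X + (a ∘ Sum.inr) ᵥ* tp Z) := by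
      rw [tp_fromBlocks, tp_zero, tp_zero]
      conv_lhs => rw [← Sum.elim_comp_inl_inr a]
      rw [Matrix.vecMul_fromBlocks]
      simp
    rw [vm_fromCols, tp_neg, e2, vm_fromRows', ip_elim, ip_elim (Sum.elim _ _) b]
    have e4 : (Sum.elim (x ᵥ* tp P) (0 : q → MonoidAlgebra ℝ G)) ∘ Sum.inl
        = x ᵥ* tp P := rfl
    have e5 : (Sum.elim (x ᵥ* tp P) (0 : q → MonoidAlgebra ℝ G)) ∘ Sum.inr = 0 := rfl
    have e6 : (Sum.elim (0 : p → MonoidAlgebra ℝ G)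
        ((a ∘ Sum.inl) ᵥ* tp X + (a ∘ Sum.inr) ᵥ* tp Z)) ∘ Sum.inl = 0 := rfl
    have e7 : (Sum.elim (0 : p → MonoidAlgebra ℝ G)
        ((a ∘ Sum.inl) ᵥ* tp X + (a ∘ Sum.inr) ᵥ* tp Z))
        ∘ Sum.inr = (a ∘ Sum.inl) ᵥ* tp X + (a ∘ Sum.inr) ᵥ* tp Z := rfl
    rw [e4, e5, e6, e7, ip_zero_left, ip_zero_left, normSq_sum a, normSq_sum b, ip_add_left]
    set a1 := a ∘ Sum.inl
    set a2 := a ∘ Sum.inr
    set b1 := b ∘ Sum.inl
    set b2 := b ∘ Sum.inr
    have f0 := h6 a1 y a2 b2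
    have f1 := rip sqrt2_pos sqrt2_sq (x ᵥ* tp P) b1 1 one_pos
    have f2 := hP x
    have f3 := mul_le_mul_of_nonneg_right hβ (normSq_nonneg a1)
    have habs : |ip (x ᵥ* tp P) b1 + 0 + (0 + (ip (a1 ᵥ* tp X) b2
        + ip (a2 ᵥ* tp Z) b2)) + ip (a2 ᵥ* tp Y) y| ≤
        |ip (x ᵥ* tp P) b1| + |ip (a1 ᵥ* tp X) b2
        + ip (a2 ᵥ* tp Z) b2 + ip (a2 ᵥ* tp Y) y| := by
      have t1 := abs_add_le (ip (x ᵥ* tp P) b1) (ip (a1 ᵥ* tp X) b2
        + ip (a2 ᵥ* tp Z) b2 + ip (a2 ᵥ* tp Y) y)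
      have t3 : ip (x ᵥ* tp P) b1 + 0 + (0 + (ip (a1 ᵥ* tp X) b2
        + ip (a2 ᵥ* tp Z) b2)) + ip (a2 ᵥ* tp Y) y
        = ip (x ᵥ* tp P) b1 + (ip (a1 ᵥ* tp X) b2
        + ip (a2 ᵥ* tp Z) b2 + ip (a2 ᵥ* tp Y) y) := by ring
      rw [t3]
      exact t1
    have hm := mul_le_mul_of_nonneg_left habs (show 0 ≤ Real.sqrt 2 * 2 by positivity)
    norm_num at f1
    nlinarith

theorem modD_of_Pr : ∀ (k : ℕ) (p n : Type) [Fintype p] [Fintype n] [DecidableEq p]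
    [DecidableEq n] (B : Matrix p n (MonoidAlgebra R G)), PrR k p n B → ModD 2 B := by
  intro k
  induction k with
  | zero =>
    intro p n _ _ _ _ B h
    exact modD_base B h
  | succ k ih =>
    intro p n _ _ _ _ B h
    obtain ⟨r', i1, i2, P, C, hP, hC, rfl⟩ := h
    exact modD_step le_rfl P hP C (ih r' n C hC)

theorem modD_all (B : Matrix p n (MonoidAlgebra R G)) : ModD 1 B := by
  obtain ⟨k, hk⟩ := PrR_all B
  have h := modD_step le_rfl (1 : Matrix p p (MonoidAlgebra R G)) PS_one B (modD_of_Pr k p n B hk)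
  rwa [Matrix.one_mul] at h

end mod

end TH6.PF
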