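import Pool.Agent.TH6.LF.Form1

set_option autoImplicit false
set_option linter.unusedSectionVars false
set_option linter.style.haveILetI false

/-! The support pattern of a matrix over the group ring of any ring. -/

namespace TH6.PF

open Matrix TH57.Thr TH6.LF

variable {R : Type} [Ring R] {G : Type} {ι κ : Type}

open Classical in
/-- `0` for `0` and `1` for all other elements of the ring -/
noncomputable def ind (r : R) : ℤ := if r = 0 then 0 else 1

theorem ind_zero : ind (0 : R) = 0 := if_pos rfl

theorem ind_of_ne {r : R} (h : r ≠ 0) : ind r = 1 := if_neg h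

theorem ind_ne (r : R) : ind r ≠ 0 ↔ r ≠ 0 := by
  constructor
  · rintro h rfl; exact h ind_zero
  · intro h; rw [ind_of_ne h]; exact one_ne_zero

theorem ind_neg (r : R) : ind (-r) = ind r := by
  by_cases h : r = 0
  · rw [h, neg_zero]
  · rw [ind_of_ne h, ind_of_ne (neg_ne_zero.2 h)]

/-- The support pattern of an element of a group ring: the coefficient is `1` where the coefficient
of the element is not zero. -/
noncomputable def pat1 (x : MonoidAlgebra R G) : MonoidAlgebra ℤ G :=
  .ofCoeff (x.coeff.mapRange ind ind_zero)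

/-- The support pattern of a matrix over a group ring. -/
noncomputable def pat (A : Matrix ι κ (MonoidAlgebra R G)) : Matrix ι κ (MonoidAlgebra ℤ G) :=
  A.map pat1

theorem coeff_pat1 (x : MonoidAlgebra R G) (g : G) : (pat1 x).coeff g = ind (x.coeff g) := by
  change (Finsupp.mapRange ind ind_zero x.coeff) g = _
  rw [Finsupp.mapRange_apply]

theorem coeff_pat (A : Matrix ι κ (MonoidAlgebra R G)) (i : ι) (j : κ) (g : G) :
    (pat A i j).coeff g = ind ((A i j).coeff g) := coeff_pat1 _ _

theorem pat_ne (A : Matrix ι κ (MonoidAlgebra R G)) (i : ι) (j : κ) (g : G) :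
    (pat A i j).coeff g ≠ 0 ↔ (A i j).coeff g ≠ 0 := by
  rw [coeff_pat, ind_ne]

@[simp] theorem pat1_zero : pat1 (0 : MonoidAlgebra R G) = 0 := by
  ext g
  rw [coeff_pat1, MonoidAlgebra.coeff_zero, MonoidAlgebra.coeff_zero, Finsupp.coe_zero,
    Finsupp.coe_zero, Pi.zero_apply, Pi.zero_apply, ind_zero]

@[simp] theorem pat1_neg (x : MonoidAlgebra R G) : pat1 (-x) = pat1 x := by
  ext g
  rw [coeff_pat1, coeff_pat1, MonoidAlgebra.coeff_neg, Finsupp.neg_apply, ind_neg]

theorem pat1_single (g : G) (r : R) (hr : r ≠ 0) :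
    pat1 (MonoidAlgebra.single g r) = MonoidAlgebra.single g 1 := by
  classical
  ext h
  rw [coeff_pat1, MonoidAlgebra.coeff_single, MonoidAlgebra.coeff_single, Finsupp.single_apply,
    Finsupp.single_apply]
  split_ifs
  · exact ind_of_ne hr
  · exact ind_zero

/-- the pattern over the reals -/
noncomputable def tp (A : Matrix ι κ (MonoidAlgebra R G)) : Matrix ι κ (MonoidAlgebra ℝ G) :=
  A.map fun x => MonoidAlgebra.map (Int.castAddHom ℝ) (pat1 x)

theorem tp_zero : tp (0 : Matrix ι κ (MonoidAlgebra R G)) = 0 := by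
  ext1 i j
  simp [tp]

theorem tp_neg (A : Matrix ι κ (MonoidAlgebra R G)) : tp (-A) = tp A := by
  ext1 i j
  simp [tp]

theorem tp_fromBlocks {ι' κ' : Type} (A : Matrix ι κ (MonoidAlgebra R G))
    (B : Matrix ι κ' (MonoidAlgebra R G)) (C : Matrix ι' κ (MonoidAlgebra R G))
    (D : Matrix ι' κ' (MonoidAlgebra R G)) :
    tp (fromBlocks A B C D) = fromBlocks (tp A) (tp B) (tp C) (tp D) := by
  ext1 i j
  rcases i with i | i <;> rcases j with j | j <;> rfl

theorem tp_fromCols {κ' : Type} (A : Matrix ι κ (MonoidAlgebra R G))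
    (B : Matrix ι κ' (MonoidAlgebra R G)) : tp (fromCols A B) = fromCols (tp A) (tp B) := by
  ext1 i j
  rcases j with j | j <;> rfl

theorem tp_fromRows {κ' : Type} (A : Matrix ι κ (MonoidAlgebra R G))
    (B : Matrix κ' κ (MonoidAlgebra R G)) : tp (fromRows A B) = fromRows (tp A) (tp B) := by
  ext1 i j
  rcases i with i | i <;> rfl

theorem pat_fromBlocks {ι' κ' : Type} (A : Matrix ι κ (MonoidAlgebra R G))
    (B : Matrix ι κ' (MonoidAlgebra R G)) (C : Matrix ι' κ (MonoidAlgebra R G))
    (D : Matrix ι' κ' (MonoidAlgebra R G)) :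
    pat (fromBlocks A B C D) = fromBlocks (pat A) (pat B) (pat C) (pat D) := by
  ext1 i j
  rcases i with i | i <;> rcases j with j | j <;> rfl

theorem pat_zero : pat (0 : Matrix ι κ (MonoidAlgebra R G)) = 0 := by
  ext1 i j
  simp [pat]

theorem pat_submatrix {ι' κ' : Type} (A : Matrix ι κ (MonoidAlgebra R G)) (e : ι' → ι)
    (f : κ' → κ) : pat (A.submatrix e f) = (pat A).submatrix e f := rfl

section group

variable [Group G]

theorem toReal_pat (A : Matrix ι κ (MonoidAlgebra R G)) : toReal (pat A) = tp A := by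
  ext i j g
  simp only [toReal, Matrix.map_apply, pat, tp, MonoidAlgebra.coeff_mapRingHom]
  rfl

theorem pat1_one [Nontrivial R] : pat1 (1 : MonoidAlgebra R G) = 1 := by
  rw [MonoidAlgebra.one_def, MonoidAlgebra.one_def, pat1_single 1 1 one_ne_zero]

theorem pat_one [Nontrivial R] [DecidableEq ι] :
    pat (1 : Matrix ι ι (MonoidAlgebra R G)) = 1 := by
  ext1 i j
  rw [pat, Matrix.map_apply, Matrix.one_apply, Matrix.one_apply]
  split_ifs
  · exact pat1_one
  · exact pat1_zero

theorem tp_one [Nontrivial R] [Fintype ι] [DecidableEq ι] :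
    tp (1 : Matrix ι ι (MonoidAlgebra R G)) = 1 := by
  rw [← toReal_pat, pat_one, toReal_one]

/-- The norm of the support pattern of `A`, as an operator on `ℓ²`-spaces, is at most `|c|`. -/
def ThinLE [Fintype ι] [Fintype κ] (A : Matrix ι κ (MonoidAlgebra R G)) (c : ℝ) : Prop :=
  NormLE (pat A) c

/-- the squared norm of the pattern is at most `w` -/
def PS [Fintype ι] [Fintype κ] (P : Matrix ι κ (MonoidAlgebra R G)) (w : ℝ) : Prop :=
  ∀ x : ι → MonoidAlgebra ℝ G, normSq (x ᵥ* tp P) ≤ w * normSq x

theorem PS_one [Nontrivial R] [Fintype ι] [DecidableEq ι] :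
    PS (1 : Matrix ι ι (MonoidAlgebra R G)) 1 := by
  intro x
  rw [tp_one, Matrix.vecMul_one, one_mul]

/-- `B` is a product of `k + 1` matrices whose patterns have squared norm at most two. -/
def PrR : ℕ → ∀ (p n : Type) [Fintype p] [Fintype n], Matrix p n (MonoidAlgebra R G) → Prop
  | 0, _, _, _, _, B => PS B 2
  | k + 1, p, n, _, _, B => ∃ (r : Type) (_ : Fintype r) (_ : DecidableEq r)
      (P : Matrix p r (MonoidAlgebra R G)) (C : Matrix r n (MonoidAlgebra R G)),
      PS P 2 ∧ PrR k r n C ∧ B = P * C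

theorem PrR_mul : ∀ (k : ℕ) (p n l : Type) [Fintype p] [Fintype n] [Fintype l]
    [DecidableEq n] (B : Matrix p n (MonoidAlgebra R G)) (Q : Matrix n l (MonoidAlgebra R G)),
    PrR k p n B → PS Q 2 → PrR (k + 1) p l (B * Q) := by
  intro k
  induction k with
  | zero =>
    intro p n l _ _ _ _ B Q h hQ
    exact ⟨n, inferInstance, inferInstance, B, Q, h, hQ, rfl⟩
  | succ k ih =>
    intro p n l _ _ _ _ B Q h hQ
    obtain ⟨r, i1, i2, P, C, hP, hC, rfl⟩ := h
    exact ⟨r, i1, i2, P, C * Q, hP, ih r n l C Q hC hQ, Matrix.mul_assoc _ _ _⟩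

theorem PS_ext [Nontrivial R] {p n r : Type} [Fintype p] [Fintype n] [Fintype r] [DecidableEq r]
    (B : Matrix p n (MonoidAlgebra R G)) (h : PS B 2) :
    PS (fromBlocks B 0 0 (1 : Matrix r r (MonoidAlgebra R G))) 2 := by
  intro x
  rw [tp_fromBlocks, tp_zero, tp_zero, tp_one]
  have h1 : x ᵥ* fromBlocks (tp B) 0 0 (1 : Matrix r r (MonoidAlgebra ℝ G))
      = Sum.elim ((x ∘ Sum.inl) ᵥ* tp B) (x ∘ Sum.inr) := by
    conv_lhs => rw [← Sum.elim_comp_inl_inr x]
    rw [Matrix.vecMul_fromBlocks]
    simp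
  rw [h1, normSq_elim, normSq_sum x]
  have h2 := h (x ∘ Sum.inl)
  have h3 := normSq_nonneg (x ∘ Sum.inr : r → MonoidAlgebra ℝ G)
  linarith

theorem PrR_ext [Nontrivial R] : ∀ (k : ℕ) (p n r : Type) [Fintype p] [Fintype n] [Fintype r]
    [DecidableEq r] (B : Matrix p n (MonoidAlgebra R G)), PrR k p n B →
    PrR k (p ⊕ r) (n ⊕ r) (fromBlocks B 0 0 (1 : Matrix r r (MonoidAlgebra R G))) := by
  intro k
  induction k with
  | zero =>
    intro p n r _ _ _ _ B h
    exact PS_ext B h
  | succ k ih =>
    intro p n r _ _ _ _ B h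
    obtain ⟨t, i1, i2, P, C, hP, hC, rfl⟩ := h
    refine ⟨t ⊕ r, inferInstance, inferInstance, fromBlocks P 0 0 1, fromBlocks C 0 0 1,
      PS_ext P hP, ih t n r C hC, ?_⟩
    rw [Matrix.fromBlocks_multiply]; simp

section add

variable {p n : Type} [Fintype p] [Fintype n] [DecidableEq p] [DecidableEq n]

theorem PrR_add [Nontrivial R] (k : ℕ) (B : Matrix p n (MonoidAlgebra R G)) (h : PrR k p n B)
    (i : p) (j : n) (g : G) (r : R) (hr : r ≠ 0) :
    PrR (k + 2) p n (B + Matrix.single i j (MonoidAlgebra.single g r)) := by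
  set a : MonoidAlgebra R G := MonoidAlgebra.single g r with ha
  let C1 : Matrix p (p ⊕ Unit) (MonoidAlgebra R G) := fromCols 1 (fun k _ => if k = i then 1 else 0)
  let C2 : Matrix (n ⊕ Unit) n (MonoidAlgebra R G) := fromRows 1 (fun _ l => if l = j then a else 0)
  have hC1l : ∀ k l, C1 k (Sum.inl l) = if k = l then 1 else 0 := fun k l => Matrix.one_apply
  have hC1r : ∀ k l, C1 k (Sum.inr l) = if k = i then 1 else 0 := fun k l => rfl
  have hC2l : ∀ k l, C2 (Sum.inl k) l = if k = l then 1 else 0 := fun k l => Matrix.one_apply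
  have hC2r : ∀ k l, C2 (Sum.inr k) l = if l = j then a else 0 := fun k l => rfl
  have m1 : MonoidAlgebra.map (Int.castAddHom ℝ) (1 : MonoidAlgebra ℤ G) = 1 := by
    ext h; simp [MonoidAlgebra.one_def]
  have m0 : MonoidAlgebra.map (Int.castAddHom ℝ) (0 : MonoidAlgebra ℤ G) = 0 := by
    ext h; simp
  have ma : MonoidAlgebra.map (Int.castAddHom ℝ) (MonoidAlgebra.single g (1 : ℤ))
      = MonoidAlgebra.single g 1 := by
    ext h; simp
  have hC1 : PS C1 2 := by
    intro x
    have h1 : x ᵥ* tp C1 = Sum.elim x (fun _ => x i) := by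
      funext l
      rcases l with l | l
      · simp [tp, Matrix.vecMul, dotProduct, hC1l, apply_ite, pat1_one, m1]
      · simp [tp, Matrix.vecMul, dotProduct, hC1r, apply_ite, pat1_one, m1]
    rw [h1, normSq_elim]
    have h2 : normSq (fun _ : Unit => x i) ≤ normSq x := by
      rw [normSq_eq, normSq_eq]
      simp only [Finset.univ_unique, Finset.sum_const, Finset.card_singleton, one_smul]
      exact Finset.single_le_sum (f := fun i => n1 (x i)) (fun _ _ => n1_nonneg _)
        (Finset.mem_univ i)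
    linarith
  have hC2 : PS C2 2 := by
    intro x
    have h1 : x ᵥ* tp C2 = (x ∘ Sum.inl)
        + (fun l => if l = j then x (Sum.inr ()) * MonoidAlgebra.single g (1 : ℝ) else 0) := by
      funext l
      simp only [tp, Matrix.vecMul, dotProduct, Fintype.sum_sum_type, Matrix.map_apply, hC2l,
        hC2r, apply_ite, pat1_one, pat1_zero, m1, m0, mul_one, mul_zero, Finset.sum_ite_eq',
        Finset.mem_univ, if_true, Pi.add_apply, Function.comp_apply, Finset.univ_unique,
        Finset.sum_singleton, ha, pat1_single g r hr, ma]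
      by_cases hl : l = j
      · simp [hl]
      · simp [hl]
    have h3 : normSq (fun l => if l = j then
        x (Sum.inr ()) * MonoidAlgebra.single g (1 : ℝ) else 0) = n1 (x (Sum.inr ())) := by
      rw [normSq_eq]
      rw [Finset.sum_eq_single j]
      · rw [if_pos rfl]
        exact n1_mul_single _ _
      · intro l _ hl
        rw [if_neg hl, n1_zero]
      · intro h; exact absurd (Finset.mem_univ _) h
    have h4 : normSq (x ∘ Sum.inr) = n1 (x (Sum.inr ())) := by
      rw [normSq_eq]; simp
    rw [h1]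
    have h2 := normSq_add_le (x ∘ Sum.inl) (fun l => if l = j then
      x (Sum.inr ()) * MonoidAlgebra.single g (1 : ℝ) else 0) 1 one_pos
    rw [h3] at h2
    rw [normSq_sum x, h4]
    linarith
  have h1 := PrR_mul k _ _ _ _ C2 (PrR_ext k p n Unit B h) hC2
  refine ⟨p ⊕ Unit, inferInstance, inferInstance, C1, _, hC1, h1, ?_⟩
  ext1 k l
  simp only [Matrix.mul_apply, Fintype.sum_sum_type, hC1l, hC1r, hC2l, hC2r, fromBlocks_apply₁₁,
    fromBlocks_apply₁₂, fromBlocks_apply₂₁, fromBlocks_apply₂₂, Matrix.zero_apply, zero_mul,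
    Finset.sum_const_zero, add_zero, zero_add, Finset.univ_unique, Finset.sum_singleton,
    Matrix.one_apply_eq, one_mul, mul_ite, mul_one, mul_zero, Finset.sum_ite_eq', Finset.mem_univ,
    if_true, ite_mul, Finset.sum_ite_eq, Matrix.add_apply, Matrix.single_apply]
  congr 1
  · simp
  · by_cases hk : k = i
    · subst hk
      by_cases hl : l = j
      · subst hl; simp
      · have hl' : ¬ j = l := fun h => hl h.symm
        simp [hl, hl']
    · have hk' : ¬ i = k := fun h => hk h.symm
      simp [hk, hk']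

theorem PrR_all [Nontrivial R] (A : Matrix p n (MonoidAlgebra R G)) : ∃ k, PrR k p n A := by
  have key : ∀ M : Matrix p n (MonoidAlgebra R G), ∀ A : Matrix p n (MonoidAlgebra R G),
      (∃ k, PrR k p n A) → ∃ k, PrR k p n (A + M) := by
    intro M
    induction M using Matrix.induction_on' with
    | h_zero => intro A h; simpa using h
    | h_add P Q hP hQ =>
      intro A h
      rw [← add_assoc]
      exact hQ _ (hP _ h)
    | h_std_basis i j a =>
      induction a using MonoidAlgebra.induction_linear with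
      | zero => intro A h; simpa using h
      | add a b ha hb =>
        intro A h
        rw [Matrix.single_add, ← add_assoc]
        exact hb _ (ha _ h)
      | single g r =>
        intro A h
        by_cases hr : r = 0
        · subst hr; simpa using h
        · obtain ⟨k, hk⟩ := h
          exact ⟨k + 2, PrR_add k _ hk i j g r hr⟩
  have h0 : PS (0 : Matrix p n (MonoidAlgebra R G)) 2 := by
    intro x
    rw [tp_zero, Matrix.vecMul_zero]
    have : normSq (0 : n → MonoidAlgebra ℝ G) = 0 := by
      rw [normSq_eq]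
      exact Finset.sum_eq_zero fun i _ => n1_zero
    rw [this]
    exact mul_nonneg (by norm_num) (normSq_nonneg _)
  obtain ⟨k, hk⟩ := key A 0 ⟨0, h0⟩
  exact ⟨k, by simpa using hk⟩

end add

end group

end TH6.PF
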