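import Pool.Agent.TH6.PF.Pat

set_option autoImplicit false
set_option linter.unusedSectionVars false

/-! The involution of the group ring of a ring with involution, twisted by an orientation
character, and adjoint matrices. -/

namespace TH6.PF

open Matrix TH57.Thr TH6.LF

section bar

variable {R : Type} [Ring R] [StarRing R] {G : Type} [Group G] (w : G →* ℤˣ)

/-- The involution of the group ring which sends `r g` to `w(g) r* g⁻¹`. -/
noncomputable def sbar (x : MonoidAlgebra R G) : MonoidAlgebra R G :=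
  ∑ g ∈ x.coeff.support, MonoidAlgebra.single g⁻¹ ((w g : ℤ) • star (x.coeff g))

theorem w_inv (g : G) : ((w g⁻¹ : ℤˣ) : ℤ) = ((w g : ℤˣ) : ℤ) := by
  rw [map_inv]
  rcases Int.units_eq_one_or (w g) with h | h <;> rw [h] <;> rfl

theorem w_sq (g : G) : ((w g : ℤˣ) : ℤ) * ((w g : ℤˣ) : ℤ) = 1 := by
  rcases Int.units_eq_one_or (w g) with h | h <;> rw [h] <;> rfl

theorem w_zsmul_eq_zero {M : Type} [AddCommGroup M] (g : G) (m : M) :
    ((w g : ℤˣ) : ℤ) • m = 0 ↔ m = 0 := by
  constructor
  · intro h
    have := congrArg (fun x => ((w g : ℤˣ) : ℤ) • x) h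
    simpa only [smul_smul, w_sq, one_smul, smul_zero] using this
  · rintro rfl; exact smul_zero _

theorem coeff_sbar (x : MonoidAlgebra R G) (g : G) :
    (sbar w x).coeff g = ((w g : ℤˣ) : ℤ) • star (x.coeff g⁻¹) := by
  classical
  unfold sbar
  rw [MonoidAlgebra.coeff_sum, Finsupp.finsetSum_apply]
  have h1 : ∀ h ∈ x.coeff.support, (MonoidAlgebra.single h⁻¹
      (((w h : ℤˣ) : ℤ) • star (x.coeff h))).coeff g
      = if h = g⁻¹ then ((w g : ℤˣ) : ℤ) • star (x.coeff g⁻¹) else 0 := by
    intro h _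
    rw [MonoidAlgebra.coeff_single, Finsupp.single_apply]
    by_cases hh : h = g⁻¹
    · subst hh
      rw [if_pos (inv_inv g), if_pos rfl, w_inv]
    · rw [if_neg hh, if_neg (fun h2 => hh (by rw [← h2, inv_inv]))]
  rw [Finset.sum_congr rfl h1, Finset.sum_ite_eq']
  split_ifs with h
  · rfl
  · rw [Finsupp.notMem_support_iff.1 h, star_zero, smul_zero]

theorem sbar_single (g : G) (r : R) :
    sbar w (MonoidAlgebra.single g r) = MonoidAlgebra.single g⁻¹ (((w g : ℤˣ) : ℤ) • star r) := by
  classical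
  ext h
  rw [coeff_sbar, MonoidAlgebra.coeff_single, MonoidAlgebra.coeff_single, Finsupp.single_apply,
    Finsupp.single_apply]
  by_cases hh : g = h⁻¹
  · subst hh
    rw [if_pos rfl, inv_inv, if_pos rfl, w_inv]
  · rw [if_neg hh, if_neg (fun h2 => hh (by rw [← h2, inv_inv])), star_zero, smul_zero]

theorem sbar_zero : sbar w (0 : MonoidAlgebra R G) = 0 := by
  ext g; rw [coeff_sbar]; simp

theorem sbar_add (x y : MonoidAlgebra R G) : sbar w (x + y) = sbar w x + sbar w y := by
  ext g
  rw [MonoidAlgebra.coeff_add, Finsupp.add_apply, coeff_sbar, coeff_sbar, coeff_sbar,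
    MonoidAlgebra.coeff_add, Finsupp.add_apply, star_add, smul_add]

theorem sbar_neg (x : MonoidAlgebra R G) : sbar w (-x) = -sbar w x := by
  ext g
  rw [MonoidAlgebra.coeff_neg, Finsupp.neg_apply, coeff_sbar, coeff_sbar,
    MonoidAlgebra.coeff_neg, Finsupp.neg_apply, star_neg, smul_neg]

theorem sbar_sub (x y : MonoidAlgebra R G) : sbar w (x - y) = sbar w x - sbar w y := by
  rw [sub_eq_add_neg, sbar_add, sbar_neg, ← sub_eq_add_neg]

theorem sbar_sbar (x : MonoidAlgebra R G) : sbar w (sbar w x) = x := by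
  ext g
  rw [coeff_sbar, coeff_sbar, inv_inv, w_inv, star_zsmul, star_star, smul_smul, w_sq, one_smul]

theorem sbar_one : sbar w (1 : MonoidAlgebra R G) = 1 := by
  rw [MonoidAlgebra.one_def, sbar_single, inv_one, star_one, map_one, Units.val_one, one_smul]

theorem sbar_sum {ι : Type*} (s : Finset ι) (f : ι → MonoidAlgebra R G) :
    sbar w (∑ i ∈ s, f i) = ∑ i ∈ s, sbar w (f i) := by
  classical
  induction s using Finset.induction_on with
  | empty => simp [sbar_zero]
  | insert i s hi ih => rw [Finset.sum_insert hi, Finset.sum_insert hi, sbar_add, ih]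

theorem sbar_mul (x y : MonoidAlgebra R G) : sbar w (x * y) = sbar w y * sbar w x := by
  induction x using MonoidAlgebra.induction_linear with
  | zero => rw [zero_mul, sbar_zero, mul_zero]
  | add x1 x2 h1 h2 => rw [add_mul, sbar_add, h1, h2, sbar_add, mul_add]
  | single g r =>
    induction y using MonoidAlgebra.induction_linear with
    | zero => rw [mul_zero, sbar_zero, zero_mul]
    | add y1 y2 h1 h2 => rw [mul_add, sbar_add, h1, h2, sbar_add, add_mul]
    | single h s =>
      rw [MonoidAlgebra.single_mul_single, sbar_single, sbar_single, sbar_single,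
        MonoidAlgebra.single_mul_single, _root_.mul_inv_rev, star_mul, map_mul, Units.val_mul,
        smul_mul_smul_comm, mul_comm ((w g : ℤˣ) : ℤ)]

theorem sbar_zsmul (z : ℤ) (x : MonoidAlgebra R G) : sbar w (z • x) = z • sbar w x := by
  let f : MonoidAlgebra R G →+ MonoidAlgebra R G :=
    { toFun := sbar w, map_zero' := sbar_zero w, map_add' := sbar_add w }
  exact map_zsmul f z x

theorem sbar_mapDomain {K : Type} [Group K] (f : K →* G) (x : MonoidAlgebra R K) :
    sbar w (MonoidAlgebra.mapDomain f x) = MonoidAlgebra.mapDomain f (sbar (w.comp f) x) := by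
  induction x using MonoidAlgebra.induction_linear with
  | zero => rw [MonoidAlgebra.mapDomain_zero, sbar_zero, sbar_zero, MonoidAlgebra.mapDomain_zero]
  | add x1 x2 h1 h2 =>
    rw [MonoidAlgebra.mapDomain_add, sbar_add, h1, h2, sbar_add, MonoidAlgebra.mapDomain_add]
  | single k r =>
    rw [MonoidAlgebra.mapDomain_single, sbar_single, sbar_single, MonoidAlgebra.mapDomain_single,
      map_inv]
    rfl

end bar

section adj

variable {R : Type} [Ring R] [StarRing R] {G : Type} [Group G] (w : G →* ℤˣ) {ι κ μ : Type}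

/-- The adjoint (conjugate transpose) of a matrix over the group ring. -/
noncomputable def sadj (A : Matrix ι κ (MonoidAlgebra R G)) : Matrix κ ι (MonoidAlgebra R G) :=
  fun j i => sbar w (A i j)

theorem sadj_apply (A : Matrix ι κ (MonoidAlgebra R G)) (i : ι) (j : κ) :
    sadj w A j i = sbar w (A i j) := rfl

theorem sadj_mul [Fintype κ] (A : Matrix ι κ (MonoidAlgebra R G))
    (B : Matrix κ μ (MonoidAlgebra R G)) : sadj w (A * B) = sadj w B * sadj w A := by
  ext1 j i
  rw [sadj_apply, Matrix.mul_apply, Matrix.mul_apply, sbar_sum]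
  exact Finset.sum_congr rfl fun k _ => by rw [sbar_mul]; rfl

theorem sadj_add (A B : Matrix ι κ (MonoidAlgebra R G)) :
    sadj w (A + B) = sadj w A + sadj w B := by
  ext1 j i; exact sbar_add w _ _

theorem sadj_neg (A : Matrix ι κ (MonoidAlgebra R G)) : sadj w (-A) = -sadj w A := by
  ext1 j i; exact sbar_neg w _

theorem sadj_sub (A B : Matrix ι κ (MonoidAlgebra R G)) :
    sadj w (A - B) = sadj w A - sadj w B := by
  ext1 j i; exact sbar_sub w _ _

theorem sadj_sadj (A : Matrix ι κ (MonoidAlgebra R G)) : sadj w (sadj w A) = A := by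
  ext1 i j; exact sbar_sbar w _

theorem sadj_zero : sadj w (0 : Matrix ι κ (MonoidAlgebra R G)) = 0 := by
  ext1 j i; exact sbar_zero w

theorem sadj_one [DecidableEq ι] : sadj w (1 : Matrix ι ι (MonoidAlgebra R G)) = 1 := by
  ext1 j i
  rw [sadj_apply, Matrix.one_apply, Matrix.one_apply]
  by_cases h : i = j
  · rw [if_pos h, if_pos h.symm, sbar_one]
  · rw [if_neg h, if_neg (Ne.symm h), sbar_zero]

theorem sadj_fromBlocks {ι' κ' : Type} (A : Matrix ι κ (MonoidAlgebra R G))
    (B : Matrix ι κ' (MonoidAlgebra R G)) (C : Matrix ι' κ (MonoidAlgebra R G))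
    (D : Matrix ι' κ' (MonoidAlgebra R G)) :
    sadj w (fromBlocks A B C D) = fromBlocks (sadj w A) (sadj w C) (sadj w B) (sadj w D) := by
  ext1 i j
  rcases i with i | i <;> rcases j with j | j <;> rfl

theorem sadj_fromCols {κ' : Type} (A : Matrix ι κ (MonoidAlgebra R G))
    (B : Matrix ι κ' (MonoidAlgebra R G)) :
    sadj w (fromCols A B) = fromRows (sadj w A) (sadj w B) := by
  ext1 i j
  rcases i with i | i <;> rfl

theorem sadj_zsmul (z : ℤ) (A : Matrix ι κ (MonoidAlgebra R G)) :
    sadj w (z • A) = z • sadj w A := by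
  ext1 j i
  rw [sadj_apply, Matrix.smul_apply, Matrix.smul_apply, sadj_apply]
  exact sbar_zsmul w z _

theorem sadj_submatrix {ι' κ' : Type} (A : Matrix ι κ (MonoidAlgebra R G)) (e : ι' → ι)
    (f : κ' → κ) : sadj w (A.submatrix e f) = (sadj w A).submatrix f e := rfl

theorem ind_star (r : R) : ind (star r) = ind r := by
  by_cases h : r = 0
  · rw [h, star_zero]
  · rw [ind_of_ne h, ind_of_ne (star_ne_zero.2 h)]

theorem pat_sadj (A : Matrix ι κ (MonoidAlgebra R G)) : pat (sadj w A) = adj (pat A) := by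
  ext i j g
  rw [coeff_pat, sadj_apply, coeff_sbar, adj_apply, coeff_bar, coeff_pat]
  by_cases h : (A j i).coeff g⁻¹ = 0
  · rw [h, star_zero, smul_zero]
  · rw [ind_of_ne h, ind_of_ne]
    intro h2
    rw [w_zsmul_eq_zero] at h2
    exact h (star_eq_zero.1 h2)

/-- The symmetrised support pattern of the matrix `ψ` of a quadratic form: the support pattern of
`ψ` plus its adjoint. -/
noncomputable def symPat {R : Type} [Ring R] {G : Type} [Group G] {ι : Type}
    (ψ : Matrix ι ι (MonoidAlgebra R G)) :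
    Matrix ι ι (MonoidAlgebra ℤ G) := pat ψ + adj (pat ψ)

theorem symPat_ip [Fintype ι] (F : Matrix ι ι (MonoidAlgebra R G)) (v v' : ι → MonoidAlgebra ℝ G) :
    ip (v ᵥ* toReal (symPat F)) v' = ip (v ᵥ* tp F) v' + ip (v' ᵥ* tp F) v := by
  rw [symPat, toReal_add, toReal_adj, Matrix.vecMul_add, ip_add_left, toReal_pat]
  congr 1
  rw [ip_vecMul, adj_adj, ip_comm]

theorem coeff_symPat (F : Matrix ι ι (MonoidAlgebra R G)) (i j : ι) (g : G) :
    (symPat F i j).coeff g = ind ((F i j).coeff g) + ind ((F j i).coeff g⁻¹) := by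
  rw [symPat, Matrix.add_apply, MonoidAlgebra.coeff_add, Finsupp.add_apply, coeff_pat, adj_apply,
    coeff_bar, coeff_pat]

end adj

end TH6.PF
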